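import Pool.Agent.Lib.MP_354e85_al.Lim.CostGen

open MeasureTheory Set

namespace Pool.Agent.Lib.MP_354e85_al.Lim

open Pool.Agent.Lib.MP_354e85_al

theorem eqvGen_mono {α : Type*} {R S : α → α → Prop} (h : ∀ a b, R a b → S a b) {a b : α}
    (hab : Relation.EqvGen R a b) : Relation.EqvGen S a b := by
  induction hab with
  | rel x y h1 => exact Relation.EqvGen.rel _ _ (h _ _ h1)
  | refl x => exact Relation.EqvGen.refl _
  | symm x y _ ih => exact ih.symm _ _
  | trans x y z _ _ ih1 ih2 => exact ih1.trans _ _ _ ih2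

/-- `cost_gen` for finite families. -/
theorem cost_gen_fintype {G : Type*} [Group G] [Countable G] {ε : ℝ} (hcost : CostGE G ε)
    {Z : Type*} [MeasurableSpace Z] [StandardBorelSpace Z] (μ : Measure Z)
    [IsProbabilityMeasure μ] (act : G → Z → Z) (h1 : ∀ z, act 1 z = z)
    (hmul : ∀ g h z, act (g * h) z = act g (act h z))
    (hmp : ∀ g, MeasurePreserving (act g) μ μ) {ι : Type*} [Fintype ι] (s : ι → G)
    (B : ι → Set Z) (hB : ∀ i, MeasurableSet (B i))
    (hgen : ∀ᵐ z ∂μ, ∀ g : G, Relation.EqvGen (Edge act s B z) 1 g) :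
    ENNReal.ofReal (1 + ε) ≤ ∑ i, μ (B i) := by
  classical
  let e := Fintype.equivFin ι
  let s' : ℕ → G := fun n => if h : n < Fintype.card ι then s (e.symm ⟨n, h⟩) else 1
  let B' : ℕ → Set Z := fun n => if h : n < Fintype.card ι then B (e.symm ⟨n, h⟩) else ∅
  have hs' : ∀ i : ι, s' (e i) = s i := by
    intro i
    simp only [s', (e i).2, dif_pos, Fin.eta, Equiv.symm_apply_apply]
  have hB' : ∀ i : ι, B' (e i) = B i := by
    intro i
    simp only [B', (e i).2, dif_pos, Fin.eta, Equiv.symm_apply_apply]
  have key := cost_gen hcost μ act h1 hmul hmp s' B' (fun n => by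
    by_cases h : n < Fintype.card ι
    · simp only [B', h, dif_pos]
      exact hB _
    · simp only [B', h, dif_neg, not_false_iff]
      exact MeasurableSet.empty) (by
    filter_upwards [hgen] with z hz g
    exact eqvGen_mono (fun x y ⟨i, hi, hxy⟩ =>
      ⟨e i, by rw [hB']; exact hi, by rw [hs']; exact hxy⟩) (hz g))
  refine key.trans (le_of_eq ?_)
  rw [tsum_eq_sum (s := Finset.range (Fintype.card ι))]
  · rw [Finset.sum_range, ← Equiv.sum_comp e]
    exact Finset.sum_congr rfl fun i _ => by rw [hB']
  · intro n hn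
    rw [Finset.mem_range] at hn
    simp only [B', hn, dif_neg, not_false_iff, measure_empty]

/-- The points whose coordinate at `u` is the smallest over `U`. -/
def argm {Q : Type*} (U : Finset Q) (u : Q) : Set (Q → ℝ) := {b | ∀ f ∈ U, f ≠ u → b u < b f}

theorem measurableSet_argm {Q : Type*} (U : Finset Q) (u : Q) : MeasurableSet (argm U u) := by
  have : argm U u = ⋂ f ∈ U, {b : Q → ℝ | f ≠ u → b u < b f} := by
    ext b
    simp [argm]
  rw [this]
  refine Finset.measurableSet_biInter _ fun f _ => ?_
  by_cases h : f = u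
  · simp [h]
  · simp only [ne_eq, h, not_false_iff, forall_true_left]
    exact measurableSet_lt (measurable_pi_apply _) (measurable_pi_apply _)

theorem argm_disjoint {Q : Type*} {U : Finset Q} {u v : Q} (hu : u ∈ U) (hv : v ∈ U)
    (huv : u ≠ v) : Disjoint (argm U u) (argm U v) := by
  rw [Set.disjoint_left]
  intro b h1 h2
  exact lt_asymm (h1 v hv huv.symm) (h2 u hu huv)

theorem argm_cover {Q : Type*} [Countable Q] {U : Finset Q} (hU : U.Nonempty) :
    ∀ᵐ b ∂(bern Q), ∃ u ∈ U, b ∈ argm U u := by
  have h1 : ∀ᵐ b ∂(bern Q), ∀ p q : Q, p ≠ q → b p ≠ b q := by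
    rw [ae_all_iff]
    intro p
    rw [ae_all_iff]
    intro q
    by_cases h : p = q
    · simp [h]
    · have := bern_diag p q h
      rw [ae_iff]
      refine measure_mono_null ?_ this
      intro b hb
      by_contra hcon
      exact hb (fun _ => hcon)
  filter_upwards [h1] with b hb
  obtain ⟨u, hu, hmin⟩ := Finset.exists_min_image U b hU
  exact ⟨u, hu, fun f hf hfu => lt_of_le_of_ne (hmin f hf) (hb u f hfu.symm)⟩

theorem bern_perm {Q : Type*} (σ : Equiv.Perm Q) :
    MeasurePreserving (fun (b : Q → ℝ) (h : Q) => b (σ h)) (bern Q) (bern Q) := by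
  have := prob01
  refine ⟨by fun_prop, ?_⟩
  unfold bern
  exact Measure.map_infinitePi_infinitePi_of_inj
    (P := fun _ : Q => volume.restrict (Icc (0 : ℝ) 1)) (f := fun h : Q => σ h) σ.injective

theorem argm_eq {Q : Type*} {U : Finset Q} {u v : Q} (hu : u ∈ U) (hv : v ∈ U) :
    bern Q (argm U u) = bern Q (argm U v) := by
  classical
  rw [← (bern_perm (Equiv.swap u v)).measure_preimage (measurableSet_argm U v).nullMeasurableSet]
  congr 1
  ext b
  have hsw : ∀ f ∈ U, Equiv.swap u v f ∈ U := by
    intro f hf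
    by_cases h1 : f = u
    · rw [h1, Equiv.swap_apply_left]; exact hv
    · by_cases h2 : f = v
      · rw [h2, Equiv.swap_apply_right]; exact hu
      · rw [Equiv.swap_apply_of_ne_of_ne h1 h2]; exact hf
  change (∀ f ∈ U, f ≠ u → b u < b f) ↔
    (∀ f ∈ U, f ≠ v → b (Equiv.swap u v v) < b (Equiv.swap u v f))
  rw [Equiv.swap_apply_right]
  constructor
  · intro h f hf hfv
    apply h _ (hsw f hf)
    intro hcon
    apply hfv
    apply (Equiv.swap u v).injective
    rw [hcon, Equiv.swap_apply_right]
  · intro h f hf hfu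
    have := h _ (hsw f hf) (by
      intro hcon
      apply hfu
      have h2 := congrArg (Equiv.swap u v) hcon
      rw [Equiv.swap_apply_right] at h2
      simpa using h2)
    simpa using this

theorem argm_sum_le {Q : Type*} (U : Finset Q) : ∑ u ∈ U, bern Q (argm U u) ≤ 1 := by
  rw [← measure_biUnion_finset (fun u hu v hv huv => argm_disjoint hu hv huv)
    (fun u _ => measurableSet_argm U u)]
  exact prob_le_one

theorem argm_le {Q : Type*} {U : Finset Q} {u : Q} (hu : u ∈ U) :
    bern Q (argm U u) ≤ (U.card : ENNReal)⁻¹ := by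
  have h1 := argm_sum_le U
  rw [Finset.sum_congr rfl (fun v hv => argm_eq hv hu), Finset.sum_const, nsmul_eq_mul] at h1
  rw [ENNReal.le_inv_iff_mul_le]
  rwa [mul_comm] at h1

open Classical in
/-- The number of points of `F` which `s` moves out of `F`. -/
noncomputable def outN {Q : Type*} [Group Q] (F : Finset Q) (s : Q) : ℕ :=
  (F.filter (fun f => s * f ∉ F)).card

/-- The exceptional set of the generator `s`. -/
def badS {Q : Type*} [Group Q] (F : Finset Q) (s : Q) : Set (Q → ℝ) :=
  {b | ¬ ∃ q ∈ F, s * q ∈ F ∧ b ∈ argm F q ∧ (fun h => b (s⁻¹ * h)) ∈ argm F (s * q)}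

theorem measurableSet_badS {Q : Type*} [Group Q] (F : Finset Q) (s : Q) :
    MeasurableSet (badS F s) := by
  have h0 : badS F s = (⋃ q ∈ F, {b : Q → ℝ | s * q ∈ F ∧ b ∈ argm F q ∧
      (fun h => b (s⁻¹ * h)) ∈ argm F (s * q)})ᶜ := by
    ext b
    simp [badS]
  rw [h0]
  refine (Finset.measurableSet_biUnion _ fun q _ => ?_).compl
  by_cases h : s * q ∈ F
  · simp only [h, true_and]
    exact (measurableSet_argm F q).inter
      ((bern_shift s).measurable (measurableSet_argm F (s * q)))
  · simp [h]

theorem badS_le {Q : Type*} [Group Q] [Countable Q] {F : Finset Q} (hF : F.Nonempty) (s : Q) :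
    bern Q (badS F s) ≤ ((2 * outN F s : ℕ) : ENNReal) * (F.card : ENNReal)⁻¹ := by
  classical
  set U : Finset Q := F ∪ F.image (fun f => s⁻¹ * f) with hU
  set W : Finset Q := U.filter (fun u => ¬ (u ∈ F ∧ s * u ∈ F)) with hW
  have hUF : F ⊆ U := Finset.subset_union_left
  have hUne : U.Nonempty := hF.mono hUF
  have hmemU : ∀ f, s⁻¹ * f ∈ U ∨ f ∉ F := by
    intro f
    by_cases hf : f ∈ F
    · left
      exact Finset.mem_union_right _ (Finset.mem_image_of_mem _ hf)
    · right; exact hf
  have hsub : ∀ᵐ b ∂(bern Q), b ∈ badS F s → b ∈ ⋃ u ∈ W, argm U u := by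
    filter_upwards [argm_cover hUne] with b hb hbad
    obtain ⟨u, hu, hbu⟩ := hb
    rw [Set.mem_iUnion₂]
    refine ⟨u, ?_, hbu⟩
    rw [hW, Finset.mem_filter]
    refine ⟨hu, ?_⟩
    rintro ⟨h1, h2⟩
    apply hbad
    refine ⟨u, h1, h2, fun f hf hfu => hbu f (hUF hf) hfu, ?_⟩
    intro f hf hfu
    change b (s⁻¹ * (s * u)) < b (s⁻¹ * f)
    rw [inv_mul_cancel_left]
    apply hbu _ ((hmemU f).resolve_right (not_not.2 hf))
    intro hcon
    apply hfu
    rw [← hcon, mul_inv_cancel_left]
  have hWcard : W.card ≤ 2 * outN F s := by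
    have h1 : W ⊆ F.filter (fun f => s * f ∉ F) ∪
        ((F.filter (fun f => s⁻¹ * f ∉ F)).image (fun f => s⁻¹ * f)) := by
      intro u hu
      rw [hW, Finset.mem_filter, hU, Finset.mem_union, Finset.mem_image] at hu
      obtain ⟨h1, h2⟩ := hu
      rw [Finset.mem_union, Finset.mem_filter, Finset.mem_image]
      by_cases huF : u ∈ F
      · left
        exact ⟨huF, fun h3 => h2 ⟨huF, h3⟩⟩
      · right
        rcases h1 with h1 | ⟨f, hf, hfu⟩
        · exact absurd h1 huF
        · exact ⟨f, by rw [Finset.mem_filter, hfu]; exact ⟨hf, huF⟩, hfu⟩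
    have h2 : (F.filter (fun f => s⁻¹ * f ∉ F)).card = (F.filter (fun f => s * f ∉ F)).card := by
      have h3 : (F.filter (fun f => s⁻¹ * f ∈ F)).card = (F.filter (fun f => s * f ∈ F)).card := by
        apply Finset.card_bij (fun f _ => s⁻¹ * f)
        · intro f hf
          rw [Finset.mem_filter] at hf ⊢
          exact ⟨hf.2, by rw [mul_inv_cancel_left]; exact hf.1⟩
        · intro f _ g _ hfg
          exact mul_left_cancel hfg
        · intro f hf
          rw [Finset.mem_filter] at hf
          exact ⟨s * f, by rw [Finset.mem_filter, inv_mul_cancel_left]; exact ⟨hf.2, hf.1⟩,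
            inv_mul_cancel_left _ _⟩
      have h4 := Finset.card_filter_add_card_filter_not (s := F) (fun f => s⁻¹ * f ∈ F)
      have h5 := Finset.card_filter_add_card_filter_not (s := F) (fun f => s * f ∈ F)
      omega
    have h6 : outN F s = (F.filter (fun f => s * f ∉ F)).card := by
      unfold outN
      congr
    calc W.card ≤ _ := Finset.card_le_card h1
      _ ≤ _ := Finset.card_union_le _ _
      _ ≤ (F.filter (fun f => s * f ∉ F)).card + (F.filter (fun f => s⁻¹ * f ∉ F)).card :=
        Nat.add_le_add_left Finset.card_image_le _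
      _ = 2 * outN F s := by rw [h2, h6]; ring
  calc bern Q (badS F s) ≤ bern Q (⋃ u ∈ W, argm U u) := measure_mono_ae hsub
    _ ≤ ∑ u ∈ W, bern Q (argm U u) := measure_biUnion_finset_le _ _
    _ ≤ ∑ _u ∈ W, (U.card : ENNReal)⁻¹ := Finset.sum_le_sum fun u hu =>
        argm_le (Finset.mem_filter.1 hu).1
    _ = (W.card : ENNReal) * (U.card : ENNReal)⁻¹ := by rw [Finset.sum_const, nsmul_eq_mul]
    _ ≤ ((2 * outN F s : ℕ) : ENNReal) * (F.card : ENNReal)⁻¹ := by
        apply mul_le_mul' (by exact_mod_cast hWcard)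
        rw [ENNReal.inv_le_inv]
        exact_mod_cast Finset.card_le_card hUF

/-- A finitely generated group with Foelner sets for its generators has cost one: a family of cost
`1 + ε / 2` on its Bernoulli space generates. -/
theorem not_costGE_of_foelner {Q : Type*} [Group Q] [Countable Q] (S : Finset Q)
    (hS : Subgroup.closure (S : Set Q) = ⊤)
    (hF : ∀ δ : ℝ, 0 < δ → ∃ F : Finset Q, F.Nonempty ∧
      ∀ s ∈ S, (outN F s : ℝ) ≤ δ * F.card) (ε : ℝ) (hε : 0 < ε) : ¬ CostGE Q ε := by
  classical
  intro hcost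
  obtain ⟨F, hFne, hFo⟩ := hF (ε / (2 * (2 * S.card + 1))) (by positivity)
  have hFpos : (0 : ℝ) < F.card := by exact_mod_cast hFne.card_pos
  have key := cost_gen_fintype hcost (bern Q) (fun g b h => b (g⁻¹ * h)) (by
      intro z
      funext h
      simp) (by
      intro g h z
      funext k
      simp [mul_assoc]) (fun g => bern_shift g) (ι := F ⊕ S)
      (Sum.elim (fun q => (q : Q)⁻¹) (fun s => (s : Q)))
      (Sum.elim (fun q => argm F q) (fun s => badS F s)) (by
      rintro (q | s)
      · exact measurableSet_argm _ _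
      · exact measurableSet_badS _ _) (by
      refine Filter.Eventually.of_forall fun z g => ?_
      set R := Edge (fun (g : Q) (b : Q → ℝ) h => b (g⁻¹ * h))
        (Sum.elim (fun q : F => (q : Q)⁻¹) (fun s : S => (s : Q)))
        (Sum.elim (fun q : F => argm F (q : Q)) (fun s : S => badS F (s : Q))) z with hR
      have hstep : ∀ s ∈ S, ∀ x, Relation.EqvGen R x (s * x) := by
        intro s hs x
        by_cases hb : (fun h => z (x⁻¹ * h)) ∈ badS F s
        · exact Relation.EqvGen.rel _ _ ⟨Sum.inr ⟨s, hs⟩, hb, rfl⟩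
        · obtain ⟨q, hq, hsq, h1, h2⟩ := not_not.1 hb
          have e1 : R x (q⁻¹ * x) := ⟨Sum.inl ⟨q, hq⟩, h1, rfl⟩
          have e2 : R (s * x) (q⁻¹ * x) := by
            refine ⟨Sum.inl ⟨s * q, hsq⟩, ?_, ?_⟩
            · change (fun h => z ((s * x)⁻¹ * h)) ∈ argm F (s * q)
              have : (fun h => z ((s * x)⁻¹ * h)) =
                  (fun h => (fun h' => z (x⁻¹ * h')) (s⁻¹ * h)) := by
                funext h
                simp [mul_assoc]
              rw [this]
              exact h2
            · change (s * q)⁻¹ * (s * x) = q⁻¹ * x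
              group
          exact (Relation.EqvGen.rel _ _ e1).trans _ _ _ ((Relation.EqvGen.rel _ _ e2).symm _ _)
      have hall : ∀ g : Q, ∀ x, Relation.EqvGen R x (g * x) := by
        intro g
        have hg : g ∈ Subgroup.closure (S : Set Q) := by rw [hS]; exact Subgroup.mem_top g
        induction hg using Subgroup.closure_induction with
        | mem s hs => exact hstep s hs
        | one => intro x; rw [one_mul]; exact Relation.EqvGen.refl _
        | mul a b _ _ ha hb =>
          intro x
          rw [mul_assoc]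
          exact (hb x).trans _ _ _ (ha _)
        | inv a _ ha =>
          intro x
          have := ha (a⁻¹ * x)
          rw [mul_inv_cancel_left] at this
          exact this.symm _ _
      have := hall g 1
      rwa [mul_one] at this)
  rw [Fintype.sum_sum_type] at key
  simp only [Sum.elim_inl, Sum.elim_inr] at key
  have h1 : ∑ q : F, bern Q (argm F q) ≤ 1 := by
    rw [Finset.sum_coe_sort F (fun q => bern Q (argm F q))]
    exact argm_sum_le F
  have h2 : ∑ s : S, bern Q (badS F s) ≤ ENNReal.ofReal (ε / 2) := by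
    rw [Finset.sum_coe_sort S (fun s => bern Q (badS F s))]
    calc ∑ s ∈ S, bern Q (badS F s) ≤ ∑ _s ∈ S, ENNReal.ofReal (ε / (2 * S.card + 1)) := by
          refine Finset.sum_le_sum fun s hs => (badS_le hFne s).trans ?_
          have h3 := hFo s hs
          have h4 : ((2 * outN F s : ℕ) : ENNReal) * (F.card : ENNReal)⁻¹ =
              ENNReal.ofReal (2 * outN F s / F.card) := by
            rw [ENNReal.ofReal_div_of_pos hFpos, ENNReal.ofReal_natCast, div_eq_mul_inv]
            congr 1
            have : (2 * outN F s : ℝ) = ((2 * outN F s : ℕ) : ℝ) := by push_cast; ring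
            rw [this, ENNReal.ofReal_natCast]
          rw [h4]
          apply ENNReal.ofReal_le_ofReal
          rw [div_le_iff₀ hFpos]
          have h5 : ε / (2 * S.card + 1) * F.card =
              2 * (ε / (2 * (2 * S.card + 1)) * F.card) := by
            field_simp
          rw [h5]
          linarith
      _ = ENNReal.ofReal (S.card * (ε / (2 * S.card + 1))) := by
          rw [Finset.sum_const, nsmul_eq_mul, ENNReal.ofReal_mul (by positivity),
            ENNReal.ofReal_natCast]
      _ ≤ ENNReal.ofReal (ε / 2) := by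
          apply ENNReal.ofReal_le_ofReal
          rw [← mul_div_assoc, div_le_div_iff₀ (by positivity) (by norm_num)]
          nlinarith [hε]
  have h3 : ENNReal.ofReal (1 + ε) ≤ ENNReal.ofReal (1 + ε / 2) := by
    refine key.trans ((add_le_add h1 h2).trans (le_of_eq ?_))
    rw [ENNReal.ofReal_add (by norm_num) (by positivity), ENNReal.ofReal_one]
  rw [ENNReal.ofReal_le_ofReal_iff (by positivity)] at h3
  linarith

/-- The form with `Fin n`-indexed generators. -/
theorem not_costGE_of_folner {Q : Type} [Group Q] [Countable Q] {n : ℕ} (s : Fin n → Q)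
    (hs : Subgroup.closure (Set.range s) = ⊤)
    (hF : ∀ η : ℝ, 0 < η → ∃ F : Finset Q, F.Nonempty ∧
      ∀ j, (outN F (s j) : ℝ) ≤ η * F.card) (ε : ℝ) (hε : 0 < ε) : ¬ CostGE Q ε := by
  classical
  refine not_costGE_of_foelner (Finset.univ.image s) (by simpa using hs) (fun δ hδ => ?_) ε hε
  obtain ⟨F, h1, h2⟩ := hF δ hδ
  refine ⟨F, h1, fun q hq => ?_⟩
  obtain ⟨j, _, rfl⟩ := Finset.mem_image.1 hq
  exact h2 j

end Pool.Agent.Lib.MP_354e85_al.Lim
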