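import Mathlib

open MeasureTheory Set

namespace Pool.Agent.Lib.MP_354e85_al.Lim

/-- Walks of length `n` for the symmetrised relation. -/
def Walk {α : Type*} (R : α → α → Prop) : ℕ → α → α → Prop
  | 0, x, y => x = y
  | n + 1, x, y => ∃ z, Walk R n x z ∧ (R z y ∨ R y z)

theorem eqvGen_iff_walk {α : Type*} (R : α → α → Prop) (x y : α) :
    Relation.EqvGen R x y ↔ ∃ n, Walk R n x y := by
  have happ : ∀ n m (x y z : α), Walk R n x y → Walk R m y z → Walk R (n + m) x z := by
    intro n m
    induction m with
    | zero =>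
      intro x y z h1 h2
      have h2' : y = z := h2
      rw [← h2']
      exact h1
    | succ m ih =>
      intro x y z h1 h2
      obtain ⟨w, hw1, hw2⟩ := h2
      exact ⟨w, ih x y w h1 hw1, hw2⟩
  have hone : ∀ x y : α, (R x y ∨ R y x) → Walk R 1 x y := fun x y h => ⟨x, rfl, h⟩
  have hsymm : ∀ n (x y : α), Walk R n x y → Walk R n y x := by
    intro n
    induction n with
    | zero =>
      intro x y h
      have h' : x = y := h
      exact h'.symm
    | succ n ih =>
      intro x y h
      obtain ⟨w, hw1, hw2⟩ := h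
      have h1 := happ 1 n y w x (hone y w hw2.symm) (ih _ _ hw1)
      rwa [add_comm] at h1
  constructor
  · intro h
    induction h with
    | rel x y h => exact ⟨1, hone x y (Or.inl h)⟩
    | refl x => exact ⟨0, rfl⟩
    | symm x y _ ih =>
      obtain ⟨n, hn⟩ := ih
      exact ⟨n, hsymm n _ _ hn⟩
    | trans x y z _ _ ih1 ih2 =>
      obtain ⟨n, hn⟩ := ih1
      obtain ⟨m, hm⟩ := ih2
      exact ⟨n + m, happ n m _ _ _ hn hm⟩
  · rintro ⟨n, hn⟩
    induction n generalizing x y with
    | zero =>
      have h' : x = y := hn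
      rw [h']
      exact Relation.EqvGen.refl _
    | succ n ih =>
      obtain ⟨w, hw1, hw2⟩ := hn
      refine (ih _ _ hw1).trans _ _ _ ?_
      rcases hw2 with h | h
      · exact Relation.EqvGen.rel _ _ h
      · exact (Relation.EqvGen.rel _ _ h).symm _ _

theorem measurableSet_walk {Ω α : Type*} [MeasurableSpace Ω] [Countable α]
    (R : Ω → α → α → Prop) (hR : ∀ x y, MeasurableSet {ω | R ω x y}) (n : ℕ) (x y : α) :
    MeasurableSet {ω | Walk (R ω) n x y} := by
  induction n generalizing x y with
  | zero => exact MeasurableSet.const (x = y)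
  | succ n ih =>
    have : {ω | Walk (R ω) (n + 1) x y} =
        ⋃ z, ({ω | Walk (R ω) n x z} ∩ ({ω | R ω z y} ∪ {ω | R ω y z})) := by
      ext ω
      simp [Walk]
    rw [this]
    exact MeasurableSet.iUnion fun z => (ih x z).inter ((hR z y).union (hR y z))

theorem measurableSet_eqvGen {Ω α : Type*} [MeasurableSpace Ω] [Countable α]
    (R : Ω → α → α → Prop) (hR : ∀ x y, MeasurableSet {ω | R ω x y}) (x y : α) :
    MeasurableSet {ω | Relation.EqvGen (R ω) x y} := by
  have : {ω | Relation.EqvGen (R ω) x y} = ⋃ n, {ω | Walk (R ω) n x y} := by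
    ext ω
    simp [eqvGen_iff_walk]
  rw [this]
  exact MeasurableSet.iUnion fun n => measurableSet_walk R hR n x y

end Pool.Agent.Lib.MP_354e85_al.Lim
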