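import Pool.Agent.Lib.MP_354e85_al.Tarski

namespace Pool.Agent.Lib.MP_354e85_al.Lim

open Pool.Agent.Lib.MP_354e85_al

variable {G : Type*} [Group G]

/-- A finite nonempty subset of `K` such that `B ∪ c B ∪ d B` meets at most `#B` right cosets of
the hub `H`. -/
def HubSet (H K : Subgroup G) (c d : G) : Prop :=
  ∃ B : Finset G, B.Nonempty ∧ (∀ x ∈ B, x ∈ K) ∧
    ∃ V : Finset (Quotient (QuotientGroup.rightRel H)),
      (∀ b ∈ B, Quotient.mk (QuotientGroup.rightRel H) b ∈ V) ∧
      (∀ b ∈ B, Quotient.mk (QuotientGroup.rightRel H) (c * b) ∈ V) ∧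
      (∀ b ∈ B, Quotient.mk (QuotientGroup.rightRel H) (d * b) ∈ V) ∧ V.card ≤ B.card

/-- The hub part of a Hall violator has large rank. -/
theorem coset_count {m : ℕ} (a : Fin m → G)
    (hinf : Infinite (Subgroup.closure (Set.range a))) (A W : Finset G) (hAW : ∀ x ∈ A, x ∈ W)
    (haW : ∀ x ∈ A, ∀ i, a i * x ∈ W)
    [DecidableEq (Quotient (QuotientGroup.rightRel (Subgroup.closure (Set.range a))))] :
    (W.image (Quotient.mk (QuotientGroup.rightRel (Subgroup.closure (Set.range a))))).card
      + A.card ≤ W.card := by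
  have : DecidableEq G := Classical.decEq _
  let H := Subgroup.closure (Set.range a)
  let q : G → Quotient (QuotientGroup.rightRel H) := Quotient.mk (QuotientGroup.rightRel H)
  have hq : ∀ x y : G, q x = q y ↔ y * x⁻¹ ∈ H := by
    intro x y
    constructor
    · intro h
      exact QuotientGroup.rightRel_apply.1 (Quotient.exact h)
    · intro h
      exact Quotient.sound (QuotientGroup.rightRel_apply.2 h)
  have hW : W.card = ∑ C ∈ W.image q, (W.filter (fun x => q x = C)).card :=
    Finset.card_eq_sum_card_image q W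
  have hA : A.card = ∑ C ∈ W.image q, (A.filter (fun x => q x = C)).card :=
    Finset.card_eq_sum_card_fiberwise (fun x hx => Finset.mem_image_of_mem q (hAW x hx))
  have hone : (W.image q).card = ∑ _C ∈ W.image q, 1 := by simp
  change (W.image q).card + A.card ≤ W.card
  rw [hW, hA, hone, ← Finset.sum_add_distrib]
  refine Finset.sum_le_sum fun C hC => ?_
  set AC := A.filter (fun x => q x = C) with hAC
  set WC := W.filter (fun x => q x = C) with hWC
  have hsub : AC ⊆ WC := by
    intro x hx
    rw [hAC, Finset.mem_filter] at hx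
    rw [hWC, Finset.mem_filter]
    exact ⟨hAW x hx.1, hx.2⟩
  rw [add_comm, Nat.succ_le_iff]
  rcases Finset.eq_empty_or_nonempty AC with h0 | ⟨x0, hx0⟩
  · rw [h0, Finset.card_empty, Finset.card_pos]
    obtain ⟨w, hw, hwC⟩ := Finset.mem_image.1 hC
    exact ⟨w, by rw [hWC, Finset.mem_filter]; exact ⟨hw, hwC⟩⟩
  · refine Finset.card_lt_card (Finset.ssubset_iff_subset_ne.2 ⟨hsub, ?_⟩)
    intro heq
    -- AC is closed under the hub
    have hcl1 : ∀ i, ∀ x ∈ AC, a i * x ∈ AC := by
      intro i x hx
      have hx' := Finset.mem_filter.1 hx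
      rw [heq, hWC, Finset.mem_filter]
      refine ⟨haW x hx'.1 i, ?_⟩
      rw [← hx'.2, hq]
      have : x * (a i * x)⁻¹ = (a i)⁻¹ := by group
      rw [this]
      exact H.inv_mem (Subgroup.subset_closure ⟨i, rfl⟩)
    have hcl2 : ∀ i, ∀ x ∈ AC, (a i)⁻¹ * x ∈ AC := by
      intro i x hx
      have himg : AC.image (fun y => a i * y) = AC := by
        apply Finset.eq_of_subset_of_card_le
        · intro z hz
          obtain ⟨y, hy, rfl⟩ := Finset.mem_image.1 hz
          exact hcl1 i y hy
        · rw [Finset.card_image_of_injective _ (mul_right_injective (a i))]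
      rw [← himg] at hx
      obtain ⟨y, hy, rfl⟩ := Finset.mem_image.1 hx
      simpa using hy
    have hcl : ∀ h ∈ H, ∀ x ∈ AC, h * x ∈ AC := by
      intro h hh
      induction hh using Subgroup.closure_induction with
      | mem y hy =>
        obtain ⟨i, rfl⟩ := hy
        exact hcl1 i
      | one => intro x hx; simpa using hx
      | mul y z _ _ hy hz =>
        intro x hx
        rw [mul_assoc]
        exact hy _ (hz _ hx)
      | inv y hy ihy =>
        intro x hx
        have himg : AC.image (fun z => y * z) = AC := by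
          apply Finset.eq_of_subset_of_card_le
          · intro z hz
            obtain ⟨w, hw, rfl⟩ := Finset.mem_image.1 hz
            exact ihy w hw
          · rw [Finset.card_image_of_injective _ (mul_right_injective y)]
        rw [← himg] at hx
        obtain ⟨w, hw, rfl⟩ := Finset.mem_image.1 hx
        simpa using hw
    have hfin : Finite H := by
      refine Finite.of_injective (β := AC) (fun h => ⟨(h : G) * x0, hcl h h.2 x0 hx0⟩) ?_
      intro h h' hh
      have := congrArg Subtype.val hh
      exact Subtype.ext (mul_right_cancel this)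
    exact not_finite_iff_infinite.2 hinf hfin

theorem hub_core {G : Type*} [Group G] (K : Subgroup G) (m : ℕ) (a : Fin m → G)
    (ha : ∀ i, a i ∈ K) (hinf : Infinite (Subgroup.closure (Set.range a)))
    (hT : ¬ TarskiLE G (m + 1 + 3)) (c d : G) (hc : c ∈ K) (hd : d ∈ K) :
    HubSet (Subgroup.closure (Set.range a)) K c d := by
  classical
  let s₁ : Fin (m + 1) → K := Fin.cons 1 (fun i => ⟨(a i)⁻¹, K.inv_mem (ha i)⟩)
  let s₂ : Fin 3 → K := ![1, ⟨c⁻¹, K.inv_mem hc⟩, ⟨d⁻¹, K.inv_mem hd⟩]
  have hnot : ¬ ∀ F₁ F₂, HallC s₁ s₂ F₁ F₂ := fun h =>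
    hT (tarski_of_hall K s₁ s₂ 0 rfl h)
  push Not at hnot
  obtain ⟨F₁, F₂, hF⟩ := hnot
  let VV : Finset K := nb s₁ F₁ ∪ nb s₂ F₂
  have hVV : VV.card < F₁.card + F₂.card := by
    by_contra hcon
    push Not at hcon
    exact hF ⟨VV, fun x => Finset.mem_union, hcon⟩
  let inv : K → G := fun x => ((x⁻¹ : K) : G)
  have hinj : Function.Injective inv := by
    intro x y hxy
    have : (x⁻¹ : K) = y⁻¹ := Subtype.ext hxy
    exact inv_injective this
  let A : Finset G := F₁.image inv
  let B : Finset G := F₂.image inv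
  let W : Finset G := VV.image inv
  have hAc : A.card = F₁.card := Finset.card_image_of_injective _ hinj
  have hBc : B.card = F₂.card := Finset.card_image_of_injective _ hinj
  have hWc : W.card = VV.card := Finset.card_image_of_injective _ hinj
  have hmem1 : ∀ v ∈ F₁, ∀ i, inv (v * s₁ i) ∈ W := by
    intro v hv i
    apply Finset.mem_image_of_mem
    apply Finset.mem_union_left
    rw [mem_nb]
    exact ⟨v, hv, i, rfl⟩
  have hmem2 : ∀ v ∈ F₂, ∀ i, inv (v * s₂ i) ∈ W := by
    intro v hv i
    apply Finset.mem_image_of_mem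
    apply Finset.mem_union_right
    rw [mem_nb]
    exact ⟨v, hv, i, rfl⟩
  have hAW : ∀ x ∈ A, x ∈ W := by
    intro x hx
    obtain ⟨v, hv, rfl⟩ := Finset.mem_image.1 hx
    have := hmem1 v hv 0
    simpa [s₁, inv] using this
  have haW : ∀ x ∈ A, ∀ i, a i * x ∈ W := by
    intro x hx i
    obtain ⟨v, hv, rfl⟩ := Finset.mem_image.1 hx
    have := hmem1 v hv i.succ
    simpa [s₁, inv] using this
  have hBW : ∀ x ∈ B, x ∈ W := by
    intro x hx
    obtain ⟨v, hv, rfl⟩ := Finset.mem_image.1 hx
    have := hmem2 v hv 0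
    simpa [s₂, inv] using this
  have hcW : ∀ x ∈ B, c * x ∈ W := by
    intro x hx
    obtain ⟨v, hv, rfl⟩ := Finset.mem_image.1 hx
    have := hmem2 v hv 1
    simpa [s₂, inv] using this
  have hdW : ∀ x ∈ B, d * x ∈ W := by
    intro x hx
    obtain ⟨v, hv, rfl⟩ := Finset.mem_image.1 hx
    have := hmem2 v hv 2
    simpa [s₂, inv] using this
  have hcount := coset_count a hinf A W hAW haW
  have hle : (W.image (Quotient.mk (QuotientGroup.rightRel
      (Subgroup.closure (Set.range a))))).card + 1 ≤ B.card := by omega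
  refine ⟨B, ?_, ?_, W.image (Quotient.mk _), ?_, ?_, ?_, by omega⟩
  · rw [← Finset.card_pos]; omega
  · intro x hx
    obtain ⟨v, _, rfl⟩ := Finset.mem_image.1 hx
    exact (v⁻¹ : K).2
  · exact fun b hb => Finset.mem_image_of_mem _ (hBW b hb)
  · exact fun b hb => Finset.mem_image_of_mem _ (hcW b hb)
  · exact fun b hb => Finset.mem_image_of_mem _ (hdW b hb)

/-- If the Tarski number is greater than `6`, every subgroup contains a hub. -/
theorem exists_hub (hT : ¬ TarskiLE G 6) (K : Subgroup G) :
    ∃ a : Fin 2 → G, (∀ i, a i ∈ K) ∧ ∀ c ∈ K, ∀ d ∈ K,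
      HubSet (Subgroup.closure (Set.range a)) K c d := by
  classical
  by_cases h : ∃ a : Fin 2 → G, (∀ i, a i ∈ K) ∧ Infinite (Subgroup.closure (Set.range a))
  · obtain ⟨a, ha, hinf⟩ := h
    exact ⟨a, ha, fun c hc d hd => hub_core K 2 a ha hinf hT c d hc hd⟩
  · push Not at h
    refine ⟨fun _ => 1, fun _ => K.one_mem, fun c hc d hd => ?_⟩
    have hfin : Finite (Subgroup.closure (Set.range ![c, d])) := by
      exact h ![c, d] (by
        intro i
        fin_cases i
        · exact hc
        · exact hd)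
    let H := Subgroup.closure (Set.range ![c, d])
    have hfin' : (H : Set G).Finite := Set.toFinite (H : Set G)
    have hcH : c ∈ H := Subgroup.subset_closure ⟨0, rfl⟩
    have hdH : d ∈ H := Subgroup.subset_closure ⟨1, rfl⟩
    have hHK : H ≤ K := by
      rw [Subgroup.closure_le]
      rintro x ⟨i, rfl⟩
      fin_cases i
      · exact hc
      · exact hd
    refine ⟨hfin'.toFinset, ⟨1, ?_⟩, ?_, hfin'.toFinset.image (Quotient.mk _), ?_, ?_, ?_,
      Finset.card_image_le⟩
    · rw [Set.Finite.mem_toFinset]; exact H.one_mem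
    · intro x hx
      rw [Set.Finite.mem_toFinset] at hx
      exact hHK hx
    · exact fun b hb => Finset.mem_image_of_mem _ hb
    · intro b hb
      apply Finset.mem_image_of_mem
      rw [Set.Finite.mem_toFinset] at hb ⊢
      exact H.mul_mem hcH hb
    · intro b hb
      apply Finset.mem_image_of_mem
      rw [Set.Finite.mem_toFinset] at hb ⊢
      exact H.mul_mem hdH hb

/-- If the Tarski number is greater than `5`, every subgroup with an element of infinite order
contains a cyclic hub. -/
theorem exists_hub' (hT : ¬ TarskiLE G 5) (K : Subgroup G)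
    (hg : ∃ g ∈ K, ∀ n : ℕ, 0 < n → g ^ n ≠ 1) :
    ∃ a : Fin 1 → G, (∀ i, a i ∈ K) ∧ ∀ c ∈ K, ∀ d ∈ K,
      HubSet (Subgroup.closure (Set.range a)) K c d := by
  obtain ⟨g, hgK, hg⟩ := hg
  refine ⟨fun _ => g, fun _ => hgK, fun c hc d hd => hub_core K 1 _ (fun _ => hgK) ?_ hT c d hc hd⟩
  have hg1 : g ∈ Subgroup.closure (Set.range fun _ : Fin 1 => g) :=
    Subgroup.subset_closure (Set.mem_range_self (0 : Fin 1))
  have hmem : ∀ n : ℕ, g ^ n ∈ Subgroup.closure (Set.range fun _ : Fin 1 => g) := fun n =>
    Subgroup.pow_mem _ hg1 n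
  have hinj : Function.Injective (fun n : ℕ => (⟨g ^ n, hmem n⟩ :
      Subgroup.closure (Set.range fun _ : Fin 1 => g))) := by
    intro n m hnm
    have h1 : g ^ n = g ^ m := congrArg Subtype.val hnm
    by_contra hne
    rcases Nat.lt_or_gt_of_ne hne with h | h
    · apply hg (m - n) (by omega)
      have : g ^ n * g ^ (m - n) = g ^ n * 1 := by rw [← pow_add, mul_one, h1]; congr 1; omega
      exact mul_left_cancel this
    · apply hg (n - m) (by omega)
      have : g ^ m * g ^ (n - m) = g ^ m * 1 := by rw [← pow_add, mul_one, ← h1]; congr 1; omega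
      exact mul_left_cancel this
  exact Infinite.of_injective _ hinj

end Pool.Agent.Lib.MP_354e85_al.Lim
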