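import Pool.Agent.Lib.MP_354e85_al.Lim.GE

open MeasureTheory Set

namespace Pool.Agent.Lib.MP_354e85_al.Lim

open Pool.Agent.Lib.MP_354e85_al

/-- A measure preserving action of `G` on which the subgroup `N` acts trivially. -/
structure TAct (G : Type) [Group G] (N : Subgroup G) (Z : Type) [MeasurableSpace Z]
    (μ : Measure Z) (act : G → Z → Z) : Prop where
  one : ∀ z, act 1 z = z
  mul : ∀ g h z, act (g * h) z = act g (act h z)
  mp : ∀ g, MeasurePreserving (act g) μ μ
  triv : ∀ g ∈ N, ∀ z, act g z = z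

/-- Level `N` has a generating family of cost at most `x`. -/
def Lev (G : Type) [Group G] (N : Subgroup G) (x : ENNReal) : Prop :=
  ∃ (Z : Type) (_ : MeasurableSpace Z) (_ : StandardBorelSpace Z) (μ : Measure Z)
    (_ : IsProbabilityMeasure μ) (act : G → Z → Z), TAct G N Z μ act ∧
    ∃ (ι : Type) (_ : Countable ι) (s : ι → G) (B : ι → Set Z), (∀ i, MeasurableSet (B i)) ∧
      (∀ᵐ z ∂μ, ∀ g, Relation.EqvGen (Edge act s B z) 1 g) ∧ ∑' i, μ (B i) ≤ x

/-- The quotient `G ⧸ N` has a cheap free action: a family of cost at most `x` which generates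
modulo `N`. -/
def CheapAct (G : Type) [Group G] (N : Subgroup G) (x : ENNReal) : Prop :=
  ∃ (Z : Type) (_ : MeasurableSpace Z) (_ : StandardBorelSpace Z) (μ : Measure Z)
    (_ : IsProbabilityMeasure μ) (act : G → Z → Z), TAct G N Z μ act ∧
    ∃ (ι : Type) (_ : Countable ι) (s : ι → G) (B : ι → Set Z), (∀ i, MeasurableSet (B i)) ∧
      (∀ᵐ z ∂μ, ∀ g, ∃ g', g'⁻¹ * g ∈ N ∧ Relation.EqvGen (Edge act s B z) 1 g') ∧
      ∑' i, μ (B i) ≤ x

/-- The quotient `G ⧸ N` has an action with a complete section of measure `w`. -/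
def SecAct (G : Type) [Group G] (N : Subgroup G) (w : ENNReal) : Prop :=
  ∃ (Z : Type) (_ : MeasurableSpace Z) (_ : StandardBorelSpace Z) (μ : Measure Z)
    (_ : IsProbabilityMeasure μ) (act : G → Z → Z), TAct G N Z μ act ∧
    ∃ Y : Set Z, MeasurableSet Y ∧ μ Y = w ∧ ∀ᵐ z ∂μ, ∃ g, act g z ∈ Y

end Pool.Agent.Lib.MP_354e85_al.Lim
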