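import Pool.Agent.Lib.MP_354e85_al.Lim.CostGen
import Pool.Agent.Lib.MP_354e85_al.Lim.Defs

open MeasureTheory Set

namespace Pool.Agent.Lib.MP_354e85_al.Lim

open Pool.Agent.Lib.MP_354e85_al

/-- If `Q` does not have cost at least `1 + θ`, then it has an essentially free
measure preserving action on `[0, 1]` with a countable family of edges with constant labels, of
total mass at most `1 + θ`, which joins `1` to every group element at almost every point. -/
theorem cheapOne {Q : Type*} [Group Q] [Countable Q] {θ : ℝ} (hneg : ¬ CostGE Q θ) :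
    ∃ a : Q → ℝ → ℝ, (∀ x, a 1 x = x) ∧ (∀ g h x, a (g * h) x = a g (a h x)) ∧
      (∀ g, MeasurePreserving (a g) (volume.restrict (Icc (0 : ℝ) 1))
        (volume.restrict (Icc (0 : ℝ) 1))) ∧
      (∀ g, g ≠ 1 → volume.restrict (Icc (0 : ℝ) 1) {x | a g x = x} = 0) ∧
      ∃ (q : ℕ → Q) (D : ℕ → Set ℝ), (∀ i, MeasurableSet (D i)) ∧
        ∑' i, volume.restrict (Icc (0 : ℝ) 1) (D i) ≤ ENNReal.ofReal (1 + θ) ∧
        ∀ᵐ x ∂(volume.restrict (Icc (0 : ℝ) 1)), ∀ g : Q,
          Relation.EqvGen (Edge a q D x) 1 g := by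
  classical
  unfold CostGE at hneg
  push Not at hneg
  obtain ⟨a, h1, hmul, hmp, hfree, A, φ, hA, hφ, -, horb, hconn, hsum⟩ := hneg
  set lam := volume.restrict (Icc (0 : ℝ) 1) with hlam
  refine ⟨a, h1, hmul, hmp, hfree, ?_⟩
  have hinv : ∀ g x, a g⁻¹ (a g x) = x := by
    intro g x
    rw [← hmul, inv_mul_cancel, h1]
  let E : ℕ × Q → Set ℝ := fun e => A e.1 ∩ {x | φ e.1 x = a e.2 x}
  have hE : ∀ e, MeasurableSet (E e) := fun e =>
    (hA _).inter (measurableSet_eq_fun (hφ _) (hmp _).measurable)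
  have hdisj : ∀ i, Pairwise (fun g g' => AEDisjoint lam (E (i, g)) (E (i, g'))) := by
    intro i g g' hgg
    have hne : g⁻¹ * g' ≠ 1 := fun hc => hgg (inv_mul_eq_one.1 hc)
    refine measure_mono_null ?_ (hfree _ hne)
    rintro x ⟨⟨-, hx⟩, ⟨-, hx'⟩⟩
    have hx2 : φ i x = a g x := hx
    have hx3 : φ i x = a g' x := hx'
    change a (g⁻¹ * g') x = x
    rw [hmul, ← hx3, hx2, hinv]
  have hUn : ∀ i, (⋃ g, E (i, g)) = A i := by
    intro i
    ext x
    simp only [mem_iUnion]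
    constructor
    · rintro ⟨g, hg⟩
      exact hg.1
    · intro hx
      obtain ⟨g, hg⟩ := horb i x hx
      exact ⟨g, hx, hg⟩
  have hmass : ∑' e : ℕ × Q, lam (E e) = ∑' i, lam (A i) := by
    rw [ENNReal.tsum_prod']
    refine tsum_congr fun i => ?_
    rw [← measure_iUnion₀ (hdisj i) (fun g => (hE (i, g)).nullMeasurableSet), hUn]
  obtain ⟨hden⟩ := nonempty_denumerable (ℕ × Q)
  let eqv : ℕ × Q ≃ ℕ := Denumerable.eqv (ℕ × Q)
  refine ⟨fun i => (eqv.symm i).2, fun i => E (eqv.symm i), fun i => hE _, ?_, ?_⟩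
  · rw [Equiv.tsum_eq eqv.symm (fun e => lam (E e)), hmass]
    exact hsum.le
  · have hf : ∀ᵐ x ∂lam, ∀ g : Q, g ≠ 1 → a g x ≠ x := by
      rw [ae_all_iff]
      intro g
      by_cases hg : g = 1
      · exact Filter.Eventually.of_forall fun x hne => (hne hg).elim
      · have := hfree g hg
        have h2 : ∀ᵐ x ∂lam, ¬ (a g x = x) := by
          rw [ae_iff]
          simpa using this
        filter_upwards [h2] with x hx _
        exact hx
    filter_upwards [hf, hconn] with x hx hc g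
    have hpath : ∀ z, Relation.ReflTransGen
        (fun y z => ∃ i, (y ∈ A i ∧ φ i y = z) ∨ (z ∈ A i ∧ φ i z = y)) x z →
        ∃ k : Q, a k x = z ∧ Relation.EqvGen
          (Edge a (fun i => (eqv.symm i).2) (fun i => E (eqv.symm i)) x) 1 k := by
      intro z hz
      induction hz with
      | refl => exact ⟨1, h1 x, Relation.EqvGen.refl _⟩
      | @tail b c _ hbc ih =>
        obtain ⟨k, hk, hgen⟩ := ih
        obtain ⟨i, ⟨hbA, hbc⟩ | ⟨hcA, hcb⟩⟩ := hbc
        · obtain ⟨m, hm⟩ := horb i b hbA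
          refine ⟨m * k, ?_, hgen.trans _ _ _ (Relation.EqvGen.rel _ _ ⟨eqv (i, m), ?_, ?_⟩)⟩
          · rw [hmul, hk, ← hm, hbc]
          · simp only [Equiv.symm_apply_apply]
            change a k x ∈ A i ∩ {x | φ i x = a m x}
            rw [hk]
            exact ⟨hbA, hm⟩
          · simp only [Equiv.symm_apply_apply]
        · obtain ⟨m, hm⟩ := horb i c hcA
          have hc2 : a (m⁻¹ * k) x = c := by
            rw [hmul, hk, ← hcb, hm, hinv]
          refine ⟨m⁻¹ * k, hc2, hgen.trans _ _ _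
            (Relation.EqvGen.symm _ _ (Relation.EqvGen.rel _ _ ⟨eqv (i, m), ?_, ?_⟩))⟩
          · simp only [Equiv.symm_apply_apply]
            change a (m⁻¹ * k) x ∈ A i ∩ {x | φ i x = a m x}
            rw [hc2]
            exact ⟨hcA, hm⟩
          · simp only [Equiv.symm_apply_apply, mul_inv_cancel_left]
    obtain ⟨k, hk, hgen⟩ := hpath _ (hc g)
    have hkg : k = g := by
      by_contra hne
      have hne' : k⁻¹ * g ≠ 1 := fun hc2 => hne (inv_mul_eq_one.1 hc2)
      apply hx _ hne'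
      rw [hmul, ← hk, hinv]
    rw [← hkg]
    exact hgen

/-- The same for a quotient `G ⧸ N`, seen from `G`: the action factors through `G ⧸ N`, the labels
are lifted to `G`, and the family generates `G` modulo `N`. -/
theorem cheapOne_lift {G : Type*} [Group G] [Countable G] (N : Subgroup G) [N.Normal]
    {θ : ℝ} (h : ¬ CostGE (G ⧸ N) θ) :
    ∃ act : G → ℝ → ℝ, (∀ x, act 1 x = x) ∧ (∀ g h x, act (g * h) x = act g (act h x)) ∧
      (∀ g, MeasurePreserving (act g) (volume.restrict (Icc (0 : ℝ) 1))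
        (volume.restrict (Icc (0 : ℝ) 1))) ∧
      (∀ n ∈ N, ∀ x, act n x = x) ∧
      (∀ g, g ∉ N → volume.restrict (Icc (0 : ℝ) 1) {x | act g x = x} = 0) ∧
      ∃ (s : ℕ → G) (D : ℕ → Set ℝ), (∀ i, MeasurableSet (D i)) ∧
        ∑' i, volume.restrict (Icc (0 : ℝ) 1) (D i) ≤ ENNReal.ofReal (1 + θ) ∧
        ∀ᵐ x ∂(volume.restrict (Icc (0 : ℝ) 1)), ∀ g : G,
          ∃ g' : G, g⁻¹ * g' ∈ N ∧ Relation.EqvGen (Edge act s D x) 1 g' := by
  have hcount : Countable (G ⧸ N) :=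
    Function.Surjective.countable (f := fun g : G => (g : G ⧸ N)) Quot.mk_surjective
  obtain ⟨a, h1, hmul, hmp, hfree, q, D, hD, hsum, hgen⟩ := cheapOne h
  let s : ℕ → G := fun i => (q i).out
  have hs : ∀ i, ((s i : G) : G ⧸ N) = q i := fun i => QuotientGroup.out_eq' (q i)
  refine ⟨fun g => a (g : G ⧸ N), fun x => h1 x, fun g h x => hmul (g : G ⧸ N) (h : G ⧸ N) x,
    fun g => hmp _, ?_, ?_,
    s, D, hD, hsum, ?_⟩
  · intro n hn x
    have : ((n : G) : G ⧸ N) = 1 := (QuotientGroup.eq_one_iff n).2 hn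
    change a (n : G ⧸ N) x = x
    rw [this, h1]
  · intro g hg
    exact hfree _ fun hc => hg ((QuotientGroup.eq_one_iff g).1 hc)
  · filter_upwards [hgen] with x hx g
    have key : ∀ u v : G ⧸ N, Relation.EqvGen (Edge a q D x) u v →
        (∀ u' : G, (u' : G ⧸ N) = u → ∃ v' : G, (v' : G ⧸ N) = v ∧
          Relation.EqvGen (Edge (fun g : G => a (g : G ⧸ N)) s D x) u' v') ∧
        (∀ v' : G, (v' : G ⧸ N) = v → ∃ u' : G, (u' : G ⧸ N) = u ∧
          Relation.EqvGen (Edge (fun g : G => a (g : G ⧸ N)) s D x) v' u') := by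
      intro u v huv
      induction huv with
      | rel u v huv =>
        obtain ⟨i, hi, rfl⟩ := huv
        refine ⟨fun u' hu' => ⟨s i * u', ?_, Relation.EqvGen.rel _ _ ⟨i, ?_, rfl⟩⟩,
          fun v' hv' => ⟨(s i)⁻¹ * v', ?_, Relation.EqvGen.symm _ _
            (Relation.EqvGen.rel _ _ ⟨i, ?_, mul_inv_cancel_left _ _⟩)⟩⟩
        · rw [QuotientGroup.mk_mul, hs, hu']
        · change a (u' : G ⧸ N) x ∈ D i
          rwa [hu']
        · rw [QuotientGroup.mk_mul, QuotientGroup.mk_inv, hs, hv', inv_mul_cancel_left]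
        · change a (((s i)⁻¹ * v' : G) : G ⧸ N) x ∈ D i
          rwa [QuotientGroup.mk_mul, QuotientGroup.mk_inv, hs, hv', inv_mul_cancel_left]
      | refl u =>
        exact ⟨fun u' hu' => ⟨u', hu', Relation.EqvGen.refl _⟩,
          fun u' hu' => ⟨u', hu', Relation.EqvGen.refl _⟩⟩
      | symm u v _ ih => exact ⟨ih.2, ih.1⟩
      | trans u v w _ _ ih1 ih2 =>
        refine ⟨fun u' hu' => ?_, fun w' hw' => ?_⟩
        · obtain ⟨v', hv', h1'⟩ := ih1.1 u' hu'
          obtain ⟨w', hw', h2'⟩ := ih2.1 v' hv'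
          exact ⟨w', hw', h1'.trans _ _ _ h2'⟩
        · obtain ⟨v', hv', h1'⟩ := ih2.2 w' hw'
          obtain ⟨u', hu', h2'⟩ := ih1.2 v' hv'
          exact ⟨u', hu', h1'.trans _ _ _ h2'⟩
    obtain ⟨g', hg', hgg⟩ := (key 1 (g : G ⧸ N) (hx _)).1 1 rfl
    exact ⟨g', QuotientGroup.eq.1 hg'.symm, hgg⟩

theorem cheapAct_one (G : Type) [Group G] [Countable G] (N : Subgroup G) [N.Normal] (θ : ℝ)
    (h : ¬ CostGE (G ⧸ N) θ) : CheapAct G N (ENNReal.ofReal (1 + θ)) := by
  obtain ⟨act, h1, hmul, hmp, htriv, -, s, D, hD, hsum, hgen⟩ := cheapOne_lift N h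
  refine ⟨ℝ, inferInstance, inferInstance, volume.restrict (Icc (0 : ℝ) 1), prob01, act,
    ⟨h1, hmul, hmp, htriv⟩, ℕ, inferInstance, s, D, hD, ?_, hsum⟩
  filter_upwards [hgen] with x hx g
  obtain ⟨g', hg', hgg⟩ := hx g
  refine ⟨g', ?_, hgg⟩
  have := N.inv_mem hg'
  rwa [mul_inv_rev, inv_inv] at this

end Pool.Agent.Lib.MP_354e85_al.Lim
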