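import Pool.Agent.Lib.MP_354e85_al.Rank

open MeasureTheory Set

namespace Pool.Agent.Lib.MP_354e85_al.Lim

open Pool.Agent.Lib.MP_354e85_al

/-- Transport of the cost hypothesis to a free action on an atomless standard probability space,
countable families, almost everywhere connectivity. -/
theorem cost_transport_ae {G : Type*} [Group G] [Countable G] {ε : ℝ} (hcost : CostGE G ε)
    {X : Type*} [MeasurableSpace X] [StandardBorelSpace X] (μ : Measure X)
    [IsProbabilityMeasure μ] [NullSingletonClass μ] (act : G → X → X) (h1 : ∀ x, act 1 x = x)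
    (hmul : ∀ g h x, act (g * h) x = act g (act h x))
    (hmp : ∀ g, MeasurePreserving (act g) μ μ)
    (hfree : ∀ g, g ≠ 1 → μ {x | act g x = x} = 0) (s : ℕ → G) (B : ℕ → Set X)
    (hB : ∀ i, MeasurableSet (B i))
    (hconn : ∀ᵐ x ∂μ, ∀ g, Relation.ReflTransGen
      (fun y z => ∃ i, (y ∈ B i ∧ act (s i) y = z) ∨ (z ∈ B i ∧ act (s i) z = y)) x (act g x)) :
    ENNReal.ofReal (1 + ε) ≤ ∑' i, μ (B i) := by
  classical
  obtain ⟨Φ, hΦ, hmap, Z, hZm, hZ0, hZinj⟩ := exists_iso μ
  set lam := volume.restrict (Icc (0 : ℝ) 1) with hlam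
  let X0 : Set X := {x | ∀ g, act g x ∈ Z}
  have hX0eq : X0 = ⋂ g, (act g) ⁻¹' Z := by
    ext x; simp [X0]
  have hX0m : MeasurableSet X0 := by
    rw [hX0eq]
    exact MeasurableSet.iInter fun g => (hmp g).measurable hZm
  have hX0c : μ X0ᶜ = 0 := by
    rw [hX0eq, compl_iInter, measure_iUnion_null_iff]
    intro g
    rw [← preimage_compl, (hmp g).measure_preimage hZm.compl.nullMeasurableSet]
    exact hZ0
  have hinv : ∀ x ∈ X0, ∀ g, act g x ∈ X0 := by
    intro x hx g h
    rw [← hmul]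
    exact hx (h * g)
  have hX0Z : ∀ x ∈ X0, x ∈ Z := by
    intro x hx
    have := hx 1
    rwa [h1] at this
  have : StandardBorelSpace X0 := hX0m.standardBorel
  let f : X0 → ℝ := fun x => Φ x
  have hf : MeasurableEmbedding f :=
    (hΦ.comp measurable_subtype_coe).measurableEmbedding (by
      intro x y hxy
      exact Subtype.ext (hZinj (hX0Z _ x.2) (hX0Z _ y.2) hxy))
  let act0 : G → X0 → X0 := fun g x => ⟨act g x, hinv x x.2 g⟩
  have hact0 : ∀ g, Measurable (act0 g) := fun g =>
    ((hmp g).measurable.comp measurable_subtype_coe).subtype_mk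
  let a : G → ℝ → ℝ := fun g => Function.extend f (fun x => f (act0 g x)) id
  have haf : ∀ g x, a g (f x) = f (act0 g x) := fun g x => hf.injective.extend_apply _ _ _
  have han : ∀ g x, x ∉ range f → a g x = x := fun g x hx =>
    Function.extend_apply' _ _ _ (fun ⟨y, hy⟩ => hx ⟨y, hy⟩)
  have ham : ∀ g, Measurable (a g) := fun g =>
    hf.measurable_extend (hf.measurable.comp (hact0 g)) measurable_id
  have hae : ∀ᵐ x ∂μ, x ∈ X0 := by
    rw [ae_iff]; exact hX0c
  have ha1 : ∀ x, a 1 x = x := by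
    intro x
    by_cases hx : x ∈ range f
    · obtain ⟨y, rfl⟩ := hx
      rw [haf]
      congr 1
      exact Subtype.ext (h1 _)
    · exact han _ _ hx
  have hamul : ∀ g h x, a (g * h) x = a g (a h x) := by
    intro g h x
    by_cases hx : x ∈ range f
    · obtain ⟨y, rfl⟩ := hx
      rw [haf, haf, haf]
      congr 1
      exact Subtype.ext (hmul _ _ _)
    · rw [han _ _ hx, han _ _ hx, han _ _ hx]
  have hamp : ∀ g, MeasurePreserving (a g) lam lam := by
    intro g
    refine ⟨ham g, ?_⟩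
    rw [← hmap, Measure.map_map (ham g) hΦ]
    have : (a g ∘ Φ) =ᵐ[μ] (Φ ∘ act g) := by
      filter_upwards [hae] with x hx
      exact haf g ⟨x, hx⟩
    rw [Measure.map_congr this, ← Measure.map_map hΦ (hmp g).measurable, (hmp g).map_eq]
  have hafree : ∀ g, g ≠ 1 → lam {x | a g x = x} = 0 := by
    intro g hg
    have hms : MeasurableSet {x | a g x = x} := measurableSet_eq_fun (ham g) measurable_id
    rw [← hmap, Measure.map_apply hΦ hms]
    have hsub : Φ ⁻¹' {x | a g x = x} ⊆ {x | act g x = x} ∪ X0ᶜ := by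
      intro x hx
      by_cases hx0 : x ∈ X0
      · left
        have hx' : a g (f ⟨x, hx0⟩) = f ⟨x, hx0⟩ := hx
        rw [haf] at hx'
        exact congrArg Subtype.val (hf.injective hx')
      · right; exact hx0
    apply measure_mono_null hsub
    rw [measure_union_null_iff]
    exact ⟨hfree g hg, hX0c⟩
  let A : ℕ → Set ℝ := fun i => f '' (Subtype.val ⁻¹' B i)
  let φ : ℕ → ℝ → ℝ := fun i => a (s i)
  have hAm : ∀ i, MeasurableSet (A i) := fun i =>
    hf.measurableSet_image.2 (measurable_subtype_coe (hB _))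
  have hAmeas : ∀ i : ℕ, lam (A i) = μ (B i) := by
    intro i
    rw [← hmap, Measure.map_apply hΦ (hAm i)]
    apply measure_congr
    filter_upwards [hae] with x hx
    apply propext
    constructor
    · rintro ⟨y, hy, hyx⟩
      have : y = ⟨x, hx⟩ := hf.injective hyx
      rw [this] at hy
      exact hy
    · intro hxB
      exact ⟨⟨x, hx⟩, hxB, rfl⟩
  have key := hcost a ha1 hamul hamp hafree A φ hAm (fun i => ham _) ?_ ?_ ?_
  · refine key.trans (le_of_eq ?_)
    exact tsum_congr hAmeas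
  · intro i x _ z _ hxz
    have h2 := congrArg (a (s i)⁻¹) hxz
    change a (s i)⁻¹ (a (s i) x) = a (s i)⁻¹ (a (s i) z) at h2
    rwa [← hamul, ← hamul, inv_mul_cancel, ha1, ha1] at h2
  · intro i x _
    exact ⟨s i, rfl⟩
  · -- a measurable conull set of good points
    obtain ⟨W, hWsub, hWm, hW0⟩ : ∃ W : Set X, W ⊆ {x | ∀ g, Relation.ReflTransGen
      (fun y z => ∃ i, (y ∈ B i ∧ act (s i) y = z) ∨ (z ∈ B i ∧ act (s i) z = y)) x (act g x)} ∧
      MeasurableSet W ∧ μ Wᶜ = 0 := by
      rw [ae_iff] at hconn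
      obtain ⟨T, hT1, hT2, hT3⟩ := exists_measurable_superset_of_null hconn
      refine ⟨Tᶜ, ?_, hT2.compl, by rwa [compl_compl]⟩
      intro x hx
      by_contra hcon
      exact hx (hT1 hcon)
    have hrange : ∀ᵐ x ∂lam, x ∈ f '' (Subtype.val ⁻¹' W) := by
      rw [ae_iff]
      have hm : MeasurableSet (f '' (Subtype.val ⁻¹' W)) :=
        hf.measurableSet_image.2 (measurable_subtype_coe hWm)
      have hset : {x | x ∉ f '' (Subtype.val ⁻¹' W)} = (f '' (Subtype.val ⁻¹' W))ᶜ := rfl
      rw [hset, ← hmap, Measure.map_apply hΦ hm.compl]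
      apply measure_mono_null (t := X0ᶜ ∪ Wᶜ) _ (by rw [measure_union_null_iff]; exact ⟨hX0c, hW0⟩)
      intro x hx
      by_contra hcon
      rw [mem_union, not_or, notMem_compl_iff, notMem_compl_iff] at hcon
      exact hx ⟨⟨x, hcon.1⟩, hcon.2, rfl⟩
    change ∀ᵐ x ∂lam, _
    filter_upwards [hrange] with x' hx'
    obtain ⟨⟨x, hx⟩, hxW, rfl⟩ := hx'
    intro g
    have hpath : ∀ z, Relation.ReflTransGen
        (fun y z => ∃ i, (y ∈ B i ∧ act (s i) y = z) ∨ (z ∈ B i ∧ act (s i) z = y)) x z →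
        ∃ hz : z ∈ X0, Relation.ReflTransGen
          (fun y z => ∃ i, (y ∈ A i ∧ φ i y = z) ∨ (z ∈ A i ∧ φ i z = y)) (Φ x) (f ⟨z, hz⟩) := by
      intro z hz
      induction hz with
      | refl => exact ⟨hx, Relation.ReflTransGen.refl⟩
      | @tail b c _ hbc ih =>
        obtain ⟨hb, ih⟩ := ih
        obtain ⟨i, hi⟩ := hbc
        rcases hi with ⟨hbB, hbc⟩ | ⟨hcB, hcb⟩
        · subst hbc
          exact ⟨hinv _ hb _, ih.tail ⟨i, Or.inl ⟨⟨⟨b, hb⟩, hbB, rfl⟩, haf _ _⟩⟩⟩
        · subst hcb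
          have hc : c ∈ X0 := by
            have := hinv _ hb (s i)⁻¹
            rwa [← hmul, inv_mul_cancel, h1] at this
          exact ⟨hc, ih.tail ⟨i, Or.inr ⟨⟨⟨c, hc⟩, hcB, rfl⟩, haf _ _⟩⟩⟩
    obtain ⟨hz, hp⟩ := hpath _ (hWsub hxW g)
    have : a g (Φ x) = f ⟨act g x, hz⟩ := haf g ⟨x, hx⟩
    rw [this]
    exact hp

theorem rtg_symm {α : Type*} {R : α → α → Prop} (hR : ∀ a b, R a b → R b a) {x y : α}
    (h : Relation.ReflTransGen R x y) : Relation.ReflTransGen R y x := by
  induction h with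
  | refl => exact Relation.ReflTransGen.refl
  | tail _ hbc ih => exact Relation.ReflTransGen.head (hR _ _ hbc) ih

/-- The edge relation on the group at the base point `z`: `x` is joined to `s i * x` if
`x • z ∈ B i`. -/
def Edge {G Z : Type*} [Group G] (act : G → Z → Z) {ι : Type*} (s : ι → G) (B : ι → Set Z) (z : Z)
    (x y : G) : Prop :=
  ∃ i, act x z ∈ B i ∧ s i * x = y

/-- A generating family (groupoid graphing) on an arbitrary p.m.p. space has cost at least
`1 + ε`. -/
theorem cost_gen {G : Type*} [Group G] [Countable G] {ε : ℝ} (hcost : CostGE G ε)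
    {Z : Type*} [MeasurableSpace Z] [StandardBorelSpace Z] (μ : Measure Z)
    [IsProbabilityMeasure μ] (act : G → Z → Z) (h1 : ∀ z, act 1 z = z)
    (hmul : ∀ g h z, act (g * h) z = act g (act h z))
    (hmp : ∀ g, MeasurePreserving (act g) μ μ) (s : ℕ → G) (B : ℕ → Set Z)
    (hB : ∀ i, MeasurableSet (B i))
    (hgen : ∀ᵐ z ∂μ, ∀ g : G, Relation.EqvGen (Edge act s B z) 1 g) :
    ENNReal.ofReal (1 + ε) ≤ ∑' i, μ (B i) := by
  have := prob01
  let ν : Measure (Z × (G → ℝ)) := μ.prod (bern G)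
  have hna : NullSingletonClass ν := by
    constructor
    rintro ⟨c, y⟩
    have : ({(c, y)} : Set (Z × (G → ℝ))) = {c} ×ˢ {y} := by simp
    rw [this, Measure.prod_prod, measure_singleton y, mul_zero]
  let act' : G → Z × (G → ℝ) → Z × (G → ℝ) := fun g p => (act g p.1, fun h => p.2 (g⁻¹ * h))
  have key := cost_transport_ae hcost ν act' ?_ ?_ ?_ ?_ s (fun i => B i ×ˢ univ)
    (fun i => (hB i).prod MeasurableSet.univ) ?_
  · refine key.trans (le_of_eq (tsum_congr fun i => ?_))
    change μ.prod (bern G) _ = _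
    rw [Measure.prod_prod, measure_univ, mul_one]
  · rintro ⟨z, y⟩
    change (act 1 z, fun h => y (1⁻¹ * h)) = (z, y)
    simp [h1]
  · rintro g h ⟨z, y⟩
    change (act (g * h) z, fun k => y ((g * h)⁻¹ * k)) =
      (act g (act h z), fun k => y (h⁻¹ * (g⁻¹ * k)))
    simp [hmul, mul_assoc]
  · intro g
    exact (hmp g).prod (bern_shift g)
  · intro g hg
    have hsub : {p : Z × (G → ℝ) | act' g p = p} ⊆ univ ×ˢ {y : G → ℝ | y g⁻¹ = y 1} := by
      rintro ⟨z, y⟩ hp
      refine ⟨mem_univ _, ?_⟩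
      have h2 : (fun h => y (g⁻¹ * h)) = y := congrArg Prod.snd hp
      have h3 := congrFun h2 1
      simpa using h3
    apply measure_mono_null hsub
    change μ.prod (bern G) _ = 0
    rw [Measure.prod_prod, bern_diag _ _ (by simpa using hg), mul_zero]
  · have hae : ∀ᵐ p ∂ν, ∀ g : G, Relation.EqvGen (Edge act s B p.1) 1 g :=
      Measure.quasiMeasurePreserving_fst.ae hgen
    filter_upwards [hae] with p hp g
    have hstep : ∀ x y : G, Relation.EqvGen (Edge act s B p.1) x y →
        Relation.EqvGen (fun q r => ∃ i, q ∈ B i ×ˢ (univ : Set (G → ℝ)) ∧ act' (s i) q = r)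
          (act' x p) (act' y p) := by
      intro x y hxy
      induction hxy with
      | rel x y h =>
        obtain ⟨i, hi, rfl⟩ := h
        apply Relation.EqvGen.rel
        refine ⟨i, ⟨hi, mem_univ _⟩, ?_⟩
        change (act (s i) (act x p.1), fun k => p.2 (x⁻¹ * ((s i)⁻¹ * k))) =
          (act (s i * x) p.1, fun k => p.2 ((s i * x)⁻¹ * k))
        simp [hmul, mul_assoc]
      | refl x => exact Relation.EqvGen.refl _
      | symm x y _ ih => exact ih.symm _ _
      | trans x y z _ _ ih1 ih2 => exact ih1.trans _ _ _ ih2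
    have h2 := hstep 1 g (hp g)
    have h3 : act' 1 p = p := by
      change (act 1 p.1, fun h => p.2 (1⁻¹ * h)) = p
      simp [h1]
    rw [h3] at h2
    have h4 : ∀ q r : Z × (G → ℝ), Relation.EqvGen
        (fun q r => ∃ i, q ∈ B i ×ˢ (univ : Set (G → ℝ)) ∧ act' (s i) q = r) q r →
        Relation.ReflTransGen (fun y z => ∃ i, (y ∈ B i ×ˢ (univ : Set (G → ℝ)) ∧
          act' (s i) y = z) ∨ (z ∈ B i ×ˢ (univ : Set (G → ℝ)) ∧ act' (s i) z = y)) q r := by
      intro q r h
      induction h with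
      | rel x y h =>
        obtain ⟨i, hi, hr⟩ := h
        exact Relation.ReflTransGen.single ⟨i, Or.inl ⟨hi, hr⟩⟩
      | refl x => exact Relation.ReflTransGen.refl
      | symm x y _ ih =>
        exact rtg_symm (by
          rintro a b ⟨i, h | h⟩
          · exact ⟨i, Or.inr h⟩
          · exact ⟨i, Or.inl h⟩) ih
      | trans x y z _ _ ih1 ih2 => exact ih1.trans ih2
    exact h4 _ _ h2

end Pool.Agent.Lib.MP_354e85_al.Lim
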