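import Pool.Agent.Lib.MP_354e85_al.Rank

open MeasureTheory Set

namespace Pool.Agent.Lib.MP_354e85_al.Lim

open Pool.Agent.Lib.MP_354e85_al

/-- The base point coordinate is below `w` with probability `w`. -/
theorem bern_lt {Q : Type*} (q : Q) {w : ℝ} (hw1 : w ≤ 1) :
    bern Q {b | b q < w} = ENNReal.ofReal w := by
  have := prob01
  have h1 : bern Q {b | b q < w} = (volume.restrict (Icc (0 : ℝ) 1)) (Iio w) := by
    have h2 : (bern Q).map (fun b => b q) = volume.restrict (Icc (0 : ℝ) 1) := by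
      unfold bern
      exact Measure.infinitePi_map_eval _ q
    rw [← h2, Measure.map_apply (by fun_prop) measurableSet_Iio]
    rfl
  rw [h1, Measure.restrict_apply measurableSet_Iio]
  have h3 : Iio w ∩ Icc (0 : ℝ) 1 = Ico 0 w := by
    ext x
    simp only [mem_inter_iff, mem_Iio, mem_Icc, mem_Ico]
    constructor
    · rintro ⟨h1, h2, h3⟩; exact ⟨h2, h1⟩
    · rintro ⟨h1, h2⟩; exact ⟨h2, h1, (h2.le.trans hw1)⟩
  rw [h3, Real.volume_Ico, sub_zero]

theorem ge_measure {w : ℝ} (hw : 0 ≤ w) :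
    (volume.restrict (Icc (0 : ℝ) 1)) (Ici w) = ENNReal.ofReal (1 - w) := by
  rw [Measure.restrict_apply measurableSet_Ici]
  have h3 : Ici w ∩ Icc (0 : ℝ) 1 = Icc w 1 := by
    ext x
    simp only [mem_inter_iff, mem_Ici, mem_Icc]
    constructor
    · rintro ⟨h1, h2, h3⟩; exact ⟨h1, h3⟩
    · rintro ⟨h1, h2⟩; exact ⟨h1, hw.trans h1, h2⟩
  rw [h3, Real.volume_Icc]

/-- Some coordinate is below `w`, almost surely. -/
theorem bern_exists_lt {Q : Type*} [Countable Q] [Infinite Q] {w : ℝ} (hw : 0 < w) :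
    ∀ᵐ b ∂(bern Q), ∃ q : Q, b q < w := by
  classical
  have := prob01
  rw [ae_iff]
  have hfin : ∀ n : ℕ, bern Q {b | ¬ ∃ q : Q, b q < w} ≤ ENNReal.ofReal (1 - w) ^ n := by
    intro n
    obtain ⟨F, hF⟩ := Infinite.exists_subset_card_eq Q n
    have hsub : {b : Q → ℝ | ¬ ∃ q : Q, b q < w} ⊆ Set.pi F (fun _ => Ici w) := by
      intro b hb q _
      by_contra hcon
      exact hb ⟨q, lt_of_not_ge hcon⟩
    refine (measure_mono hsub).trans ?_
    unfold bern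
    rw [Measure.infinitePi_pi _ (fun _ _ => measurableSet_Ici)]
    rw [Finset.prod_congr rfl (fun q _ => ge_measure hw.le), Finset.prod_const, hF]
  have h0 : Filter.Tendsto (fun n : ℕ => ENNReal.ofReal (1 - w) ^ n) Filter.atTop (nhds 0) := by
    apply ENNReal.tendsto_pow_atTop_nhds_zero_of_lt_one
    rw [ENNReal.ofReal_lt_one]
    linarith
  exact le_antisymm (ge_of_tendsto' h0 hfin) bot_le

/-- The Bernoulli section: `Y = {b | b 1 < w}` has measure `w` and meets almost every orbit of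
the infinite group `G ⧸ N`, on which `G` acts by left translation. -/
theorem bern_section {G : Type*} [Group G] [Countable G] (N : Subgroup G) [N.Normal]
    [Infinite (G ⧸ N)] {w : ℝ} (hw : 0 < w) (hw1 : w ≤ 1) :
    MeasurableSet {b : G ⧸ N → ℝ | b 1 < w} ∧
    bern (G ⧸ N) {b | b 1 < w} = ENNReal.ofReal w ∧
    ∀ᵐ b ∂(bern (G ⧸ N)), ∃ g : G,
      (fun q : G ⧸ N => b ((g : G ⧸ N)⁻¹ * q)) ∈ {b : G ⧸ N → ℝ | b 1 < w} := by
  have hc : Countable (G ⧸ N) :=
    Function.Surjective.countable (QuotientGroup.mk_surjective (s := N))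
  refine ⟨measurableSet_lt (measurable_pi_apply _) measurable_const, bern_lt 1 hw1, ?_⟩
  filter_upwards [bern_exists_lt (Q := G ⧸ N) hw] with b hb
  obtain ⟨q, hq⟩ := hb
  obtain ⟨g, hg⟩ := QuotientGroup.mk_surjective q⁻¹
  refine ⟨g, ?_⟩
  rw [hg, inv_inv, mul_one]
  exact hq

/-- `G` acts on the Bernoulli space of `G ⧸ N` preserving the measure. -/
theorem bern_quot_shift {G : Type*} [Group G] (N : Subgroup G) [N.Normal] (g : G) :
    MeasurePreserving (fun (b : G ⧸ N → ℝ) (q : G ⧸ N) => b ((g : G ⧸ N)⁻¹ * q))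
      (bern (G ⧸ N)) (bern (G ⧸ N)) :=
  bern_shift (g : G ⧸ N)

/-- The section on a product `Z × Bernoulli`. -/
theorem prod_section {G : Type*} [Group G] [Countable G] (N : Subgroup G) [N.Normal]
    [Infinite (G ⧸ N)] {Z : Type*} [MeasurableSpace Z] (μ : Measure Z) [IsProbabilityMeasure μ]
    (act : G → Z → Z) {w : ℝ} (hw : 0 < w) (hw1 : w ≤ 1) :
    MeasurableSet (univ ×ˢ {b : G ⧸ N → ℝ | b 1 < w} : Set (Z × (G ⧸ N → ℝ))) ∧
    μ.prod (bern (G ⧸ N)) (univ ×ˢ {b | b 1 < w}) = ENNReal.ofReal w ∧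
    ∀ᵐ p ∂(μ.prod (bern (G ⧸ N))), ∃ g : G,
      (act g p.1, fun q : G ⧸ N => p.2 ((g : G ⧸ N)⁻¹ * q)) ∈
        (univ ×ˢ {b : G ⧸ N → ℝ | b 1 < w} : Set (Z × (G ⧸ N → ℝ))) := by
  obtain ⟨h1, h2, h3⟩ := bern_section N hw hw1
  refine ⟨MeasurableSet.univ.prod h1, ?_, ?_⟩
  · rw [Measure.prod_prod, measure_univ, one_mul, h2]
  · have h4 : ∀ᵐ p ∂(μ.prod (bern (G ⧸ N))), ∃ g : G,
        (fun q : G ⧸ N => p.2 ((g : G ⧸ N)⁻¹ * q)) ∈ {b : G ⧸ N → ℝ | b 1 < w} :=
      Measure.quasiMeasurePreserving_snd.ae h3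
    filter_upwards [h4] with p hp
    obtain ⟨g, hg⟩ := hp
    exact ⟨g, mem_univ _, hg⟩

end Pool.Agent.Lib.MP_354e85_al.Lim
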