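import Pool.Agent.Lib.MP_354e85_al.Lim.Defs
import Pool.Agent.Lib.MP_354e85_al.Lim.Section

open MeasureTheory Set

namespace Pool.Agent.Lib.MP_354e85_al.Lim

open Pool.Agent.Lib.MP_354e85_al

/-- An infinite quotient has complete sections of every measure `0 < w ≤ 1`. -/
theorem secAct (G : Type) [Group G] [Countable G] (N : Subgroup G) [N.Normal]
    (hinf : Infinite (G ⧸ N)) (w : ENNReal) (hw : w ≤ 1) (hw0 : w ≠ 0) : SecAct G N w := by
  have hc : Countable (G ⧸ N) :=
    Function.Surjective.countable (QuotientGroup.mk_surjective (s := N))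
  have hwt : w ≠ ⊤ := ne_top_of_le_ne_top ENNReal.one_ne_top hw
  have hr0 : 0 < w.toReal := ENNReal.toReal_pos hw0 hwt
  have hr1 : w.toReal ≤ 1 := by
    have := ENNReal.toReal_mono ENNReal.one_ne_top hw
    simpa using this
  obtain ⟨h1, h2, h3⟩ := bern_section N hr0 hr1
  refine ⟨G ⧸ N → ℝ, inferInstance, inferInstance, bern (G ⧸ N), inferInstance,
    fun g b q => b ((g : G ⧸ N)⁻¹ * q), ⟨?_, ?_, fun g => bern_quot_shift N g, ?_⟩,
    {b | b 1 < w.toReal}, h1, ?_, h3⟩
  · intro b
    funext q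
    simp
  · intro g h b
    funext q
    simp [mul_assoc]
  · intro g hg b
    funext q
    have : (g : G ⧸ N) = 1 := (QuotientGroup.eq_one_iff g).2 hg
    simp [this]
  · rw [h2, ENNReal.ofReal_toReal hwt]

end Pool.Agent.Lib.MP_354e85_al.Lim
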