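import Pool.Agent.Lib.MP_354e85_al.Lim.Step
import Pool.Agent.Lib.MP_354e85_al.Lim.SecAct
import Pool.Agent.Lib.MP_354e85_al.Lim.CheapOne
import Pool.Agent.Lib.MP_354e85_al.Lim.CostGen

/-! The iteration and the theorem on residual limits. -/

open MeasureTheory Set

namespace Pool.Agent.Lib.MP_354e85_al.Lim

open Pool.Agent.Lib.MP_354e85_al

theorem costGE_anti {G : Type*} [Group G] {θ θ' : ℝ} (h : θ ≤ θ') (hc : CostGE G θ') :
    CostGE G θ := by
  intro a h1 h2 h3 h4 A φ hA hφ hinj hφa hgen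
  exact (ENNReal.ofReal_le_ofReal (by linarith)).trans
    (hc a h1 h2 h3 h4 A φ hA hφ hinj hφa hgen)

theorem exists_deep {G : Type*} [Group G] (N : ℕ → Subgroup G) (hanti : Antitone N)
    (hbot : ⨅ k, N k = ⊥) (k : ℕ) (F : Finset G) (hF : ∀ x ∈ F, x ≠ 1) :
    ∃ m, k ≤ m ∧ ∀ x ∈ F, x ∉ N m := by
  classical
  induction F using Finset.induction_on with
  | empty => exact ⟨k, le_refl k, fun x hx => absurd hx (Finset.notMem_empty x)⟩
  | insert a F _ ih =>
    obtain ⟨m, hkm, hm⟩ := ih fun x hx => hF x (Finset.mem_insert_of_mem hx)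
    have ha : a ∉ ⨅ k, N k := by
      rw [hbot, Subgroup.mem_bot]
      exact hF a (Finset.mem_insert_self a F)
    rw [Subgroup.mem_iInf, not_forall] at ha
    obtain ⟨j, hj⟩ := ha
    refine ⟨max m j, hkm.trans (le_max_left _ _), fun x hx => ?_⟩
    rcases Finset.mem_insert.1 hx with rfl | hx
    · exact fun h => hj (hanti (le_max_right m j) h)
    · exact fun h => hm x hx (hanti (le_max_left m j) h)

/-- The start of the iteration: the trivial action on a point. -/
theorem lev_start {G : Type} [Group G] [Countable G] (hfg : Group.FG G) (N : Subgroup G) :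
    ∃ x : ℝ, Lev G N (ENNReal.ofReal x) := by
  classical
  obtain ⟨S, hS, hfin⟩ := Group.fg_iff.1 hfg
  have := hfin.fintype
  refine ⟨Fintype.card S, Unit, inferInstance, inferInstance, Measure.dirac (), inferInstance,
    fun _ z => z, ⟨fun _ => rfl, fun _ _ _ => rfl, fun _ => MeasurePreserving.id _,
    fun _ _ _ => rfl⟩, S, inferInstance, fun s => (s : G), fun _ => univ,
    fun _ => MeasurableSet.univ, ?_, ?_⟩
  · refine Filter.Eventually.of_forall fun z g => ?_
    have key : ∀ g : G, g ∈ Subgroup.closure S → ∀ k,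
        Relation.EqvGen (Edge (fun (_ : G) (z : Unit) => z) (fun s : S => (s : G))
          (fun _ => univ) z) k (g * k) := by
      intro g hg
      induction hg using Subgroup.closure_induction with
      | mem s hs =>
        intro k
        exact Relation.EqvGen.rel _ _ ⟨⟨s, hs⟩, mem_univ _, rfl⟩
      | one =>
        intro k
        rw [one_mul]
        exact Relation.EqvGen.refl _
      | mul a b _ _ ha hb =>
        intro k
        rw [mul_assoc]
        exact (hb k).trans _ _ _ (ha (b * k))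
      | inv a _ ha =>
        intro k
        have h1 := ha (a⁻¹ * k)
        rw [mul_inv_cancel_left] at h1
        exact h1.symm
    have h1 := key g (by rw [hS]; exact Subgroup.mem_top g) 1
    rwa [mul_one] at h1
  · rw [ENNReal.ofReal_natCast, tsum_fintype]
    simp

/-- The cost of a level which generates is at least the cost of the group. -/
theorem lev_cost {G : Type} [Group G] [Countable G] {ε : ℝ} (hcost : CostGE G ε)
    {N : Subgroup G} {x : ENNReal} (h : Lev G N x) : ENNReal.ofReal (1 + ε) ≤ x := by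
  obtain ⟨Z, i1, i2, μ, i3, act, hact, ι, i4, s, B, hB, hgen, hsum⟩ := h
  refine le_trans ?_ hsum
  classical
  -- reindex by `ℕ`
  obtain ⟨f, hf⟩ := exists_injective_nat ι
  let s' : ℕ → G := fun n => if h : ∃ i, f i = n then s h.choose else 1
  let B' : ℕ → Set Z := fun n => if h : ∃ i, f i = n then B h.choose else ∅
  have hch : ∀ i, ∀ h : (∃ j, f j = f i), h.choose = i := fun i h => hf h.choose_spec
  have hs' : ∀ i, s' (f i) = s i := by
    intro i
    have h : ∃ j, f j = f i := ⟨i, rfl⟩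
    simp only [s', dif_pos h, hch i h]
  have hB' : ∀ i, B' (f i) = B i := by
    intro i
    have h : ∃ j, f j = f i := ⟨i, rfl⟩
    simp only [B', dif_pos h, hch i h]
  have hBm : ∀ n, MeasurableSet (B' n) := by
    intro n
    simp only [B']
    split_ifs
    · exact hB _
    · exact MeasurableSet.empty
  have hsum' : ∑' n, μ (B' n) = ∑' i, μ (B i) := by
    rw [← hf.tsum_eq (f := fun n => μ (B' n))]
    · exact tsum_congr fun i => by rw [hB']
    · intro n hn
      by_contra hne
      apply hn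
      have : ¬ ∃ i, f i = n := fun ⟨i, hi⟩ => hne ⟨i, hi⟩
      simp only [B', dif_neg this, measure_empty]
  rw [← hsum']
  refine cost_gen hcost μ act hact.one hact.mul hact.mp s' B' hBm ?_
  filter_upwards [hgen] with z hz g
  refine eqvGen_mono' ?_ (hz g)
  rintro x y ⟨i, hi, rfl⟩
  refine Relation.EqvGen.rel _ _ ⟨f i, ?_, ?_⟩
  · rw [hB']; exact hi
  · rw [hs']

/-- The core of the theorem on residual limits. -/
theorem core {G : Type} [Group G] [Countable G] (hfg : Group.FG G) (N : ℕ → Subgroup G)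
    (hnorm : ∀ k, (N k).Normal) (hanti : Antitone N) (hbot : ⨅ k, N k = ⊥)
    (hinf : ∀ k, Infinite (G ⧸ N k)) (ε θ : ℝ) (hθ : 0 ≤ θ) (hε : 2 * θ < ε)
    (hcheap : ∀ k, CheapAct G (N k) (ENNReal.ofReal (1 + θ)))
    (hhub : ∀ k, ∃ (p : ℕ) (a : Fin p → G), (∀ i, a i ∈ N k) ∧
      ∀ c ∈ N k, ∀ d ∈ N k, HubSet (Subgroup.closure (range a)) (N k) c d) :
    ¬ CostGE G ε := by
  intro hG
  obtain ⟨δ, hδ0, hδ⟩ : ∃ δ : ℝ, 0 < δ ∧ 2 * (θ + δ) < ε := ⟨(ε - 2 * θ) / 4, by linarith,
    by linarith⟩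
  obtain ⟨x₀, hx₀⟩ := lev_start hfg (N 0)
  have hall : ∀ n : ℕ, ∃ m, Lev G (N m)
      (ENNReal.ofReal (1 + 2 * (θ + δ) + (1 / 2 : ℝ) ^ n * |x₀ - 1|)) := by
    intro n
    induction n with
    | zero =>
      refine ⟨0, hx₀.mono (ENNReal.ofReal_le_ofReal ?_)⟩
      have h1 := le_abs_self (x₀ - 1)
      rw [pow_zero]
      linarith
    | succ n ih =>
      obtain ⟨m, hm⟩ := ih
      obtain ⟨p, a, ha, hh⟩ := hhub m
      have := hnorm
      obtain ⟨m', -, hm'⟩ := step N m (fun j hj => hanti hj) (exists_deep N hanti hbot m) p a ha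
        hh θ hθ (hcheap m) (fun w hw hw0 => secAct G (N m) (hinf m) w hw hw0) _ δ
        (by have := abs_nonneg (x₀ - 1); nlinarith [pow_pos (by norm_num : (0 : ℝ) < 1 / 2) n])
        hδ0 hm
      refine ⟨m', hm'.mono (ENNReal.ofReal_le_ofReal (le_of_eq ?_))⟩
      rw [pow_succ]
      ring
  obtain ⟨n, hn⟩ : ∃ n : ℕ, (1 / 2 : ℝ) ^ n * |x₀ - 1| < ε - 2 * (θ + δ) := by
    have ht : Filter.Tendsto (fun n : ℕ => (1 / 2 : ℝ) ^ n * |x₀ - 1|) Filter.atTop
        (nhds (0 * |x₀ - 1|)) :=
      (tendsto_pow_atTop_nhds_zero_of_lt_one (by norm_num) (by norm_num)).mul_const _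
    rw [zero_mul] at ht
    have hpos : 0 < ε - 2 * (θ + δ) := by linarith
    exact (ht.eventually (gt_mem_nhds hpos)).exists
  obtain ⟨m, hm⟩ := hall n
  have h2 := lev_cost hG hm
  have h3 : ENNReal.ofReal (1 + 2 * (θ + δ) + (1 / 2 : ℝ) ^ n * |x₀ - 1|) <
      ENNReal.ofReal (1 + ε) := by
    rw [ENNReal.ofReal_lt_ofReal_iff (by linarith)]
    linarith
  exact absurd h2 (not_le.mpr h3)

end Pool.Agent.Lib.MP_354e85_al.Lim
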