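import Pool.Agent.Lib.MP_354e85_al.Lim.AmenSub

namespace Pool.Agent.Lib.MP_354e85_al.Lim

open Pool.Agent.Lib.MP_354e85_al

theorem Foelner.of_subsingleton (Q : Type*) [Group Q] [Subsingleton Q] : Foelner Q :=
  Foelner.of_finite Q

/-- In a countable residually amenable group there is a descending sequence of normal subgroups
with amenable quotients and trivial intersection. -/
theorem exists_chain {G : Type*} [Group G] [Countable G]
    (h : ∀ g : G, g ≠ 1 → ∃ N : Subgroup G, ∃ _ : N.Normal, g ∉ N ∧ Foelner (G ⧸ N)) :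
    ∃ Ns : ℕ → Subgroup G, Antitone Ns ∧ (∀ k, ∃ _ : (Ns k).Normal, Foelner (G ⧸ Ns k)) ∧
      ∀ g : G, g ≠ 1 → ∃ k, g ∉ Ns k := by
  obtain ⟨e, he⟩ := exists_surjective_nat G
  have htop : ∃ _ : (⊤ : Subgroup G).Normal, Foelner (G ⧸ (⊤ : Subgroup G)) := by
    refine ⟨inferInstance, ?_⟩
    have : Subsingleton (G ⧸ (⊤ : Subgroup G)) := QuotientGroup.subsingleton_quotient_top
    exact Foelner.of_subsingleton _
  have hM : ∀ i : ℕ, ∃ M : Subgroup G, (∃ _ : M.Normal, Foelner (G ⧸ M)) ∧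
      (e i ≠ 1 → e i ∉ M) := by
    intro i
    by_cases h1 : e i = 1
    · exact ⟨⊤, htop, fun h2 => absurd h1 h2⟩
    · obtain ⟨N, hN, h2, h3⟩ := h _ h1
      exact ⟨N, ⟨hN, h3⟩, fun _ => h2⟩
  choose M hM1 hM2 using hM
  let Ns : ℕ → Subgroup G := fun k => Nat.rec ⊤ (fun k N => N ⊓ M k) k
  have hs : ∀ k, Ns (k + 1) = Ns k ⊓ M k := fun _ => rfl
  refine ⟨Ns, antitone_nat_of_succ_le fun k => by rw [hs]; exact inf_le_left, ?_, ?_⟩
  · intro k
    induction k with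
    | zero => exact htop
    | succ k ih =>
      obtain ⟨n1, f1⟩ := ih
      obtain ⟨n2, f2⟩ := hM1 k
      rw [hs]
      have n3 : (Ns k ⊓ M k).Normal := @Subgroup.normal_inf_normal G _ (Ns k) (M k) n1 n2
      exact ⟨n3, @Foelner.inf G _ (Ns k) (M k) n1 n2 n3 f1 f2⟩
  · intro g hg
    obtain ⟨k, rfl⟩ := he g
    exact ⟨k + 1, fun h1 => hM2 k hg ((hs k ▸ h1 : e k ∈ Ns k ⊓ M k).2)⟩

end Pool.Agent.Lib.MP_354e85_al.Lim
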