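import Pool.Agent.Lib.MP_354e85_al.Lim.AmenCost

namespace Pool.Agent.Lib.MP_354e85_al.Lim

open Pool.Agent.Lib.MP_354e85_al

/-- Foelner's condition. -/
def Foelner (Q : Type*) [Group Q] : Prop :=
  ∀ (S : Finset Q) (δ : ℝ), 0 < δ → ∃ F : Finset Q, F.Nonempty ∧
    ∀ s ∈ S, (outN F s : ℝ) ≤ δ * F.card

theorem Foelner.not_costGE {Q : Type*} [Group Q] [Countable Q] (hfg : Group.FG Q)
    (h : Foelner Q) (ε : ℝ) (hε : 0 < ε) : ¬ CostGE Q ε := by
  obtain ⟨n, S, hS⟩ := Group.fg_iff'.1 hfg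
  exact not_costGE_of_foelner S hS.2 (fun δ hδ => h S δ hδ) ε hε

theorem Foelner.of_finite (Q : Type*) [Group Q] [Finite Q] : Foelner Q := by
  classical
  have := Fintype.ofFinite Q
  intro S δ hδ
  refine ⟨Finset.univ, ⟨1, Finset.mem_univ _⟩, fun s _ => ?_⟩
  have : outN (Finset.univ : Finset Q) s = 0 := by
    unfold outN
    rw [Finset.card_eq_zero, Finset.filter_eq_empty_iff]
    intro x _
    simp
  rw [this]
  push_cast
  positivity

/-- Foelner's condition passes to subgroups. -/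
theorem Foelner.of_injective {H Q : Type*} [Group H] [Group Q] (φ : H →* Q)
    (hφ : Function.Injective φ) (h : Foelner Q) : Foelner H := by
  classical
  intro S δ hδ
  obtain ⟨F, hFne, hF⟩ := h (S.image φ) (δ / (S.card + 1)) (by positivity)
  let q : Q → Quotient (QuotientGroup.rightRel φ.range) := Quotient.mk _
  have hq : ∀ x y : Q, q x = q y ↔ y * x⁻¹ ∈ φ.range := by
    intro x y
    constructor
    · intro h
      exact QuotientGroup.rightRel_apply.1 (Quotient.exact h)
    · intro h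
      exact Quotient.sound (QuotientGroup.rightRel_apply.2 h)
  have hqs : ∀ (s : H) (x : Q), q (φ s * x) = q x := by
    intro s x
    rw [hq]
    refine ⟨s⁻¹, ?_⟩
    rw [map_inv]
    group
  let FC : Quotient (QuotientGroup.rightRel φ.range) → Finset Q := fun C => F.filter (fun x => q x = C)
  have hsum : ∀ s : H, outN F (φ s) = ∑ C ∈ F.image q, outN (FC C) (φ s) := by
    intro s
    have h1 : outN F (φ s) = (F.filter (fun x => φ s * x ∉ F)).card := by
      unfold outN; congr
    rw [h1, Finset.card_eq_sum_card_fiberwise (f := q) (t := F.image q)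
      (fun x hx => Finset.mem_image_of_mem q (Finset.mem_filter.1 hx).1)]
    refine Finset.sum_congr rfl fun C _ => ?_
    have h2 : outN (FC C) (φ s) = ((FC C).filter (fun x => φ s * x ∉ FC C)).card := by
      unfold outN; congr
    rw [h2]
    congr 1
    ext x
    simp only [FC, Finset.mem_filter]
    constructor
    · rintro ⟨⟨h1, h2⟩, h3⟩
      exact ⟨⟨h1, h3⟩, fun h4 => h2 h4.1⟩
    · rintro ⟨⟨h1, h3⟩, h2⟩
      exact ⟨⟨h1, fun h4 => h2 ⟨h4, by rw [hqs]; exact h3⟩⟩, h3⟩
  have hcard : F.card = ∑ C ∈ F.image q, (FC C).card :=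
    Finset.card_eq_sum_card_image q F
  have htot : ∑ C ∈ F.image q, (∑ s ∈ S, (outN (FC C) (φ s) : ℝ)) ≤
      ∑ C ∈ F.image q, δ * ((FC C).card : ℝ) := by
    rw [Finset.sum_comm, ← Finset.mul_sum]
    have h1 : ∀ s ∈ S, ∑ C ∈ F.image q, (outN (FC C) (φ s) : ℝ) ≤ δ / (S.card + 1) * F.card := by
      intro s hs
      have h2 := hF (φ s) (Finset.mem_image_of_mem _ hs)
      rw [hsum s] at h2
      exact_mod_cast h2
    refine (Finset.sum_le_sum h1).trans ?_
    rw [Finset.sum_const, nsmul_eq_mul]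
    have h3 : ((F.card : ℕ) : ℝ) = ∑ C ∈ F.image q, ((FC C).card : ℝ) := by
      exact_mod_cast hcard
    rw [← h3, ← mul_assoc]
    apply mul_le_mul_of_nonneg_right _ (by positivity)
    rw [← mul_div_assoc, div_le_iff₀ (by positivity)]
    nlinarith
  obtain ⟨C, hC, hle⟩ := Finset.exists_le_of_sum_le (hFne.image q) htot
  obtain ⟨x0, hx0, hx0C⟩ := Finset.mem_image.1 hC
  -- translate the piece into `H`
  let E : Finset H := (FC C).preimage (fun a => φ a * x0)
    (fun a _ b _ hab => hφ (mul_right_cancel hab))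
  have hE : ∀ a, a ∈ E ↔ φ a * x0 ∈ FC C := fun a => Finset.mem_preimage
  have hcov : ∀ x ∈ FC C, ∃ a : H, φ a * x0 = x := by
    intro x hx
    have h1 : q x0 = q x := hx0C.trans (Finset.mem_filter.1 hx).2.symm
    obtain ⟨a, ha⟩ := (hq _ _).1 h1
    exact ⟨a, by rw [ha]; group⟩
  have hEcard : E.card = (FC C).card := by
    apply Finset.card_bij (fun a _ => φ a * x0)
    · intro a ha
      exact (hE a).1 ha
    · intro a _ b _ hab
      exact hφ (mul_right_cancel hab)
    · intro x hx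
      obtain ⟨a, ha⟩ := hcov x hx
      exact ⟨a, (hE a).2 (ha ▸ hx), ha⟩
  have hEout : ∀ s : H, outN E s = outN (FC C) (φ s) := by
    intro s
    have h1 : outN E s = (E.filter (fun a => s * a ∉ E)).card := by
      unfold outN; congr
    have h2 : outN (FC C) (φ s) = ((FC C).filter (fun x => φ s * x ∉ FC C)).card := by
      unfold outN; congr
    rw [h1, h2]
    have hmul : ∀ a, φ s * (φ a * x0) = φ (s * a) * x0 := by
      intro a; rw [map_mul, mul_assoc]
    apply Finset.card_bij (fun a _ => φ a * x0)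
    · intro a ha
      rw [Finset.mem_filter] at ha ⊢
      exact ⟨(hE a).1 ha.1, fun h3 => ha.2 ((hE _).2 (by rwa [← hmul]))⟩
    · intro a _ b _ hab
      exact hφ (mul_right_cancel hab)
    · intro x hx
      rw [Finset.mem_filter] at hx
      obtain ⟨a, ha⟩ := hcov x hx.1
      refine ⟨a, ?_, ha⟩
      rw [Finset.mem_filter]
      refine ⟨(hE a).2 (ha ▸ hx.1), fun h3 => hx.2 ?_⟩
      rw [← ha, hmul]
      exact (hE _).1 h3
  refine ⟨E, ?_, ?_⟩
  · rw [← Finset.card_pos, hEcard, Finset.card_pos]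
    exact ⟨x0, Finset.mem_filter.2 ⟨hx0, hx0C⟩⟩
  · intro s hs
    rw [hEout, hEcard]
    refine le_trans ?_ hle
    exact Finset.single_le_sum (f := fun s => (outN (FC C) (φ s) : ℝ))
      (fun _ _ => by positivity) hs

/-- Foelner's condition for products. -/
theorem Foelner.prod {A B : Type*} [Group A] [Group B] (hA : Foelner A) (hB : Foelner B) :
    Foelner (A × B) := by
  classical
  intro S δ hδ
  obtain ⟨F, hF1, hF2⟩ := hA (S.image Prod.fst) (δ / 2) (by positivity)
  obtain ⟨E, hE1, hE2⟩ := hB (S.image Prod.snd) (δ / 2) (by positivity)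
  refine ⟨F ×ˢ E, hF1.product hE1, fun s hs => ?_⟩
  have h1 := hF2 s.1 (Finset.mem_image_of_mem _ hs)
  have h2 := hE2 s.2 (Finset.mem_image_of_mem _ hs)
  have h3 : outN (F ×ˢ E) s ≤ outN F s.1 * E.card + F.card * outN E s.2 := by
    have e1 : outN (F ×ˢ E) s = ((F ×ˢ E).filter (fun x => s * x ∉ F ×ˢ E)).card := by
      unfold outN; congr
    have e2 : outN F s.1 = (F.filter (fun x => s.1 * x ∉ F)).card := by
      unfold outN; congr
    have e3 : outN E s.2 = (E.filter (fun x => s.2 * x ∉ E)).card := by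
      unfold outN; congr
    rw [e1, e2, e3, ← Finset.card_product, ← Finset.card_product]
    refine (Finset.card_le_card ?_).trans (Finset.card_union_le _ _)
    rintro ⟨a, b⟩ hx
    simp only [Finset.mem_filter, Finset.mem_product, Finset.mem_union, Prod.fst_mul,
      Prod.snd_mul, not_and_or] at hx ⊢
    obtain ⟨⟨ha, hb⟩, h | h⟩ := hx
    · exact Or.inl ⟨⟨ha, h⟩, hb⟩
    · exact Or.inr ⟨ha, ⟨hb, h⟩⟩
  have h4 : (outN (F ×ˢ E) s : ℝ) ≤ outN F s.1 * E.card + F.card * outN E s.2 := by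
    exact_mod_cast h3
  rw [Finset.card_product]
  push_cast
  have h5 : (outN F s.1 : ℝ) * E.card ≤ δ / 2 * F.card * E.card :=
    mul_le_mul_of_nonneg_right h1 (by positivity)
  have h6 : (F.card : ℝ) * outN E s.2 ≤ F.card * (δ / 2 * E.card) :=
    mul_le_mul_of_nonneg_left h2 (by positivity)
  calc (outN (F ×ˢ E) s : ℝ) ≤ _ := h4
    _ ≤ δ / 2 * F.card * E.card + F.card * (δ / 2 * E.card) := add_le_add h5 h6
    _ = δ * (F.card * E.card) := by ring

/-- Intersections of normal subgroups with Foelner quotients. -/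
theorem Foelner.inf {G : Type*} [Group G] {M N : Subgroup G} [M.Normal] [N.Normal]
    [(M ⊓ N).Normal] (hM : Foelner (G ⧸ M)) (hN : Foelner (G ⧸ N)) : Foelner (G ⧸ (M ⊓ N)) := by
  let φ : G ⧸ (M ⊓ N) →* (G ⧸ M) × (G ⧸ N) :=
    QuotientGroup.lift (M ⊓ N) ((QuotientGroup.mk' M).prod (QuotientGroup.mk' N)) (by
      intro x hx
      rw [MonoidHom.mem_ker, MonoidHom.prod_apply, Prod.mk_eq_one]
      exact ⟨(QuotientGroup.eq_one_iff x).2 hx.1, (QuotientGroup.eq_one_iff x).2 hx.2⟩)
  apply Foelner.of_injective φ _ (hM.prod hN)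
  rw [injective_iff_map_eq_one]
  intro x
  induction x using QuotientGroup.induction_on with
  | H x =>
    intro hx
    have h1 : ((x : G ⧸ M), (x : G ⧸ N)) = 1 := hx
    rw [Prod.mk_eq_one] at h1
    rw [QuotientGroup.eq_one_iff]
    exact ⟨(QuotientGroup.eq_one_iff x).1 h1.1, (QuotientGroup.eq_one_iff x).1 h1.2⟩

end Pool.Agent.Lib.MP_354e85_al.Lim
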