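import Pool.Agent.Lib.MP_354e85_al.Lim.AmenCost
import Pool.Agent.Lib.MP_354e85_al.Tarski

open Pointwise

namespace Pool.Agent.Lib.MP_354e85_al.Lim

open Pool.Agent.Lib.MP_354e85_al

theorem card_add_outN_le {Q : Type*} [Group Q] [DecidableEq Q] (F : Finset Q) (s : Q) :
    F.card + outN F s ≤ (F ∪ F.image (fun f => s * f)).card := by
  classical
  have h1 : outN F s = ((F.filter (fun f => s * f ∉ F)).image (fun f => s * f)).card := by
    rw [Finset.card_image_of_injective _ (mul_right_injective s)]
    unfold outN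
    congr
  rw [h1, ← Finset.card_union_of_disjoint]
  · apply Finset.card_le_card
    apply Finset.union_subset_union_right
    exact Finset.image_subset_image (Finset.filter_subset _ _)
  · rw [Finset.disjoint_left]
    intro x hx hx2
    obtain ⟨f, hf, rfl⟩ := Finset.mem_image.1 hx2
    exact (Finset.mem_filter.1 hf).2 hx

/-- A group without paradoxical decomposition satisfies Foelner's condition. -/
theorem foelner_of_not_tarski {Q : Type*} [Group Q] (h : ∀ n, ¬ TarskiLE Q n) (S : Finset Q)
    (δ : ℝ) (hδ : 0 < δ) :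
    ∃ F : Finset Q, F.Nonempty ∧ ∀ s ∈ S, (outN F s : ℝ) ≤ δ * F.card := by
  classical
  by_contra hcon
  push Not at hcon
  set T : Finset Q := insert 1 S with hT
  have hgrow : ∀ F : Finset Q, (1 + δ) * F.card ≤ ((T * F).card : ℝ) := by
    intro F
    rcases F.eq_empty_or_nonempty with h0 | hne
    · simp [h0]
    · obtain ⟨s, hs, hlt⟩ := hcon F hne
      have h1 : F ∪ F.image (fun f => s * f) ⊆ T * F := by
        intro x hx
        rcases Finset.mem_union.1 hx with hx | hx
        · exact Finset.mem_mul.2 ⟨1, Finset.mem_insert_self _ _, x, hx, one_mul x⟩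
        · obtain ⟨f, hf, rfl⟩ := Finset.mem_image.1 hx
          exact Finset.mul_mem_mul (Finset.mem_insert_of_mem hs) hf
      have h2 := (card_add_outN_le F s).trans (Finset.card_le_card h1)
      have h3 : (F.card : ℝ) + outN F s ≤ ((T * F).card : ℝ) := by exact_mod_cast h2
      linarith
  have hpow : ∀ (k : ℕ) (F : Finset Q), (1 + δ) ^ k * F.card ≤ ((T ^ k * F).card : ℝ) := by
    intro k
    induction k with
    | zero => intro F; simp
    | succ k ih =>
      intro F
      have h1 := ih (T * F)
      have h2 := hgrow F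
      rw [pow_succ, pow_succ, mul_assoc, mul_assoc]
      exact (mul_le_mul_of_nonneg_left h2 (by positivity)).trans h1
  obtain ⟨k, hk⟩ := pow_unbounded_of_one_lt (2 : ℝ) (by linarith : 1 < 1 + δ)
  set P : Finset Q := T ^ k with hP
  have h1P : (1 : Q) ∈ P := by
    have : (1 : Q) ∈ T := Finset.mem_insert_self _ _
    have h2 := Finset.pow_mem_pow this (n := k)
    rwa [one_pow] at h2
  have hdouble : ∀ F : Finset Q, 2 * F.card ≤ (P * F).card := by
    intro F
    have h1 := hpow k F
    have h2 : (2 : ℝ) * F.card ≤ (1 + δ) ^ k * F.card :=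
      mul_le_mul_of_nonneg_right hk.le (by positivity)
    exact_mod_cast h2.trans h1
  let e : Fin P.card ≃ P := P.equivFin.symm
  let s₁ : Fin P.card → (⊤ : Subgroup Q) := fun i => ⟨((e i : P) : Q)⁻¹, Subgroup.mem_top _⟩
  have htar := tarski_of_hall (⊤ : Subgroup Q) s₁ s₁ (e.symm ⟨1, h1P⟩)
    (Subtype.ext (by simp [s₁])) (by
    intro F₁ F₂
    refine ⟨nb s₁ (F₁ ∪ F₂), ?_, ?_⟩
    · intro x
      rw [mem_nb, mem_nb, mem_nb]
      constructor
      · rintro ⟨v, hv, i, hi⟩
        rcases Finset.mem_union.1 hv with hv | hv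
        · exact Or.inl ⟨v, hv, i, hi⟩
        · exact Or.inr ⟨v, hv, i, hi⟩
      · rintro (⟨v, hv, i, hi⟩ | ⟨v, hv, i, hi⟩)
        · exact ⟨v, Finset.mem_union_left _ hv, i, hi⟩
        · exact ⟨v, Finset.mem_union_right _ hv, i, hi⟩
    · set E := F₁ ∪ F₂ with hE
      have h1 : F₁.card + F₂.card ≤ 2 * E.card := by
        have h2 : F₁.card ≤ E.card := Finset.card_le_card Finset.subset_union_left
        have h3 : F₂.card ≤ E.card := Finset.card_le_card Finset.subset_union_right
        omega
      have h4 : (E.image (fun x : (⊤ : Subgroup Q) => (x : Q)⁻¹)).card = E.card :=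
        Finset.card_image_of_injective _ (fun x y hxy => Subtype.ext (inv_injective hxy))
      have h5 := hdouble (E.image (fun x : (⊤ : Subgroup Q) => (x : Q)⁻¹))
      rw [h4] at h5
      have h6 : P * E.image (fun x : (⊤ : Subgroup Q) => (x : Q)⁻¹) ⊆
          (nb s₁ E).image (fun x : (⊤ : Subgroup Q) => (x : Q)⁻¹) := by
        intro y hy
        obtain ⟨p, hp, z, hz, rfl⟩ := Finset.mem_mul.1 hy
        obtain ⟨v, hv, rfl⟩ := Finset.mem_image.1 hz
        refine Finset.mem_image.2 ⟨v * s₁ (e.symm ⟨p, hp⟩), ?_, ?_⟩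
        · rw [mem_nb]
          exact ⟨v, hv, _, rfl⟩
        · simp [s₁]
      have h7 := (Finset.card_le_card h6).trans Finset.card_image_le
      omega)
  exact h _ htar

/-- A finitely generated group without paradoxical decomposition has cost one. -/
theorem not_costGE_of_not_tarski {Q : Type*} [Group Q] [Countable Q] (hfg : Group.FG Q)
    (h : ∀ n, ¬ TarskiLE Q n) (ε : ℝ) (hε : 0 < ε) : ¬ CostGE Q ε := by
  obtain ⟨n, S, hS⟩ := Group.fg_iff'.1 hfg
  exact not_costGE_of_foelner S hS.2 (fun δ hδ => foelner_of_not_tarski h S δ hδ) ε hε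

end Pool.Agent.Lib.MP_354e85_al.Lim
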