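import Pool.Agent.Lib.MP_354e85_al.Lim.Cheap
import Pool.Agent.Lib.MP_354e85_al.Lim.Defs

open MeasureTheory Set

namespace Pool.Agent.Lib.MP_354e85_al.Lim

open Pool.Agent.Lib.MP_354e85_al

/-- If the quotient `G ⧸ N` does not satisfy the cost hypothesis, then it has cheap actions. -/
theorem cheapAct (G : Type) [Group G] [Countable G] (N : Subgroup G) [N.Normal]
    (h : ∀ ε : ℝ, 0 < ε → ¬ CostGE (G ⧸ N) ε) (θ : ℝ) (hθ : 0 < θ) :
    CheapAct G N (ENNReal.ofReal (1 + θ)) := by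
  obtain ⟨act, h1, hmul, hmp, htriv, -, s, D, hD, hsum, hgen⟩ :=
    cheap_lift N (fun ⟨ε, hε, hc⟩ => h ε hε hc) hθ
  refine ⟨ℝ, inferInstance, inferInstance, volume.restrict (Icc (0 : ℝ) 1), prob01, act,
    ⟨h1, hmul, hmp, htriv⟩, ℕ, inferInstance, s, D, hD, ?_, hsum⟩
  filter_upwards [hgen] with x hx g
  obtain ⟨g', hg', hgg⟩ := hx g
  refine ⟨g', ?_, hgg⟩
  have := N.inv_mem hg'
  rwa [mul_inv_rev, inv_inv] at this

end Pool.Agent.Lib.MP_354e85_al.Lim
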