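import Pool.Agent.Lib.MP_354e85_al.Lim.CostGen
import Pool.Agent.Lib.MP_354e85_al.Lim.Section

/-! Groups with an infinite normal subgroup commuting with another infinite subgroup have cost at
most one. -/

open MeasureTheory Set

namespace Pool.Agent.Lib.MP_354e85_al.Lim

open Pool.Agent.Lib.MP_354e85_al

/-- Some coordinate in an infinite set is below `w`, almost surely. -/
theorem CommNormal_exists_lt {Q : Type*} {A : Set Q} (hA : A.Infinite) {w : ℝ} (hw : 0 < w) :
    ∀ᵐ b ∂(bern Q), ∃ q ∈ A, b q < w := by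
  classical
  have := prob01
  rw [ae_iff]
  have hfin : ∀ n : ℕ, bern Q {b | ¬ ∃ q ∈ A, b q < w} ≤ ENNReal.ofReal (1 - w) ^ n := by
    intro n
    obtain ⟨F, hFA, hF⟩ := hA.exists_subset_card_eq n
    have hsub : {b : Q → ℝ | ¬ ∃ q ∈ A, b q < w} ⊆ Set.pi F (fun _ => Ici w) := by
      intro b hb q hq
      by_contra hcon
      exact hb ⟨q, hFA hq, lt_of_not_ge hcon⟩
    refine (measure_mono hsub).trans ?_
    unfold bern
    rw [Measure.infinitePi_pi _ (fun _ _ => measurableSet_Ici)]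
    rw [Finset.prod_congr rfl (fun q _ => ge_measure hw.le), Finset.prod_const, hF]
  have h0 : Filter.Tendsto (fun n : ℕ => ENNReal.ofReal (1 - w) ^ n) Filter.atTop (nhds 0) := by
    apply ENNReal.tendsto_pow_atTop_nhds_zero_of_lt_one
    rw [ENNReal.ofReal_lt_one]
    linarith
  exact le_antisymm (ge_of_tendsto' h0 hfin) bot_le

/-- The decreasing sections. -/
def CommNormal_D (Q : Type*) [One Q] (δ : ℝ) : ℕ → Set (Q → ℝ)
  | 0 => univ
  | i + 1 => {b | b 1 < δ / 2 / 2 ^ i}

theorem CommNormal_D_meas (Q : Type*) [One Q] (δ : ℝ) (i : ℕ) :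
    MeasurableSet (CommNormal_D Q δ i) := by
  cases i with
  | zero => exact MeasurableSet.univ
  | succ i => exact measurableSet_lt (measurable_pi_apply _) measurable_const

theorem CommNormal_D_anti (Q : Type*) [One Q] {δ : ℝ} (hδ : 0 < δ) :
    Antitone (CommNormal_D Q δ) := by
  refine antitone_nat_of_succ_le fun i => ?_
  cases i with
  | zero => exact subset_univ _
  | succ i =>
    intro b hb
    change b 1 < δ / 2 / 2 ^ (i + 1) at hb
    change b 1 < δ / 2 / 2 ^ i
    refine hb.trans_le ?_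
    refine div_le_div_of_nonneg_left (by positivity) (by positivity) ?_
    exact pow_le_pow_right₀ (by norm_num) (Nat.le_succ i)

theorem CommNormal_tsum {δ : ℝ} (hδ : 0 < δ) :
    ∑' i : ℕ, ENNReal.ofReal (δ / 2 / 2 ^ i) = ENNReal.ofReal δ := by
  rw [← ENNReal.ofReal_tsum_of_nonneg (fun i => by positivity) (hasSum_geometric_two' δ).summable,
    (hasSum_geometric_two' δ).tsum_eq]

theorem not_costGE_of_commuting {G : Type} [Group G] [Countable G] (hfg : Group.FG G)
    (M N : Subgroup G) [N.Normal] (hcomm : ∀ m ∈ M, ∀ n ∈ N, m * n = n * m) (hN : Infinite N)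
    (hM : (Set.range fun m : M => ((m : G) : G ⧸ N)).Infinite) (ε : ℝ) (hε : 0 < ε) :
    ¬ CostGE G ε := by
  classical
  intro hcost
  have := hfg
  have hc : Countable (G ⧸ N) :=
    Function.Surjective.countable (QuotientGroup.mk_surjective (s := N))
  obtain ⟨δ, hδ0, hδ1, hδε⟩ : ∃ δ : ℝ, 0 < δ ∧ δ ≤ 1 ∧ 2 * δ < ε :=
    ⟨min 1 (ε / 4), by positivity, min_le_left _ _, by
      have := min_le_right 1 (ε / 4)
      linarith⟩
  obtain ⟨e, he⟩ := exists_surjective_nat M
  obtain ⟨nn, hnn⟩ := exists_surjective_nat N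
  obtain ⟨gg, hgg⟩ := exists_surjective_nat G
  let aQ : G → (G ⧸ N → ℝ) → (G ⧸ N → ℝ) := fun g b q => b ((g : G ⧸ N)⁻¹ * q)
  have haQmul : ∀ g h b, aQ (g * h) b = aQ g (aQ h b) := by
    intro g h b
    funext q
    change b (((g * h : G) : G ⧸ N)⁻¹ * q) = b ((h : G ⧸ N)⁻¹ * ((g : G ⧸ N)⁻¹ * q))
    rw [QuotientGroup.mk_mul, mul_inv_rev, mul_assoc]
  have haQN : ∀ g h : G, (g : G ⧸ N) = (h : G ⧸ N) → ∀ b, aQ g b = aQ h b := by
    intro g h hgh b
    funext q
    change b ((g : G ⧸ N)⁻¹ * q) = b ((h : G ⧸ N)⁻¹ * q)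
    rw [hgh]
  have haQmp : ∀ g : G, MeasurePreserving (aQ g) (bern (G ⧸ N)) (bern (G ⧸ N)) :=
    fun g => bern_quot_shift N g
  let D : ℕ → Set (G ⧸ N → ℝ) := CommNormal_D (G ⧸ N) δ
  have hDm : ∀ i, MeasurableSet (D i) := CommNormal_D_meas (G ⧸ N) δ
  have hDa : Antitone D := CommNormal_D_anti (G ⧸ N) hδ0
  let E : ℕ × ℕ → Set (G ⧸ N → ℝ) := fun p => {b | b ∈ D p.1 ∧ b ∉ D (p.1 + 1) ∧
    aQ (e p.2) b ∈ D (p.1 + 1) ∧ ∀ j < p.2, aQ (e j) b ∉ D (p.1 + 1)}
  have hEm : ∀ p, MeasurableSet (E p) := by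
    intro p
    have h1 : E p = D p.1 ∩ ((D (p.1 + 1))ᶜ ∩ ((aQ (e p.2)) ⁻¹' D (p.1 + 1) ∩
        ⋂ j ∈ Finset.range p.2, ((aQ (e j)) ⁻¹' D (p.1 + 1))ᶜ)) := by
      ext b
      simp only [E, mem_inter_iff, mem_compl_iff, mem_preimage, mem_iInter, Finset.mem_range,
        mem_ofPred_eq]
    rw [h1]
    refine (hDm _).inter ((hDm _).compl.inter (((haQmp _).measurable (hDm _)).inter ?_))
    exact Finset.measurableSet_biInter _ fun j _ => ((haQmp _).measurable (hDm _)).compl
  have hEd : Pairwise (Function.onFun Disjoint E) := by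
    have key : ∀ p q : ℕ × ℕ, ∀ b, b ∈ E p → b ∈ E q → p.1 ≤ q.1 := by
      intro p q b hp hq
      by_contra h
      exact hq.2.1 (hDa (by omega) hp.1)
    have key2 : ∀ p q : ℕ × ℕ, ∀ b, b ∈ E p → b ∈ E q → p.1 = q.1 → p.2 ≤ q.2 := by
      intro p q b hp hq h1
      by_contra h
      refine hp.2.2.2 q.2 (by omega) ?_
      rw [h1]
      exact hq.2.2.1
    intro p q hpq
    change Disjoint (E p) (E q)
    rw [Set.disjoint_left]
    intro b hp hq
    have h1 := le_antisymm (key p q b hp hq) (key q p b hq hp)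
    exact hpq (Prod.ext h1 (le_antisymm (key2 p q b hp hq h1) (key2 q p b hq hp h1.symm)))
  let act : G → (G ⧸ N → ℝ) × (G → ℝ) → (G ⧸ N → ℝ) × (G → ℝ) :=
    fun g z => (aQ g z.1, fun h => z.2 (g⁻¹ * h))
  let s : (ℕ × ℕ) ⊕ (ℕ ⊕ ℕ) → G :=
    Sum.elim (fun p => (e p.2 : G)) (Sum.elim (fun i => (nn i : G)) gg)
  let B : (ℕ × ℕ) ⊕ (ℕ ⊕ ℕ) → Set ((G ⧸ N → ℝ) × (G → ℝ)) :=
    Sum.elim (fun p => E p ×ˢ univ) (Sum.elim (fun i => D (i + 1) ×ˢ univ)
      (fun k => univ ×ˢ {b | b 1 < δ / 2 / 2 ^ k}))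
  have hBm : ∀ i, MeasurableSet (B i) := by
    rintro (p | i | k)
    · exact (hEm p).prod MeasurableSet.univ
    · exact (hDm _).prod MeasurableSet.univ
    · exact MeasurableSet.univ.prod
        (measurableSet_lt (measurable_pi_apply _) measurable_const)
  have hwle : ∀ i : ℕ, δ / 2 / 2 ^ i ≤ 1 := by
    intro i
    rw [div_le_iff₀ (by positivity), one_mul]
    have : (1 : ℝ) ≤ 2 ^ i := one_le_pow₀ (by norm_num)
    linarith
  let μ : Measure ((G ⧸ N → ℝ) × (G → ℝ)) := (bern (G ⧸ N)).prod (bern G)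
  let c : (ℕ × ℕ) ⊕ (ℕ ⊕ ℕ) ≃ ℕ := Denumerable.eqv _
  have hsum : ∑' i, μ (B i) ≤ 1 + (ENNReal.ofReal δ + ENNReal.ofReal δ) := by
    have h1 : ∑' p, μ (B (Sum.inl p)) ≤ 1 := by
      have : ∀ p, μ (B (Sum.inl p)) = bern (G ⧸ N) (E p) := by
        intro p
        change ((bern (G ⧸ N)).prod (bern G)) (E p ×ˢ univ) = _
        rw [Measure.prod_prod, measure_univ, mul_one]
      rw [tsum_congr this, ← measure_iUnion hEd hEm]
      exact prob_le_one
    have h2 : ∑' i, μ (B (Sum.inr (Sum.inl i))) = ENNReal.ofReal δ := by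
      have : ∀ i, μ (B (Sum.inr (Sum.inl i))) = ENNReal.ofReal (δ / 2 / 2 ^ i) := by
        intro i
        change ((bern (G ⧸ N)).prod (bern G)) (D (i + 1) ×ˢ univ) = _
        rw [Measure.prod_prod, measure_univ, mul_one]
        exact bern_lt _ (hwle i)
      rw [tsum_congr this, CommNormal_tsum hδ0]
    have h3 : ∑' k, μ (B (Sum.inr (Sum.inr k))) = ENNReal.ofReal δ := by
      have : ∀ k, μ (B (Sum.inr (Sum.inr k))) = ENNReal.ofReal (δ / 2 / 2 ^ k) := by
        intro k
        change ((bern (G ⧸ N)).prod (bern G)) (univ ×ˢ {b | b 1 < δ / 2 / 2 ^ k}) = _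
        rw [Measure.prod_prod, measure_univ, one_mul]
        exact bern_lt _ (hwle k)
      rw [tsum_congr this, CommNormal_tsum hδ0]
    have h4 : HasSum (fun i => μ (B i)) (∑' p, μ (B (Sum.inl p)) +
        (∑' i, μ (B (Sum.inr (Sum.inl i))) + ∑' k, μ (B (Sum.inr (Sum.inr k))))) := by
      refine HasSum.sum ENNReal.summable.hasSum (HasSum.sum ?_ ?_)
      · exact ENNReal.summable.hasSum
      · exact ENNReal.summable.hasSum
    rw [h4.tsum_eq, h2, h3]
    exact add_le_add h1 le_rfl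
  have hone : ∀ z, act 1 z = z := by
    rintro ⟨b1, b2⟩
    change ((fun q => b1 (((1 : G) : G ⧸ N)⁻¹ * q)), (fun h => b2 (1⁻¹ * h))) = (b1, b2)
    simp
  have hmul : ∀ g h z, act (g * h) z = act g (act h z) := by
    rintro g h ⟨b1, b2⟩
    refine Prod.ext (haQmul g h b1) ?_
    funext k
    change b2 ((g * h)⁻¹ * k) = b2 (h⁻¹ * (g⁻¹ * k))
    rw [mul_inv_rev, mul_assoc]
  have hmp : ∀ g, MeasurePreserving (act g) μ μ := fun g => (haQmp g).prod (bern_shift g)
  have key := cost_gen hcost μ act hone hmul hmp (fun k => s (c.symm k)) (fun k => B (c.symm k))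
    (fun k => hBm _) ?_
  · rw [Equiv.tsum_eq c.symm (fun i => μ (B i))] at key
    have h5 := key.trans hsum
    rw [← ENNReal.ofReal_one, ← ENNReal.ofReal_add hδ0.le hδ0.le,
      ← ENNReal.ofReal_add zero_le_one (by linarith), ENNReal.ofReal_le_ofReal_iff (by linarith)]
      at h5
    linarith
  · -- the good points
    have hg1 : ∀ᵐ z ∂μ, ∀ (x : G) (i : ℕ), ∃ m : M, aQ ((m : G) * x) z.1 ∈ D (i + 1) := by
      have h1 : ∀ᵐ b ∂(bern (G ⧸ N)), ∀ (x : G) (i : ℕ), ∃ m : M,
          aQ ((m : G) * x) b ∈ D (i + 1) := by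
        rw [ae_all_iff]
        intro x
        rw [ae_all_iff]
        intro i
        have hinf : ((fun q : G ⧸ N => (q * (x : G ⧸ N))⁻¹) ''
            (Set.range fun m : M => ((m : G) : G ⧸ N))).Infinite := by
          refine hM.image fun a _ b _ hab => ?_
          exact mul_right_cancel (inv_injective hab)
        filter_upwards [CommNormal_exists_lt hinf (show 0 < δ / 2 / 2 ^ i by positivity)] with b hb
        obtain ⟨q, ⟨_, ⟨m, rfl⟩, rfl⟩, hq⟩ := hb
        refine ⟨m, ?_⟩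
        change b ((((m : G) * x : G) : G ⧸ N)⁻¹ * 1) < δ / 2 / 2 ^ i
        rw [mul_one, QuotientGroup.mk_mul]
        exact hq
      exact Measure.quasiMeasurePreserving_fst.ae h1
    have hg2 : ∀ᵐ z ∂μ, ∀ (x : G) (k : ℕ), ∃ n : N, z.2 (((n : G) * x)⁻¹) < δ / 2 / 2 ^ k := by
      have h1 : ∀ᵐ b ∂(bern G), ∀ (x : G) (k : ℕ), ∃ n : N,
          b (((n : G) * x)⁻¹) < δ / 2 / 2 ^ k := by
        rw [ae_all_iff]
        intro x
        rw [ae_all_iff]
        intro k
        have hinf : (Set.range fun n : N => ((n : G) * x)⁻¹).Infinite := by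
          refine Set.infinite_range_of_injective fun a b hab => ?_
          exact Subtype.ext (mul_right_cancel (inv_injective hab))
        filter_upwards [CommNormal_exists_lt hinf (show 0 < δ / 2 / 2 ^ k by positivity)] with b hb
        obtain ⟨q, ⟨n, rfl⟩, hq⟩ := hb
        exact ⟨n, hq⟩
      exact Measure.quasiMeasurePreserving_snd.ae h1
    filter_upwards [hg1, hg2] with z hz1 hz2
    have hedge : ∀ (i : (ℕ × ℕ) ⊕ (ℕ ⊕ ℕ)) (x : G), act x z ∈ B i →
        Relation.EqvGen (Edge act (fun k => s (c.symm k)) (fun k => B (c.symm k)) z) x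
          (s i * x) := by
      intro i x hx
      refine Relation.EqvGen.rel _ _ ⟨c i, ?_, ?_⟩
      · change act x z ∈ B (c.symm (c i))
        rw [Equiv.symm_apply_apply]
        exact hx
      · change s (c.symm (c i)) * x = _
        rw [Equiv.symm_apply_apply]
    set R := Relation.EqvGen (Edge act (fun k => s (c.symm k)) (fun k => B (c.symm k)) z) with hR
    have hquot : ∀ n ∈ N, ∀ m x : G, ((m * (n * x) : G) : G ⧸ N) = ((m * x : G) : G ⧸ N) := by
      intro n hn m x
      rw [QuotientGroup.mk_mul, QuotientGroup.mk_mul, QuotientGroup.mk_mul,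
        (QuotientGroup.eq_one_iff n).2 hn, one_mul]
    have hA : ∀ (i : ℕ) (x : G), ∃ m ∈ M, aQ (m * x) z.1 ∈ D i ∧
        ∀ n ∈ N, R (n * x) (m * (n * x)) := by
      intro i x
      induction i with
      | zero =>
        refine ⟨1, M.one_mem, mem_univ _, fun n _ => ?_⟩
        rw [one_mul]
        exact Relation.EqvGen.refl _
      | succ i ih =>
        obtain ⟨m, hm, h1, h2⟩ := ih
        by_cases h3 : aQ (m * x) z.1 ∈ D (i + 1)
        · exact ⟨m, hm, h3, h2⟩
        · have hex : ∃ j, aQ (e j) (aQ (m * x) z.1) ∈ D (i + 1) := by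
            obtain ⟨m', hm'⟩ := hz1 (m * x) i
            obtain ⟨j, hj⟩ := he m'
            refine ⟨j, ?_⟩
            rw [hj, ← haQmul]
            exact hm'
          refine ⟨e (Nat.find hex) * m, M.mul_mem (e _).2 hm, ?_, fun n hn => ?_⟩
          · rw [mul_assoc, haQmul]
            exact Nat.find_spec hex
          · refine (h2 n hn).trans _ _ _ ?_
            have h4 : aQ (m * (n * x)) z.1 = aQ (m * x) z.1 := haQN _ _ (hquot n hn m x) _
            have h5 := hedge (Sum.inl (i, Nat.find hex)) (m * (n * x)) ⟨?_, mem_univ _⟩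
            · rw [mul_assoc]
              exact h5
            · change aQ (m * (n * x)) z.1 ∈ E (i, Nat.find hex)
              rw [h4]
              exact ⟨h1, h3, Nat.find_spec hex, fun j hj => Nat.find_min hex hj⟩
    have hBN : ∀ n ∈ N, ∀ x : G, R x (n * x) := by
      intro n hn x
      obtain ⟨i, hi⟩ := hnn ⟨n, hn⟩
      obtain ⟨m, hm, h1, h2⟩ := hA (i + 1) x
      have h3 := h2 1 N.one_mem
      rw [one_mul] at h3
      have h4 := hedge (Sum.inr (Sum.inl i)) (m * x) ⟨h1, mem_univ _⟩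
      have h5 : s (Sum.inr (Sum.inl i)) = n := by
        change ((nn i : N) : G) = n
        rw [hi]
      rw [h5, ← mul_assoc, ← hcomm m hm n hn, mul_assoc] at h4
      exact (h3.trans _ _ _ h4).trans _ _ _ ((h2 n hn).symm _ _)
    have hC : ∀ g x : G, R x (g * x) := by
      intro g x
      obtain ⟨k, hk⟩ := hgg g
      obtain ⟨n, hn⟩ := hz2 x k
      have h1 := hBN n n.2 x
      have h2 := hedge (Sum.inr (Sum.inr k)) ((n : G) * x) ⟨mem_univ _, ?_⟩
      · have h3 : s (Sum.inr (Sum.inr k)) = g := hk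
        rw [h3] at h2
        have h4 := hBN (g * n * g⁻¹) ((inferInstance : N.Normal).conj_mem (n : G) n.2 g) (g * x)
        have h5 : g * (n : G) * g⁻¹ * (g * x) = g * ((n : G) * x) := by group
        rw [h5] at h4
        exact (h1.trans _ _ _ h2).trans _ _ _ (h4.symm _ _)
      · change z.2 (((n : G) * x)⁻¹ * 1) < δ / 2 / 2 ^ k
        rw [mul_one]
        exact hn
    intro g
    have := hC g 1
    rwa [mul_one] at this

end Pool.Agent.Lib.MP_354e85_al.Lim
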