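import Pool.Agent.Lib.MP_354e85_al.Lim.AmenCost
import Pool.Agent.Lib.MP_354e85_al.Lim.CheapOne

/-! Cost and finite normal subgroups. -/

open MeasureTheory Set

namespace Pool.Agent.Lib.MP_354e85_al.Lim

open Pool.Agent.Lib.MP_354e85_al

/-- The failure of a lower bound for the cost leaves room. -/
theorem FinNormal_room {Q : Type*} [Group Q] {θ : ℝ} (h : ¬ CostGE Q θ) :
    ∃ θ' : ℝ, θ' < θ ∧ ¬ CostGE Q θ' := by
  unfold CostGE at h
  push Not at h
  obtain ⟨a, h1, hmul, hmp, hfree, A, φ, hA, hφ, hinj, horb, hconn, hsum⟩ := h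
  obtain ⟨r, hr1, hr2⟩ := exists_between hsum
  have hr3 : r ≠ ⊤ := (hr2.trans ENNReal.ofReal_lt_top).ne
  have hpos : 0 ≤ 1 + θ := by
    by_contra hcon
    rw [ENNReal.ofReal_of_nonpos (by linarith)] at hr2
    exact not_lt_bot hr2
  refine ⟨r.toReal - 1, ?_, fun hcost => ?_⟩
  · have := (ENNReal.toReal_lt_toReal hr3 ENNReal.ofReal_ne_top).2 hr2
    rw [ENNReal.toReal_ofReal hpos] at this
    linarith
  · have h2 := hcost a h1 hmul hmp hfree A φ hA hφ hinj horb hconn
    have h3 : (1 : ℝ) + (r.toReal - 1) = r.toReal := by ring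
    rw [h3, ENNReal.ofReal_toReal hr3] at h2
    exact absurd h2 (not_le.2 hr1)

theorem not_costGE_of_finite_normal {G : Type} [Group G] [Countable G] (M : Subgroup G)
    [M.Normal] (hM : Finite M) (θ : ℝ) (hθ : 0 ≤ θ) (h : ¬ CostGE (G ⧸ M) θ) : ¬ CostGE G θ := by
  classical
  intro hcost
  obtain ⟨θ', hθ', hneg⟩ := FinNormal_room h
  obtain ⟨act0, h1, hmul, hmp, htriv, -, s0, D, hD, hsum, hgen⟩ := cheapOne_lift M hneg
  have hpr := prob01
  set lam := volume.restrict (Icc (0 : ℝ) 1) with hlam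
  have hfinM : (M : Set G).Finite := Set.toFinite _
  let U : Finset G := hfinM.toFinset
  have hU : ∀ u, u ∈ U ↔ u ∈ M := fun u => by
    simp only [U, Set.Finite.mem_toFinset, SetLike.mem_coe]
  have h1U : (1 : G) ∈ U := (hU 1).2 M.one_mem
  have hUne : U.Nonempty := ⟨1, h1U⟩
  let V : Finset G := U.erase 1
  let μ : Measure (ℝ × (G → ℝ)) := lam.prod (bern G)
  let act : G → ℝ × (G → ℝ) → ℝ × (G → ℝ) := fun g z => (act0 g z.1, fun h => z.2 (g⁻¹ * h))
  let s : ℕ ⊕ V → G := Sum.elim s0 (fun v => (v : G))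
  let B : ℕ ⊕ V → Set (ℝ × (G → ℝ)) :=
    Sum.elim (fun i => D i ×ˢ argm U 1) (fun v => univ ×ˢ argm U ((v : G)⁻¹))
  have hBm : ∀ i, MeasurableSet (B i) := by
    rintro (i | v)
    · exact (hD i).prod (measurableSet_argm U 1)
    · exact MeasurableSet.univ.prod (measurableSet_argm U _)
  have hone : ∀ z, act 1 z = z := by
    rintro ⟨x, b⟩
    change (act0 1 x, (fun h => b (1⁻¹ * h))) = (x, b)
    rw [h1]
    simp
  have hmul' : ∀ g h z, act (g * h) z = act g (act h z) := by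
    rintro g h ⟨x, b⟩
    refine Prod.ext (hmul g h x) ?_
    funext k
    change b ((g * h)⁻¹ * k) = b (h⁻¹ * (g⁻¹ * k))
    rw [mul_inv_rev, mul_assoc]
  have hmp' : ∀ g, MeasurePreserving (act g) μ μ := fun g => (hmp g).prod (bern_shift g)
  -- the total mass
  have hcard : (1 : ℕ) ≤ U.card := hUne.card_pos
  have hVcard : V.card = U.card - 1 := Finset.card_erase_of_mem h1U
  have hmass : ∑' i, μ (B i) ≤
      (ENNReal.ofReal (1 + θ') + ((U.card - 1 : ℕ) : ENNReal)) * (U.card : ENNReal)⁻¹ := by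
    have hA : ∑' i, μ (B (Sum.inl i)) ≤ ENNReal.ofReal (1 + θ') * (U.card : ENNReal)⁻¹ := by
      have : ∀ i, μ (B (Sum.inl i)) = lam (D i) * bern G (argm U 1) := by
        intro i
        change (lam.prod (bern G)) (D i ×ˢ argm U 1) = _
        rw [Measure.prod_prod]
      rw [tsum_congr this, ENNReal.tsum_mul_right]
      exact mul_le_mul' hsum (argm_le h1U)
    have hB : ∑' v : V, μ (B (Sum.inr v)) ≤ ((U.card - 1 : ℕ) : ENNReal) * (U.card : ENNReal)⁻¹ := by
      have : ∀ v : V, μ (B (Sum.inr v)) ≤ (U.card : ENNReal)⁻¹ := by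
        intro v
        change (lam.prod (bern G)) (univ ×ˢ argm U ((v : G)⁻¹)) ≤ _
        rw [Measure.prod_prod, measure_univ, one_mul]
        refine argm_le ((hU _).2 (M.inv_mem ((hU _).1 ?_)))
        exact Finset.mem_of_mem_erase v.2
      rw [tsum_fintype]
      refine (Finset.sum_le_sum fun v _ => this v).trans (le_of_eq ?_)
      rw [Finset.sum_const, nsmul_eq_mul, Finset.card_univ, Fintype.card_coe, hVcard]
    have h4 : HasSum (fun i => μ (B i)) (∑' i, μ (B (Sum.inl i)) + ∑' v : V, μ (B (Sum.inr v))) := by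
      refine HasSum.sum ?_ ?_
      · exact ENNReal.summable.hasSum
      · exact ENNReal.summable.hasSum
    rw [h4.tsum_eq, add_mul]
    exact add_le_add hA hB
  obtain ⟨hden⟩ := nonempty_denumerable (ℕ ⊕ V)
  let c : ℕ ⊕ V ≃ ℕ := Denumerable.eqv _
  have key := cost_gen hcost μ act hone hmul' hmp' (fun k => s (c.symm k)) (fun k => B (c.symm k))
    (fun k => hBm _) ?_
  · rw [Equiv.tsum_eq c.symm (fun i => μ (B i))] at key
    have h5 := key.trans hmass
    have hUpos : (0 : ℝ) < U.card := by exact_mod_cast hcard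
    have h6 : ENNReal.ofReal ((1 + θ) * U.card) ≤ ENNReal.ofReal (1 + θ') + ((U.card - 1 : ℕ) : ENNReal) := by
      rw [ENNReal.ofReal_mul (by linarith), ENNReal.ofReal_natCast]
      have h7 := mul_le_mul_left h5 (U.card : ENNReal)
      refine h7.trans (le_of_eq ?_)
      rw [mul_assoc, ENNReal.inv_mul_cancel, mul_one]
      · exact_mod_cast (Nat.one_le_iff_ne_zero.1 hcard)
      · exact ENNReal.natCast_ne_top _
    by_cases hθ1 : 0 ≤ 1 + θ'
    · rw [← ENNReal.ofReal_natCast, ← ENNReal.ofReal_add hθ1 (Nat.cast_nonneg _),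
        ENNReal.ofReal_le_ofReal_iff (by positivity), Nat.cast_sub hcard, Nat.cast_one] at h6
      have h8 : (1 : ℝ) ≤ U.card := by exact_mod_cast hcard
      nlinarith
    · rw [ENNReal.ofReal_of_nonpos (by linarith : 1 + θ' ≤ 0), zero_add,
        ← ENNReal.ofReal_natCast,
        ENNReal.ofReal_le_ofReal_iff (by positivity), Nat.cast_sub hcard, Nat.cast_one] at h6
      nlinarith
  · have hg1 : ∀ᵐ z ∂μ, ∀ x : G, ∃ m ∈ M, (fun h => z.2 ((m * x)⁻¹ * h)) ∈ argm U 1 := by
      have h2 : ∀ᵐ b ∂(bern G), ∀ x : G, ∃ m ∈ M, (fun h => b ((m * x)⁻¹ * h)) ∈ argm U 1 := by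
        rw [ae_all_iff]
        intro x
        filter_upwards [(bern_shift x).quasiMeasurePreserving.ae (argm_cover hUne)] with b hb
        obtain ⟨u, hu, hb⟩ := hb
        refine ⟨u⁻¹, M.inv_mem ((hU u).1 hu), ?_⟩
        intro f hf hf1
        have h3 := hb (u * f) ((hU _).2 (M.mul_mem ((hU _).1 hu) ((hU _).1 hf)))
          (fun hc => hf1 (mul_eq_left.1 hc))
        change b ((u⁻¹ * x)⁻¹ * 1) < b ((u⁻¹ * x)⁻¹ * f)
        change b (x⁻¹ * u) < b (x⁻¹ * (u * f)) at h3
        rw [mul_inv_rev, inv_inv, mul_one, mul_assoc]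
        exact h3
      exact Measure.quasiMeasurePreserving_snd.ae h2
    have hg2 : ∀ᵐ z ∂μ, ∀ g : G, ∃ g' : G, g⁻¹ * g' ∈ M ∧
        Relation.EqvGen (Edge act0 s0 D z.1) 1 g' :=
      Measure.quasiMeasurePreserving_fst.ae hgen
    filter_upwards [hg1, hg2] with z hz1 hz2
    have hedge : ∀ (i : ℕ ⊕ V) (x : G), act x z ∈ B i →
        Relation.EqvGen (Edge act (fun k => s (c.symm k)) (fun k => B (c.symm k)) z) x
          (s i * x) := by
      intro i x hx
      refine Relation.EqvGen.rel _ _ ⟨c i, ?_, ?_⟩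
      · change act x z ∈ B (c.symm (c i))
        rw [Equiv.symm_apply_apply]
        exact hx
      · change s (c.symm (c i)) * x = _
        rw [Equiv.symm_apply_apply]
    set R := Relation.EqvGen (Edge act (fun k => s (c.symm k)) (fun k => B (c.symm k)) z) with hR
    have hA : ∀ m ∈ M, ∀ x : G, (fun h => z.2 ((m * x)⁻¹ * h)) ∈ argm U 1 → R x (m * x) := by
      intro m hm x hx
      by_cases hm1 : m = 1
      · rw [hm1, one_mul]
        exact Relation.EqvGen.refl _
      · have hmV : m ∈ V := Finset.mem_erase.2 ⟨hm1, (hU m).2 hm⟩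
        refine hedge (Sum.inr ⟨m, hmV⟩) x ⟨mem_univ _, ?_⟩
        change (fun h => z.2 (x⁻¹ * h)) ∈ argm U (m⁻¹)
        intro f hf hfm
        have h3 := hx (m * f) ((hU _).2 (M.mul_mem hm ((hU _).1 hf)))
          (fun hc => hfm (eq_inv_of_mul_eq_one_right hc))
        change z.2 ((m * x)⁻¹ * 1) < z.2 ((m * x)⁻¹ * (m * f)) at h3
        change z.2 (x⁻¹ * m⁻¹) < z.2 (x⁻¹ * f)
        rw [mul_one, mul_inv_rev, mul_assoc, inv_mul_cancel_left] at h3
        exact h3
    have hB : ∀ m ∈ M, ∀ x : G, R x (m * x) := by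
      intro m hm x
      obtain ⟨m0, hm0, hx⟩ := hz1 x
      refine (hA m0 hm0 x hx).trans _ _ _ (Relation.EqvGen.symm _ _ ?_)
      have h3 := hA (m0 * m⁻¹) (M.mul_mem hm0 (M.inv_mem hm)) (m * x)
      have h4 : m0 * m⁻¹ * (m * x) = m0 * x := by group
      rw [h4] at h3
      exact h3 hx
    have hC : ∀ (i : ℕ) (x : G), act0 x z.1 ∈ D i → R x (s0 i * x) := by
      intro i x hx
      obtain ⟨m0, hm0, hx0⟩ := hz1 x
      have h3 := hedge (Sum.inl i) (m0 * x) ⟨?_, hx0⟩
      · change R (m0 * x) (s0 i * (m0 * x)) at h3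
        have h4 := hB (s0 i * m0 * (s0 i)⁻¹)
          ((inferInstance : M.Normal).conj_mem m0 hm0 (s0 i)) (s0 i * x)
        have h5 : s0 i * m0 * (s0 i)⁻¹ * (s0 i * x) = s0 i * (m0 * x) := by group
        rw [h5] at h4
        exact ((hB m0 hm0 x).trans _ _ _ h3).trans _ _ _ (h4.symm _ _)
      · change act0 (m0 * x) z.1 ∈ D i
        rw [hmul, htriv m0 hm0]
        exact hx
    have hE : ∀ u v : G, Relation.EqvGen (Edge act0 s0 D z.1) u v → R u v := by
      intro u v huv
      induction huv with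
      | rel u v huv =>
        obtain ⟨i, hi, rfl⟩ := huv
        exact hC i u hi
      | refl u => exact Relation.EqvGen.refl _
      | symm u v _ ih => exact ih.symm _ _
      | trans u v w _ _ ih1 ih2 => exact ih1.trans _ _ _ ih2
    intro g
    obtain ⟨g', hg', hgg⟩ := hz2 g
    have h3 := hE 1 g' hgg
    have h4 := hB (g * (g⁻¹ * g') * g⁻¹) ((inferInstance : M.Normal).conj_mem _ hg' g) g
    have h5 : g * (g⁻¹ * g') * g⁻¹ * g = g' := by group
    rw [h5] at h4
    exact h3.trans _ _ _ (h4.symm _ _)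

end Pool.Agent.Lib.MP_354e85_al.Lim
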