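import Mathlib

namespace Pool.Agent.Lib.MP_354e85_al.Lim

/-- A finite family of edges with distinct classes, each of which leaves a set that is not crossed
by the edges of lower class, has fewer members than vertices. -/
theorem forest_card {E α : Type*} [Fintype E] [DecidableEq α] (V : Finset α) (hV : V.Nonempty)
    (s t : E → α) (hs : ∀ e, s e ∈ V) (ht : ∀ e, t e ∈ V) (cls : E → ℕ)
    (hinj : Function.Injective cls)
    (h : ∀ e, ∃ S : Set α, s e ∈ S ∧ t e ∉ S ∧ ∀ e', cls e' < cls e → (s e' ∈ S ↔ t e' ∈ S)) :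
    Fintype.card E + 1 ≤ V.card := by
  classical
  obtain ⟨x0, hx0⟩ := hV
  let v : Option E → (V → ℚ) := fun o => match o with
    | none => Pi.single ⟨x0, hx0⟩ 1
    | some e => Pi.single ⟨t e, ht e⟩ 1 - Pi.single ⟨s e, hs e⟩ 1
  let φ : Set α → (V → ℚ) →ₗ[ℚ] ℚ := fun S =>
    { toFun := fun w => ∑ x : V, if (x : α) ∈ S then w x else 0
      map_add' := by
        intro a b
        rw [← Finset.sum_add_distrib]
        refine Finset.sum_congr rfl fun x _ => ?_
        split_ifs <;> simp
      map_smul' := by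
        intro c a
        simp only [Pi.smul_apply, smul_eq_mul, RingHom.id_apply, Finset.mul_sum]
        refine Finset.sum_congr rfl fun x _ => ?_
        split_ifs <;> simp }
  have hφ1 : ∀ (S : Set α) (x : V), φ S (Pi.single x 1) = if (x : α) ∈ S then 1 else 0 := by
    intro S x
    change (∑ z : V, if (z : α) ∈ S then (Pi.single x 1 : V → ℚ) z else 0) = _
    rw [Finset.sum_eq_single x]
    · simp
    · intro z _ hz
      simp [Pi.single_eq_of_ne hz]
    · intro h; exact absurd (Finset.mem_univ _) h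
  have hφ : ∀ (S : Set α) (e : E), φ S (v (some e)) =
      (if t e ∈ S then 1 else 0) - (if s e ∈ S then 1 else 0) := by
    intro S e
    change φ S (Pi.single ⟨t e, ht e⟩ 1 - Pi.single ⟨s e, hs e⟩ 1) = _
    rw [map_sub, hφ1, hφ1]
  have hφu : φ Set.univ (v none) = 1 := by
    change φ Set.univ (Pi.single ⟨x0, hx0⟩ 1) = 1
    rw [hφ1]
    simp
  have hli : LinearIndependent ℚ v := by
    rw [Fintype.linearIndependent_iff]
    intro c hc
    have hnone : c none = 0 := by
      have h1 : φ Set.univ (∑ i, c i • v i) = 0 := by rw [hc]; simp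
      rw [map_sum, Finset.sum_eq_single none] at h1
      · rw [map_smul, smul_eq_mul, hφu, mul_one] at h1
        exact h1
      · intro o _ ho
        rcases o with _ | e
        · exact absurd rfl ho
        · rw [map_smul, hφ]
          simp
      · intro h; exact absurd (Finset.mem_univ _) h
    -- downward induction on the class
    by_contra hcon
    push Not at hcon
    obtain ⟨o, ho⟩ := hcon
    have hex : ((Finset.univ : Finset E).filter (fun e => c (some e) ≠ 0)).Nonempty := by
      rcases o with _ | e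
      · exact absurd hnone ho
      · exact ⟨e, by simpa using ho⟩
    obtain ⟨e, he, hmax⟩ := Finset.exists_max_image _ cls hex
    simp only [ne_eq, Finset.mem_filter, Finset.mem_univ, true_and] at he hmax
    obtain ⟨S, hS1, hS2, hS3⟩ := h e
    have h1 : φ S (∑ i, c i • v i) = 0 := by rw [hc]; simp
    rw [map_sum, Finset.sum_eq_single (some e)] at h1
    · rw [map_smul, smul_eq_mul, hφ] at h1
      simp only [hS1, hS2, if_true, if_false, zero_sub, mul_neg, mul_one, neg_eq_zero] at h1
      exact he h1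
    · intro o _ ho
      rcases o with _ | e'
      · rw [hnone, zero_smul, map_zero]
      · by_cases hce : c (some e') = 0
        · rw [hce, zero_smul, map_zero]
        · have h2 := hmax e' hce
          have hne : e' ≠ e := fun h => ho (by rw [h])
          have h3 : cls e' < cls e := lt_of_le_of_ne h2 (fun h => hne (hinj h))
          have h4 := hS3 e' h3
          rw [map_smul, hφ]
          by_cases hh : s e' ∈ S
          · simp [hh, h4.1 hh]
          · have : t e' ∉ S := fun h' => hh (h4.2 h')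
            simp [hh, this]
    · intro h; exact absurd (Finset.mem_univ _) h
  have := hli.fintype_card_le_finrank
  rw [Fintype.card_option] at this
  simpa using this

variable {G : Type*} [Group G]

/-- The relation generated by the hub `H` and by the edges `x → c j * x` of class `< k`. -/
def Low {ι : Type*} (H : Subgroup G) (c : ι → G) (κ : G → ι → ℕ) (S : Set ι) (k : ℕ) (x y : G) :
    Prop :=
  (∃ h ∈ H, h * x = y) ∨ ∃ j ∈ S, κ x j < k ∧ c j * x = y

/-- The edge `x → c j * x` is kept if its ends are not joined by hub edges and edges of lower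
class. -/
def Kept {ι : Type*} (H : Subgroup G) (c : ι → G) (κ : G → ι → ℕ) (S : Set ι) (x : G) (j : ι) :
    Prop :=
  ¬ Relation.EqvGen (Low H c κ S (κ x j)) x (c j * x)

/-- The deterministic pair lemma. -/
theorem pair_kept {ι : Type*} (H : Subgroup G) (c : ι → G) (κ : G → ι → ℕ) (S : Set ι)
    (j₁ j₂ : ι) (hj₁ : j₁ ∈ S) (hj₂ : j₂ ∈ S) (B : Finset G) (hB : B.Nonempty)
    (V : Finset (Quotient (QuotientGroup.rightRel H)))
    (hV0 : ∀ b ∈ B, Quotient.mk (QuotientGroup.rightRel H) b ∈ V)
    (hV1 : ∀ b ∈ B, Quotient.mk (QuotientGroup.rightRel H) (c j₁ * b) ∈ V)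
    (hV2 : ∀ b ∈ B, Quotient.mk (QuotientGroup.rightRel H) (c j₂ * b) ∈ V)
    (hdist : ∀ b ∈ B, ∀ b' ∈ B, ∀ j j' : ι, (j = j₁ ∨ j = j₂) → (j' = j₁ ∨ j' = j₂) →
      κ b j = κ b' j' → b = b' ∧ j = j') (hne : j₁ ≠ j₂) :
    {b | b ∈ B ∧ Kept H c κ S b j₁}.ncard + {b | b ∈ B ∧ Kept H c κ S b j₂}.ncard + 1 ≤ V.card := by
  classical
  let K1 : Finset G := B.filter (fun b => Kept H c κ S b j₁)
  let K2 : Finset G := B.filter (fun b => Kept H c κ S b j₂)
  have e1 : {b | b ∈ B ∧ Kept H c κ S b j₁}.ncard = K1.card := by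
    rw [← Set.ncard_coe_finset]
    congr 1
    ext b
    simp [K1]
  have e2 : {b | b ∈ B ∧ Kept H c κ S b j₂}.ncard = K2.card := by
    rw [← Set.ncard_coe_finset]
    congr 1
    ext b
    simp [K2]
  rw [e1, e2]
  let q : G → Quotient (QuotientGroup.rightRel H) := Quotient.mk (QuotientGroup.rightRel H)
  let E := K1 ⊕ K2
  let pt : E → G := Sum.elim (fun b => (b : G)) (fun b => (b : G))
  let jj : E → ι := Sum.elim (fun _ => j₁) (fun _ => j₂)
  have hpt : ∀ e : E, pt e ∈ B := by
    rintro (e | e)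
    · exact (Finset.mem_filter.1 e.2).1
    · exact (Finset.mem_filter.1 e.2).1
  have hjj : ∀ e : E, jj e = j₁ ∨ jj e = j₂ := by
    rintro (e | e)
    · exact Or.inl rfl
    · exact Or.inr rfl
  have hjS : ∀ e : E, jj e ∈ S := by
    rintro (e | e)
    · exact hj₁
    · exact hj₂
  have hk : ∀ e : E, Kept H c κ S (pt e) (jj e) := by
    rintro (e | e)
    · exact (Finset.mem_filter.1 e.2).2
    · exact (Finset.mem_filter.1 e.2).2
  have hE : Fintype.card E = K1.card + K2.card := by
    rw [Fintype.card_sum, Fintype.card_coe, Fintype.card_coe]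
  rw [← hE]
  obtain ⟨b0, hb0⟩ := hB
  refine forest_card V ⟨q b0, hV0 b0 hb0⟩ (fun e => q (pt e)) (fun e => q (c (jj e) * pt e))
    (fun e => hV0 _ (hpt e)) (fun e => ?_) (fun e => κ (pt e) (jj e)) ?_ ?_
  · rcases hjj e with h | h
    · rw [h]; exact hV1 _ (hpt e)
    · rw [h]; exact hV2 _ (hpt e)
  · intro e e' hee
    obtain ⟨h1, h2⟩ := hdist _ (hpt e) _ (hpt e') _ _ (hjj e) (hjj e') hee
    rcases e with e | e <;> rcases e' with e' | e'
    · exact congrArg Sum.inl (Subtype.ext h1)
    · exact absurd h2 hne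
    · exact absurd h2.symm hne
    · exact congrArg Sum.inr (Subtype.ext h1)
  · intro e
    have hcl : ∀ x h, h ∈ H → Relation.EqvGen (Low H c κ S (κ (pt e) (jj e))) (h * x) x := by
      intro x h hh
      have h1 : Low H c κ S (κ (pt e) (jj e)) x (h * x) := Or.inl ⟨h, hh, rfl⟩
      exact (Relation.EqvGen.rel _ _ h1).symm _ _
    have hq : ∀ x y : G, q x = q y → Relation.EqvGen (Low H c κ S (κ (pt e) (jj e))) x y := by
      intro x y hxy
      have h1 := Quotient.exact hxy
      have h2 : y * x⁻¹ ∈ H := QuotientGroup.rightRel_apply.1 h1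
      have h3 := hcl x _ h2
      rw [inv_mul_cancel_right] at h3
      exact h3.symm _ _
    refine ⟨{a | ∃ x, q x = a ∧ Relation.EqvGen (Low H c κ S (κ (pt e) (jj e))) (pt e) x},
      ⟨pt e, rfl, Relation.EqvGen.refl _⟩, ?_, ?_⟩
    · rintro ⟨x, hx1, hx2⟩
      exact hk e (hx2.trans _ _ _ (hq _ _ hx1))
    · intro e' he'
      have hedge : Relation.EqvGen (Low H c κ S (κ (pt e) (jj e))) (pt e') (c (jj e') * pt e') :=
        Relation.EqvGen.rel _ _ (Or.inr ⟨jj e', hjS e', he', rfl⟩)
      constructor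
      · rintro ⟨x, hx1, hx2⟩
        exact ⟨c (jj e') * pt e', rfl, (hx2.trans _ _ _ (hq _ _ hx1)).trans _ _ _ hedge⟩
      · rintro ⟨x, hx1, hx2⟩
        exact ⟨pt e', rfl, (hx2.trans _ _ _ (hq _ _ hx1)).trans _ _ _ (hedge.symm _ _)⟩

end Pool.Agent.Lib.MP_354e85_al.Lim
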