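import Pool.Agent.Lib.MP_354e85_al.Lim.Gauge
import Pool.Agent.Lib.MP_354e85_al.Lim.Meas

open MeasureTheory Set

namespace Pool.Agent.Lib.MP_354e85_al.Lim

open Pool.Agent.Lib.MP_354e85_al

section

variable {G : Type*} [Group G] {Z : Type*} (act : G → Z → Z)

/-- General edges: for `z ∈ D i` the points `σ i z • z` and `τ i z • z` are joined. -/
def GE {ι : Type*} (D : ι → Set Z) (σ τ : ι → Z → G) (z : Z) (x y : G) : Prop :=
  ∃ i, ∃ u : G, act u z ∈ D i ∧ σ i (act u z) * u = x ∧ τ i (act u z) * u = y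

/-- The labels of the constant label family attached to general edges. -/
def cLab {ι : Type*} (k : ι × G × G) : G := k.2.2 * k.2.1⁻¹

/-- The domains of the constant label family attached to general edges. -/
def cDom {ι : Type*} (D : ι → Set Z) (σ τ : ι → Z → G) (k : ι × G × G) : Set Z :=
  act k.2.1⁻¹ ⁻¹' (D k.1 ∩ ({z | σ k.1 z = k.2.1} ∩ {z | τ k.1 z = k.2.2}))

theorem edge_iff_ge (hmul : ∀ g h z, act (g * h) z = act g (act h z)) {ι : Type*}
    (D : ι → Set Z) (σ τ : ι → Z → G) (z : Z) (x y : G) :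
    Edge act (cLab (ι := ι)) (cDom act D σ τ) z x y ↔ GE act D σ τ z x y := by
  constructor
  · rintro ⟨⟨i, g, h⟩, h1, h2⟩
    obtain ⟨hD, hs, ht⟩ : act g⁻¹ (act x z) ∈ D i ∩ ({z | σ i z = g} ∩ {z | τ i z = h}) := h1
    rw [← hmul] at hD hs ht
    refine ⟨i, g⁻¹ * x, hD, ?_, ?_⟩
    · rw [show σ i (act (g⁻¹ * x) z) = g from hs]
      group
    · rw [show τ i (act (g⁻¹ * x) z) = h from ht, ← h2]
      simp only [cLab]
      group
  · rintro ⟨i, u, h1, h2, h3⟩
    refine ⟨(i, σ i (act u z), τ i (act u z)), ?_, ?_⟩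
    · change act (σ i (act u z))⁻¹ (act x z) ∈ D i ∩ ({w | σ i w = σ i (act u z)} ∩
        {w | τ i w = τ i (act u z)})
      have h4 : act (σ i (act u z))⁻¹ (act x z) = act u z := by
        rw [← hmul, ← h2, inv_mul_cancel_left]
      rw [h4]
      exact ⟨h1, rfl, rfl⟩
    · simp only [cLab]
      rw [← h2, ← h3]
      group

theorem edge_act (hmul : ∀ g h z, act (g * h) z = act g (act h z)) {ι : Type*} (s : ι → G)
    (B : ι → Set Z) (u : G) (z : Z) (x y : G) :
    Edge act s B (act u z) x y ↔ Edge act s B z (x * u) (y * u) := by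
  unfold Edge
  simp only [hmul, ← mul_assoc, mul_left_inj]

theorem ge_act (hmul : ∀ g h z, act (g * h) z = act g (act h z)) {ι : Type*}
    (D : ι → Set Z) (σ τ : ι → Z → G) (u : G) (z : Z) (x y : G) :
    GE act D σ τ (act u z) x y ↔ GE act D σ τ z (x * u) (y * u) := by
  rw [← edge_iff_ge act hmul, ← edge_iff_ge act hmul, edge_act act hmul]

/-- Base change for the generated equivalence relations. -/
theorem eqvGen_base {R R' : G → G → Prop} (u : G) (h : ∀ x y, R' x y ↔ R (x * u) (y * u))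
    (x y : G) : Relation.EqvGen R' x y ↔ Relation.EqvGen R (x * u) (y * u) := by
  constructor
  · intro hxy
    induction hxy with
    | rel x y hr => exact Relation.EqvGen.rel _ _ ((h x y).1 hr)
    | refl x => exact Relation.EqvGen.refl _
    | symm x y _ ih => exact ih.symm _ _
    | trans x y z _ _ ih1 ih2 => exact ih1.trans _ _ _ ih2
  · intro hxy
    have key : ∀ x' y' : G, Relation.EqvGen R x' y' →
        Relation.EqvGen R' (x' * u⁻¹) (y' * u⁻¹) := by
      intro x' y' hxy
      induction hxy with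
      | rel x y hr =>
        apply Relation.EqvGen.rel
        rw [h]
        simpa using hr
      | refl x => exact Relation.EqvGen.refl _
      | symm x y _ ih => exact ih.symm _ _
      | trans x y z _ _ ih1 ih2 => exact ih1.trans _ _ _ ih2
    simpa using key _ _ hxy

theorem eqvGen_mono' {α : Type*} {R R' : α → α → Prop}
    (h : ∀ x y, R x y → Relation.EqvGen R' x y) {x y : α} (hxy : Relation.EqvGen R x y) :
    Relation.EqvGen R' x y := by
  induction hxy with
  | rel x y hr => exact h _ _ hr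
  | refl x => exact Relation.EqvGen.refl _
  | symm x y _ ih => exact ih.symm _ _
  | trans x y z _ _ ih1 ih2 => exact ih1.trans _ _ _ ih2

theorem eqvGen_map {α β : Type*} {R : α → α → Prop} {R' : β → β → Prop} (f : α → β)
    (h : ∀ x y, R x y → Relation.EqvGen R' (f x) (f y)) {x y : α} (hxy : Relation.EqvGen R x y) :
    Relation.EqvGen R' (f x) (f y) := by
  induction hxy with
  | rel x y hr => exact h _ _ hr
  | refl x => exact Relation.EqvGen.refl _
  | symm x y _ ih => exact ih.symm _ _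
  | trans x y z _ _ ih1 ih2 => exact ih1.trans _ _ _ ih2

theorem eqvGen_congr {α : Type*} {R R' : α → α → Prop} (h : ∀ x y, R x y ↔ R' x y) (x y : α) :
    Relation.EqvGen R x y ↔ Relation.EqvGen R' x y :=
  ⟨eqvGen_mono' fun x y hr => Relation.EqvGen.rel _ _ ((h x y).1 hr),
    eqvGen_mono' fun x y hr => Relation.EqvGen.rel _ _ ((h x y).2 hr)⟩

/-- Measurability of a function with values in the countable group. -/
def MG {G Z : Type*} [MeasurableSpace Z] (σ : Z → G) : Prop := ∀ g, MeasurableSet {z | σ z = g}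

variable [MeasurableSpace Z] (μ : Measure Z)

theorem cDom_meas (hmp : ∀ g, MeasurePreserving (act g) μ μ) {ι : Type*} (D : ι → Set Z)
    (σ τ : ι → Z → G) (hD : ∀ i, MeasurableSet (D i)) (hσ : ∀ i, MG (σ i)) (hτ : ∀ i, MG (τ i))
    (k : ι × G × G) : MeasurableSet (cDom act D σ τ k) :=
  (hmp _).measurable ((hD _).inter ((hσ _ _).inter (hτ _ _)))

theorem tsum_cDom [Countable G] (hmp : ∀ g, MeasurePreserving (act g) μ μ) {ι : Type*}
    (D : ι → Set Z) (σ τ : ι → Z → G) (hD : ∀ i, MeasurableSet (D i)) (hσ : ∀ i, MG (σ i))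
    (hτ : ∀ i, MG (τ i)) :
    ∑' k, μ (cDom act D σ τ k) = ∑' i, μ (D i) := by
  rw [ENNReal.tsum_prod (f := fun i (gh : G × G) => μ (cDom act D σ τ (i, gh)))]
  refine tsum_congr fun i => ?_
  have h1 : ∀ gh : G × G, μ (cDom act D σ τ (i, gh)) =
      μ (D i ∩ ({z | σ i z = gh.1} ∩ {z | τ i z = gh.2})) := fun gh =>
    (hmp _).measure_preimage ((hD _).inter ((hσ _ _).inter (hτ _ _))).nullMeasurableSet
  simp only [h1]
  rw [← measure_iUnion]
  · congr 1
    ext z
    simp only [mem_iUnion, mem_inter_iff, mem_ofPred_eq, Prod.exists]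
    constructor
    · rintro ⟨g, h, hz, _⟩; exact hz
    · intro hz; exact ⟨_, _, hz, rfl, rfl⟩
  · intro a b hab
    rw [Function.onFun, Set.disjoint_left]
    rintro z ⟨_, h2, h3⟩ ⟨_, h4, h5⟩
    exact hab (Prod.ext (h2.symm.trans h4) (h3.symm.trans h5))
  · intro gh
    exact (hD _).inter ((hσ _ _).inter (hτ _ _))

end

end Pool.Agent.Lib.MP_354e85_al.Lim
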