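import Pool.Agent.Lib.MP_354e85_al.Lim.CostGen

open MeasureTheory Set

namespace Pool.Agent.Lib.MP_354e85_al.Lim

open Pool.Agent.Lib.MP_354e85_al

/-- Measurable selection from a countable cover. -/
theorem exists_choice {Z κ : Type*} [MeasurableSpace Z] [Countable κ] [Nonempty κ] (C : κ → Set Z)
    (hC : ∀ e, MeasurableSet (C e)) :
    ∃ f : Z → κ, (∀ e, MeasurableSet {z | f z = e}) ∧ ∀ z, (∃ e, z ∈ C e) → z ∈ C (f z) := by
  classical
  obtain ⟨en, hen⟩ := exists_surjective_nat κ
  let D : ℕ → Set Z := fun n => C (en n)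
  let f : Z → κ := fun z => if h : ∃ n, z ∈ D n then en (Nat.find h) else en 0
  refine ⟨f, ?_, ?_⟩
  · intro e
    let U : Set Z := ⋃ n, D n
    have hU : MeasurableSet U := MeasurableSet.iUnion fun n => hC _
    let F : ℕ → Set Z := fun n => D n \ ⋃ m ∈ Finset.range n, D m
    have hF : ∀ n, MeasurableSet (F n) := fun n =>
      (hC _).diff (Finset.measurableSet_biUnion _ fun m _ => hC _)
    have hset : {z | f z = e} = (⋃ n, (F n ∩ {_z | en n = e})) ∪ (Uᶜ ∩ {_z | en 0 = e}) := by
      ext z
      by_cases h : ∃ n, z ∈ D n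
      · have hfz : f z = en (Nat.find h) := by simp only [f, dif_pos h]
        have hzU : z ∈ U := mem_iUnion.2 h
        simp only [mem_ofPred_eq, hfz, mem_union, mem_iUnion, mem_inter_iff, mem_compl_iff, hzU,
          not_true, false_and, or_false, F, mem_sdiff, Finset.mem_range, exists_prop, not_exists,
          not_and]
        constructor
        · intro he
          exact ⟨Nat.find h, ⟨Nat.find_spec h, fun m hm => Nat.find_min h hm⟩, he⟩
        · rintro ⟨n, ⟨hn1, hn2⟩, hn3⟩
          have : Nat.find h = n := by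
            rw [Nat.find_eq_iff]
            exact ⟨hn1, fun m hm => hn2 m hm⟩
          rw [this]
          exact hn3
      · have hfz : f z = en 0 := by simp only [f, dif_neg h]
        have hzU : z ∉ U := fun h' => h (mem_iUnion.1 h')
        simp only [mem_ofPred_eq, hfz, mem_union, mem_iUnion, mem_inter_iff, mem_compl_iff, hzU,
          not_false_eq_true, true_and, F, mem_sdiff]
        constructor
        · intro he; exact Or.inr he
        · rintro (⟨n, ⟨hn1, _⟩, _⟩ | h')
          · exact absurd ⟨n, hn1⟩ h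
          · exact h'
    rw [hset]
    exact (MeasurableSet.iUnion fun n => (hF n).inter (MeasurableSet.const _)).union
      (hU.compl.inter (MeasurableSet.const _))
  · rintro z ⟨e, he⟩
    obtain ⟨n, rfl⟩ := hen e
    have h : ∃ n, z ∈ D n := ⟨n, he⟩
    have hfz : f z = en (Nat.find h) := by simp only [f, dif_pos h]
    rw [hfz]
    exact Nat.find_spec h

section

variable {G : Type*} [Group G] {Z : Type*} [MeasurableSpace Z] (μ : Measure Z)
  (act : G → Z → Z) {ι : Type*} [Countable ι] (s : ι → G) (B : ι → Set Z) (Y : Set Z)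

/-- The label of a directed edge. -/
def dlab (s : ι → G) (e : ι × Bool) : G := if e.2 then s e.1 else (s e.1)⁻¹

/-- The domain of a directed edge. -/
def ddom (act : G → Z → Z) (s : ι → G) (B : ι → Set Z) (e : ι × Bool) : Set Z :=
  if e.2 then B e.1 else {z | act (s e.1)⁻¹ z ∈ B e.1}

/-- The gauge theorem: a spanning forest of a family of edges directed towards `Y`. -/
theorem gauge (h1 : ∀ z, act 1 z = z)
    (hmul : ∀ g h z, act (g * h) z = act g (act h z))
    (hmp : ∀ g, MeasurePreserving (act g) μ μ)
    (hB : ∀ i, MeasurableSet (B i)) (hY : MeasurableSet Y) :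
    ∃ (ρ : Z → G) (sel : ι → Set Z),
      (∀ g, MeasurableSet {z | ρ z = g}) ∧ (∀ i, MeasurableSet (sel i)) ∧ (∀ i, sel i ⊆ B i) ∧
      (∀ z ∈ Y, ρ z = 1) ∧
      (∀ z, (∃ g, Relation.EqvGen (Edge act s B z) 1 g ∧ act g z ∈ Y) → act (ρ z) z ∈ Y) ∧
      (∀ i, ∀ z ∈ sel i, ρ z = ρ (act (s i) z) * s i) ∧
      ((∀ᵐ z ∂μ, ∃ g, Relation.EqvGen (Edge act s B z) 1 g ∧ act g z ∈ Y) →
        μ Yᶜ ≤ ∑' i, μ (sel i)) := by
  classical
  rcases isEmpty_or_nonempty ι with hι | hι
  · -- no edges
    refine ⟨fun _ => 1, fun _ => ∅, fun g => MeasurableSet.const _, fun _ => MeasurableSet.empty,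
      fun _ => empty_subset _, fun _ _ => rfl, ?_, fun i => (hι.false i).elim, ?_⟩
    · rintro z ⟨g, hg, hgY⟩
      have : ∀ x y : G, Relation.EqvGen (Edge act s B z) x y → x = y := by
        intro x y h
        induction h with
        | rel x y h => obtain ⟨i, _⟩ := h; exact (hι.false i).elim
        | refl x => rfl
        | symm x y _ ih => exact ih.symm
        | trans x y z _ _ ih1 ih2 => exact ih1.trans ih2
      rw [this _ _ hg]
      exact hgY
    · intro hae
      have : μ Yᶜ = 0 := by
        have h2 : ∀ᵐ z ∂μ, z ∈ Y := by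
          filter_upwards [hae] with z hz
          obtain ⟨g, hg, hgY⟩ := hz
          have : ∀ x y : G, Relation.EqvGen (Edge act s B z) x y → x = y := by
            intro x y h
            induction h with
            | rel x y h => obtain ⟨i, _⟩ := h; exact (hι.false i).elim
            | refl x => rfl
            | symm x y _ ih => exact ih.symm
            | trans x y z _ _ ih1 ih2 => exact ih1.trans ih2
          rw [← this _ _ hg, h1] at hgY
          exact hgY
        exact h2
      rw [this]
      exact bot_le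
  -- selection at each level
  have hddm : ∀ e, MeasurableSet (ddom act s B e) := by
    rintro ⟨i, b⟩
    cases b
    · exact (hmp _).measurable (hB i)
    · exact hB i
  let C : Set Z → ι × Bool → Set Z := fun T e => ddom act s B e ∩ {z | act (dlab s e) z ∈ T}
  have hCm : ∀ T, MeasurableSet T → ∀ e, MeasurableSet (C T e) := fun T hT e =>
    (hddm e).inter ((hmp _).measurable hT)
  have hch : ∀ T : Set Z, ∃ f : Z → ι × Bool, (MeasurableSet T → ∀ e, MeasurableSet {z | f z = e}) ∧
      ∀ z, (∃ e, z ∈ C T e) → z ∈ C T (f z) := by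
    intro T
    by_cases hT : MeasurableSet T
    · obtain ⟨f, hf1, hf2⟩ := exists_choice (C T) (hCm T hT)
      exact ⟨f, fun _ => hf1, hf2⟩
    · have e0 : ι × Bool := Classical.arbitrary _
      refine ⟨fun z => if h : ∃ e, z ∈ C T e then h.choose else e0, fun h => absurd h hT, ?_⟩
      intro z hz
      simp only [dif_pos hz]
      exact hz.choose_spec
  choose f hf1 hf2 using hch
  -- levels: pairs (union of the earlier levels, level)
  let st : ℕ → Set Z × Set Z := fun n => Nat.rec (Y, Y)
    (fun _ p => (p.1 ∪ ((⋃ e, C p.2 e) \ p.1), (⋃ e, C p.2 e) \ p.1)) n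
  let U : ℕ → Set Z := fun n => (st n).1
  let T : ℕ → Set Z := fun n => (st n).2
  have hU0 : U 0 = Y := rfl
  have hT0 : T 0 = Y := rfl
  have hT1 : ∀ n, T (n + 1) = (⋃ e, C (T n) e) \ U n := fun n => rfl
  have hU1 : ∀ n, U (n + 1) = U n ∪ T (n + 1) := fun n => rfl
  have hmeas : ∀ n, MeasurableSet (U n) ∧ MeasurableSet (T n) := by
    intro n
    induction n with
    | zero => exact ⟨hY, hY⟩
    | succ n ih =>
      have h2 : MeasurableSet (T (n + 1)) := by
        rw [hT1]
        exact (MeasurableSet.iUnion fun e => hCm _ ih.2 e).diff ih.1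
      exact ⟨by rw [hU1]; exact ih.1.union h2, h2⟩
  have hTU : ∀ n, T n ⊆ U n := by
    intro n
    cases n with
    | zero => exact subset_rfl
    | succ n => rw [hU1]; exact subset_union_right
  have hUmono : ∀ n m, n ≤ m → U n ⊆ U m := by
    intro n m hnm
    induction hnm with
    | refl => exact subset_rfl
    | step _ ih => exact ih.trans (by rw [hU1]; exact subset_union_left)
  have hdisj : ∀ n m, n < m → ∀ z, z ∈ T n → z ∉ T m := by
    intro n m hnm z hz hz'
    obtain ⟨m, rfl⟩ : ∃ k, m = k + 1 := ⟨m - 1, by omega⟩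
    rw [hT1] at hz'
    exact hz'.2 (hUmono n m (by omega) (hTU n hz))
  have huniq : ∀ n m z, z ∈ T n → z ∈ T m → n = m := by
    intro n m z hn hm
    rcases Nat.lt_trichotomy n m with h | h | h
    · exact absurd hm (hdisj n m h z hn)
    · exact h
    · exact absurd hn (hdisj m n h z hm)
  have hUT : ∀ n z, z ∈ U n → ∃ k, k ≤ n ∧ z ∈ T k := by
    intro n
    induction n with
    | zero => intro z hz; exact ⟨0, le_rfl, hz⟩
    | succ n ih =>
      intro z hz
      rw [hU1] at hz
      rcases hz with hz | hz
      · obtain ⟨k, hk, hk'⟩ := ih z hz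
        exact ⟨k, by omega, hk'⟩
      · exact ⟨n + 1, le_rfl, hz⟩
  -- the potential
  let R : ℕ → Z → G := fun n => Nat.rec (fun _ => 1)
    (fun n r z => r (act (dlab s (f (T n) z)) z) * dlab s (f (T n) z)) n
  have hR0 : ∀ z, R 0 z = 1 := fun z => rfl
  have hR1 : ∀ n z, R (n + 1) z = R n (act (dlab s (f (T n) z)) z) * dlab s (f (T n) z) :=
    fun n z => rfl
  have hRm : ∀ n g, MeasurableSet {z | R n z = g} := by
    intro n
    induction n with
    | zero =>
      intro g
      exact MeasurableSet.const ((1 : G) = g)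
    | succ n ih =>
      intro g
      have : {z | R (n + 1) z = g} = ⋃ e : ι × Bool, ({z | f (T n) z = e} ∩
          (act (dlab s e) ⁻¹' {z | R n z = g * (dlab s e)⁻¹})) := by
        ext z
        simp only [mem_ofPred_eq, mem_iUnion, mem_inter_iff, mem_preimage]
        constructor
        · intro h
          refine ⟨f (T n) z, rfl, ?_⟩
          rw [eq_mul_inv_iff_mul_eq]
          exact h
        · rintro ⟨e, he, h⟩
          rw [hR1, he, h]
          group
      rw [this]
      exact MeasurableSet.iUnion fun e => (hf1 _ (hmeas n).2 e).inter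
        ((hmp _).measurable (ih _))
  let lev : Z → ℕ := fun z => if h : ∃ n, z ∈ T n then Nat.find h else 0
  have hlev : ∀ n z, z ∈ T n → lev z = n := by
    intro n z hz
    have h : ∃ n, z ∈ T n := ⟨n, hz⟩
    simp only [lev, dif_pos h]
    exact huniq _ _ z (Nat.find_spec h) hz
  let ρ : Z → G := fun z => if ∃ n, z ∈ T n then R (lev z) z else 1
  have hρ : ∀ n z, z ∈ T n → ρ z = R n z := by
    intro n z hz
    have h : ∃ n, z ∈ T n := ⟨n, hz⟩
    simp only [ρ, if_pos h, hlev n z hz]
  have hTC : ∀ n z, z ∈ T (n + 1) → z ∈ C (T n) (f (T n) z) := by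
    intro n z hz
    rw [hT1] at hz
    exact hf2 _ z (mem_iUnion.1 hz.1)
  have hroot : ∀ n z, z ∈ T n → act (R n z) z ∈ Y := by
    intro n
    induction n with
    | zero => intro z hz; rw [hR0, h1]; exact hz
    | succ n ih =>
      intro z hz
      rw [hR1, hmul]
      exact ih _ (hTC n z hz).2
  let sel : ι → Set Z := fun i =>
    (⋃ n, (T (n + 1) ∩ {z | f (T n) z = (i, true)})) ∪
      (act (s i) ⁻¹' ⋃ n, (T (n + 1) ∩ {z | f (T n) z = (i, false)}))
  have hselm1 : ∀ i b, MeasurableSet (⋃ n, (T (n + 1) ∩ {z | f (T n) z = (i, b)})) := fun i b =>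
    MeasurableSet.iUnion fun n => (hmeas (n + 1)).2.inter (hf1 _ (hmeas n).2 _)
  have hinvact : ∀ g z, act g⁻¹ (act g z) = z := by
    intro g z
    rw [← hmul, inv_mul_cancel, h1]
  refine ⟨ρ, sel, ?_, ?_, ?_, ?_, ?_, ?_, ?_⟩
  · intro g
    have : {z | ρ z = g} = (⋃ n, (T n ∩ {z | R n z = g})) ∪
        ((⋃ n, T n)ᶜ ∩ {_z | (1 : G) = g}) := by
      ext z
      by_cases h : ∃ n, z ∈ T n
      · obtain ⟨n, hn⟩ := h
        simp only [mem_ofPred_eq, hρ n z hn, mem_union, mem_iUnion, mem_inter_iff, mem_compl_iff]
        constructor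
        · intro h; exact Or.inl ⟨n, hn, h⟩
        · rintro (⟨m, hm, hm'⟩ | ⟨h, _⟩)
          · rw [huniq n m z hn hm]; exact hm'
          · exact absurd ⟨n, hn⟩ h
      · have : ρ z = 1 := by simp only [ρ, if_neg h]
        simp only [mem_ofPred_eq, this, mem_union, mem_iUnion, mem_inter_iff, mem_compl_iff, h,
          not_false_eq_true, true_and]
        constructor
        · intro h'; exact Or.inr h'
        · rintro (⟨m, hm, _⟩ | h')
          · exact absurd ⟨m, hm⟩ h
          · exact h'
    rw [this]
    exact (MeasurableSet.iUnion fun n => (hmeas n).2.inter (hRm n g)).union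
      ((MeasurableSet.iUnion fun n => (hmeas n).2).compl.inter (MeasurableSet.const _))
  · intro i
    exact (hselm1 i true).union ((hmp _).measurable (hselm1 i false))
  · intro i z hz
    rcases hz with hz | hz
    · obtain ⟨n, hn1, hn2⟩ := mem_iUnion.1 hz
      have := (hTC n z hn1).1
      rw [show f (T n) z = (i, true) from hn2] at this
      exact this
    · obtain ⟨n, hn1, hn2⟩ := mem_iUnion.1 (mem_preimage.1 hz)
      have := (hTC n _ hn1).1
      rw [show f (T n) (act (s i) z) = (i, false) from hn2] at this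
      change act (s i)⁻¹ (act (s i) z) ∈ B i at this
      rwa [hinvact] at this
  · intro z hz
    rw [hρ 0 z hz, hR0]
  · rintro z ⟨g, hg, hgY⟩
    -- the set of points in some level is closed under edges
    have hedge : ∀ e z n, z ∈ ddom act s B e → act (dlab s e) z ∈ T n → ∃ k, z ∈ T k := by
      intro e z n hz1 hz2
      by_cases h : z ∈ U n
      · obtain ⟨k, _, hk⟩ := hUT n z h
        exact ⟨k, hk⟩
      · exact ⟨n + 1, by rw [hT1]; exact ⟨mem_iUnion.2 ⟨e, hz1, hz2⟩, h⟩⟩
    have hcl : ∀ x y : G, Relation.EqvGen (Edge act s B z) x y →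
        ((∃ n, act x z ∈ T n) ↔ ∃ n, act y z ∈ T n) := by
      intro x y hxy
      induction hxy with
      | rel x y h =>
        obtain ⟨i, hi, rfl⟩ := h
        constructor
        · rintro ⟨n, hn⟩
          refine hedge (i, false) _ n ?_ ?_
          · change act (s i)⁻¹ (act (s i * x) z) ∈ B i
            rw [hmul, hinvact]
            exact hi
          · change act (s i)⁻¹ (act (s i * x) z) ∈ T n
            rw [hmul, hinvact]
            exact hn
        · rintro ⟨n, hn⟩
          refine hedge (i, true) _ n hi ?_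
          change act (s i) (act x z) ∈ T n
          rw [← hmul]
          exact hn
      | refl x => exact Iff.rfl
      | symm x y _ ih => exact ih.symm
      | trans x y z _ _ ih1 ih2 => exact ih1.trans ih2
    obtain ⟨n, hn⟩ := (hcl _ _ hg).2 ⟨0, hgY⟩
    rw [h1] at hn
    rw [hρ n z hn]
    exact hroot n z hn
  · intro i z hz
    rcases hz with hz | hz
    · obtain ⟨n, hn1, hn2⟩ := mem_iUnion.1 hz
      have h2 := (hTC n z hn1).2
      have h3 : f (T n) z = (i, true) := hn2
      rw [h3] at h2
      change act (s i) z ∈ T n at h2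
      rw [hρ (n + 1) z hn1, hR1, h3, hρ n _ h2]
      rfl
    · obtain ⟨n, hn1, hn2⟩ := mem_iUnion.1 (mem_preimage.1 hz)
      have h2 := (hTC n _ hn1).2
      have h3 : f (T n) (act (s i) z) = (i, false) := hn2
      rw [h3] at h2
      change act (s i)⁻¹ (act (s i) z) ∈ T n at h2
      rw [hinvact] at h2
      rw [hρ (n + 1) _ hn1, hR1, h3, hρ n z h2]
      change R n z = R n (act (s i)⁻¹ (act (s i) z)) * (s i)⁻¹ * s i
      rw [hinvact]
      group
  · intro hae
    let A : ι × Bool → Set Z := fun e => ⋃ n, (T (n + 1) ∩ {z | f (T n) z = e})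
    have hcover : ∀ᵐ z ∂μ, z ∈ Yᶜ → z ∈ ⋃ e, A e := by
      filter_upwards [hae] with z hz hzY
      obtain ⟨g, hg, hgY⟩ := hz
      have hedge : ∀ e z n, z ∈ ddom act s B e → act (dlab s e) z ∈ T n → ∃ k, z ∈ T k := by
        intro e z n hz1 hz2
        by_cases h : z ∈ U n
        · obtain ⟨k, _, hk⟩ := hUT n z h
          exact ⟨k, hk⟩
        · exact ⟨n + 1, by rw [hT1]; exact ⟨mem_iUnion.2 ⟨e, hz1, hz2⟩, h⟩⟩
      have hcl : ∀ x y : G, Relation.EqvGen (Edge act s B z) x y →
          ((∃ n, act x z ∈ T n) ↔ ∃ n, act y z ∈ T n) := by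
        intro x y hxy
        induction hxy with
        | rel x y h =>
          obtain ⟨i, hi, rfl⟩ := h
          constructor
          · rintro ⟨n, hn⟩
            refine hedge (i, false) _ n ?_ ?_
            · change act (s i)⁻¹ (act (s i * x) z) ∈ B i
              rw [hmul, hinvact]
              exact hi
            · change act (s i)⁻¹ (act (s i * x) z) ∈ T n
              rw [hmul, hinvact]
              exact hn
          · rintro ⟨n, hn⟩
            refine hedge (i, true) _ n hi ?_
            change act (s i) (act x z) ∈ T n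
            rw [← hmul]
            exact hn
        | refl x => exact Iff.rfl
        | symm x y _ ih => exact ih.symm
        | trans x y z _ _ ih1 ih2 => exact ih1.trans ih2
      obtain ⟨n, hn⟩ := (hcl _ _ hg).2 ⟨0, hgY⟩
      rw [h1] at hn
      cases n with
      | zero => exact absurd hn hzY
      | succ n =>
        exact mem_iUnion.2 ⟨f (T n) z, mem_iUnion.2 ⟨n, hn, rfl⟩⟩
    calc μ Yᶜ ≤ μ (⋃ e, A e) := measure_mono_ae hcover
      _ ≤ ∑' e, μ (A e) := measure_iUnion_le _
      _ = ∑' i, ∑' b, μ (A (i, b)) :=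
          ENNReal.tsum_prod (f := fun i b => μ (A (i, b)))
      _ ≤ ∑' i, μ (sel i) := by
          refine ENNReal.tsum_le_tsum fun i => ?_
          rw [tsum_bool]
          have hpre : μ (act (s i) ⁻¹' A (i, false)) = μ (A (i, false)) :=
            (hmp _).measure_preimage (hselm1 i false).nullMeasurableSet
          rw [← hpre, add_comm]
          have hdj : Disjoint (A (i, true)) (act (s i) ⁻¹' A (i, false)) := by
            rw [Set.disjoint_left]
            intro z hz1 hz2
            obtain ⟨n, hn1, hn2⟩ := mem_iUnion.1 hz1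
            obtain ⟨m, hm1, hm2⟩ := mem_iUnion.1 (mem_preimage.1 hz2)
            have h2 := (hTC n z hn1).2
            have h3 : f (T n) z = (i, true) := hn2
            rw [h3] at h2
            have h4 := (hTC m _ hm1).2
            have h5 : f (T m) (act (s i) z) = (i, false) := hm2
            rw [h5] at h4
            change act (s i) z ∈ T n at h2
            change act (s i)⁻¹ (act (s i) z) ∈ T m at h4
            rw [hinvact] at h4
            have e1 := huniq n (m + 1) (act (s i) z) h2 hm1
            have e2 := huniq m (n + 1) z h4 hn1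
            omega
          rw [← measure_union hdj ((hmp _).measurable (hselm1 i false))]

end

end Pool.Agent.Lib.MP_354e85_al.Lim
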