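import Pool.Agent.Lib.MP_354e85_al.Lim.Iso
import Pool.Agent.Lib.MP_354e85_al.Lim.CommNormal
import Pool.Agent.Lib.MP_354e85_al.Lim.FinNormal

/-! Intersections of normal subgroups with cheap quotients. -/

open MeasureTheory Set

namespace Pool.Agent.Lib.MP_354e85_al.Lim

open Pool.Agent.Lib.MP_354e85_al

theorem map_inf_eq_bot {G : Type*} [Group G] (M N : Subgroup G) [M.Normal] [N.Normal]
    (x : G ⧸ (M ⊓ N)) (hM : x ∈ M.map (QuotientGroup.mk' (M ⊓ N)))
    (hN : x ∈ N.map (QuotientGroup.mk' (M ⊓ N))) : x = 1 := by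
  obtain ⟨m, hm, rfl⟩ := Subgroup.mem_map.1 hM
  obtain ⟨n, hn, hmn⟩ := Subgroup.mem_map.1 hN
  rw [QuotientGroup.mk'_apply, QuotientGroup.mk'_apply, QuotientGroup.eq] at hmn
  rw [QuotientGroup.mk'_apply, QuotientGroup.eq_one_iff]
  refine ⟨hm, ?_⟩
  have : m = n * (n⁻¹ * m) := by group
  rw [this]
  exact N.mul_mem hn hmn.2

theorem not_costGE_inf {G : Type} [Group G] [Countable G] (hfg : Group.FG G) (M N : Subgroup G)
    [M.Normal] [N.Normal] (θ : ℝ) (hθ : 0 < θ) (hM : ¬ CostGE (G ⧸ M) θ)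
    (hN : ¬ CostGE (G ⧸ N) θ) : ¬ CostGE (G ⧸ (M ⊓ N)) θ := by
  have hc : Countable (G ⧸ (M ⊓ N)) :=
    Function.Surjective.countable (f := fun g : G => (g : G ⧸ (M ⊓ N))) Quot.mk_surjective
  have hfg' : Group.FG (G ⧸ (M ⊓ N)) := Group.fg_of_surjective
    (f := QuotientGroup.mk' (M ⊓ N)) (QuotientGroup.mk'_surjective (M ⊓ N))
  have hM' : ¬ CostGE ((G ⧸ (M ⊓ N)) ⧸ (M.map (QuotientGroup.mk' (M ⊓ N)))) θ := fun h =>
    hM (costGE_congr (QuotientGroup.quotientQuotientEquivQuotient (M ⊓ N) M inf_le_left) h)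
  have hN' : ¬ CostGE ((G ⧸ (M ⊓ N)) ⧸ (N.map (QuotientGroup.mk' (M ⊓ N)))) θ := fun h =>
    hN (costGE_congr (QuotientGroup.quotientQuotientEquivQuotient (M ⊓ N) N inf_le_right) h)
  by_cases h1 : Finite (M.map (QuotientGroup.mk' (M ⊓ N)))
  · exact not_costGE_of_finite_normal _ h1 θ hθ.le hM'
  by_cases h2 : Finite (N.map (QuotientGroup.mk' (M ⊓ N)))
  · exact not_costGE_of_finite_normal _ h2 θ hθ.le hN'
  rw [not_finite_iff_infinite] at h1 h2
  refine not_costGE_of_commuting hfg' (M.map (QuotientGroup.mk' (M ⊓ N)))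
    (N.map (QuotientGroup.mk' (M ⊓ N))) (fun m hm n hn => ?_) h2 ?_ θ hθ
  · have h3 : m * n * m⁻¹ * n⁻¹ = 1 := by
      refine map_inf_eq_bot M N _ ?_ ?_
      · have := Subgroup.Normal.conj_mem (inferInstance :
          (M.map (QuotientGroup.mk' (M ⊓ N))).Normal) m⁻¹ (Subgroup.inv_mem _ hm) n
        rw [mul_assoc, mul_assoc, ← mul_assoc n]
        exact Subgroup.mul_mem _ hm this
      · have := Subgroup.Normal.conj_mem (inferInstance :
          (N.map (QuotientGroup.mk' (M ⊓ N))).Normal) n hn m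
        exact Subgroup.mul_mem _ this (Subgroup.inv_mem _ hn)
    calc m * n = (m * n * m⁻¹ * n⁻¹) * (n * m) := by group
      _ = n * m := by rw [h3, one_mul]
  · have hinj : Function.Injective (fun m : (M.map (QuotientGroup.mk' (M ⊓ N))) =>
        ((m : G ⧸ (M ⊓ N)) : (G ⧸ (M ⊓ N)) ⧸ (N.map (QuotientGroup.mk' (M ⊓ N))))) := by
      intro x y hxy
      have h3 := QuotientGroup.eq.1 hxy
      have h4 := map_inf_eq_bot M N ((x : G ⧸ (M ⊓ N))⁻¹ * y)
        (Subgroup.mul_mem _ (Subgroup.inv_mem _ x.2) y.2) h3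
      exact Subtype.ext (inv_mul_eq_one.1 h4)
    exact Set.infinite_range_of_injective hinj

end Pool.Agent.Lib.MP_354e85_al.Lim
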