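import Pool.Agent.Lib.MP_354e85_al.Lim.Iter

/-! The cost hypothesis under isomorphisms, and intersections of normal subgroups. -/

open MeasureTheory Set

namespace Pool.Agent.Lib.MP_354e85_al.Lim

open Pool.Agent.Lib.MP_354e85_al

theorem costGE_congr {G H : Type*} [Group G] [Group H] (e : G ≃* H) {θ : ℝ}
    (hc : CostGE G θ) : CostGE H θ := by
  intro a h1 h2 h3 h4 A φ hA hφ hinj hφa hgen
  refine hc (fun g => a (e g)) (fun x => ?_) (fun g h x => ?_) (fun g => h3 (e g))
    (fun g hg => h4 (e g) ?_) A φ hA hφ hinj (fun i x hx => ?_) ?_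
  · rw [map_one, h1]
  · rw [map_mul, h2]
  · intro h
    exact hg (by simpa using h)
  · obtain ⟨g, hg⟩ := hφa i x hx
    exact ⟨e.symm g, by simpa using hg⟩
  · filter_upwards [hgen] with x hx g
    exact hx (e g)

end Pool.Agent.Lib.MP_354e85_al.Lim
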