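import Pool.Agent.Lib.MP_354e85_al.Lim.Iter
import Pool.Agent.Lib.MP_354e85_al.Lim.Hub
import Pool.Agent.Lib.MP_354e85_al.RL.Quot

/-! The theorem on residual limits. -/

open MeasureTheory Set

namespace Pool.Agent.Lib.MP_354e85_al.Lim

open Pool.Agent.Lib.MP_354e85_al

theorem infinite_quot {G : Type} [Group G] {N M : Subgroup G} (h : M ≤ N)
    (hN : ¬ Finite (G ⧸ N)) : Infinite (G ⧸ M) := by
  rw [← not_finite_iff_infinite]
  intro hM
  apply hN
  refine Finite.of_surjective (Quotient.map' (s₁ := QuotientGroup.leftRel M)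
    (s₂ := QuotientGroup.leftRel N) id ?_) ?_
  · intro a b hab
    rw [QuotientGroup.leftRel_apply] at hab ⊢
    exact h hab
  · intro q
    induction q using Quotient.inductionOn' with
    | h g => exact ⟨Quotient.mk'' g, rfl⟩

theorem iInf_shift {G : Type} [Group G] (N : ℕ → Subgroup G) (hanti : Antitone N)
    (hbot : ⨅ k, N k = ⊥) (k₀ : ℕ) : ⨅ k, N (k + k₀) = ⊥ := by
  refine le_antisymm ?_ bot_le
  rw [← hbot]
  exact le_iInf fun k => (iInf_le (fun k => N (k + k₀)) k).trans (hanti (Nat.le_add_right k k₀))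

theorem core' {G : Type} [Group G] [Countable G] (hfg : Group.FG G)
    (N : ℕ → Subgroup G) (hnorm : ∀ k, (N k).Normal) (hanti : Antitone N)
    (hbot : ⨅ k, N k = ⊥) (ε ε' : ℝ) (hε : 0 < ε) (hε' : ε' < ε) (hcost : CostGE G ε)
    (hcheap : ∀ k, haveI := hnorm k; Finite (G ⧸ N k) ∨ ¬ CostGE (G ⧸ N k) (ε' / 2))
    (hinf : ¬ ∀ k, Finite (G ⧸ N k))
    (hhub : ∀ k, ∃ (p : ℕ) (a : Fin p → G), (∀ i, a i ∈ N k) ∧
      ∀ c ∈ N k, ∀ d ∈ N k, HubSet (Subgroup.closure (range a)) (N k) c d) : False := by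
  rw [not_forall] at hinf
  obtain ⟨k₀, hk₀⟩ := hinf
  have hI : ∀ k, Infinite (G ⧸ N (k + k₀)) := fun k =>
    infinite_quot (hanti (Nat.le_add_left k₀ k)) hk₀
  refine core hfg (fun k => N (k + k₀)) (fun k => hnorm (k + k₀))
    (fun a b hab => hanti (Nat.add_le_add_right hab k₀)) (iInf_shift N hanti hbot k₀) hI ε
    (max (ε' / 2) 0) (le_max_right _ _) ?_ (fun k => ?_) (fun k => hhub (k + k₀)) hcost
  · rcases max_choice (ε' / 2) 0 with h | h
    · rw [h]; linarith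
    · rw [h]; linarith
  · have := hnorm (k + k₀)
    refine cheapAct_one G (N (k + k₀)) _ fun hc => ?_
    rcases hcheap (k + k₀) with h1 | h1
    · exact absurd h1 (not_finite_iff_infinite.2 (hI k))
    · exact h1 (costGE_anti (le_max_left _ _) hc)

/-- Quantitative form. -/
theorem residual_quant {G : Type} [Group G] [Countable G] (hfg : Group.FG G)
    (N : ℕ → Subgroup G) (hnorm : ∀ k, (N k).Normal) (hanti : Antitone N)
    (hbot : ⨅ k, N k = ⊥) (ε ε' : ℝ) (hε : 0 < ε) (hε' : ε' < ε) (hcost : CostGE G ε)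
    (hcheap : ∀ k, haveI := hnorm k; Finite (G ⧸ N k) ∨ ¬ CostGE (G ⧸ N k) (ε' / 2)) :
    TarskiLE G 6 ∧ ((∀ k, ∃ a ∈ N k, ∀ n : ℕ, 0 < n → a ^ n ≠ 1) → TarskiLE G 5) := by
  by_cases hfin : ∀ k, Finite (G ⧸ N k)
  · have hrf : Group.ResiduallyFinite G := RLim.residuallyFinite_of_chain N hnorm hbot hfin
    have hrg : RGPos G := ⟨ε, hε, fun K hK T hT => cost_rank hcost K hK T hT⟩
    obtain ⟨h6, h5⟩ := tarski_of_rg hfg hrg
    refine ⟨h6, fun h => h5 ?_⟩
    obtain ⟨a, -, ha⟩ := h 0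
    exact ⟨a, ha⟩
  · refine ⟨?_, fun hord => ?_⟩
    · by_contra h6
      refine core' hfg N hnorm hanti hbot ε ε' hε hε' hcost hcheap hfin fun k => ?_
      obtain ⟨a, ha, hh⟩ := exists_hub h6 (N k)
      exact ⟨2, a, ha, hh⟩
    · by_contra h5
      refine core' hfg N hnorm hanti hbot ε ε' hε hε' hcost hcheap hfin fun k => ?_
      obtain ⟨a, ha, hh⟩ := exists_hub' h5 (N k) (hord k)
      exact ⟨1, a, ha, hh⟩

/-- The class of groups satisfying the conclusion of the question is closed under residual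
limits. -/
theorem residual_limit {G : Type} [Group G] [Countable G] (hfg : Group.FG G)
    (N : ℕ → Subgroup G) (hnorm : ∀ k, (N k).Normal) (hanti : Antitone N)
    (hbot : ⨅ k, N k = ⊥)
    (hquot : ∀ k, haveI := hnorm k;
      (∃ ε : ℝ, 0 < ε ∧ CostGE (G ⧸ N k) ε) → TarskiLE (G ⧸ N k) 6)
    (hcost : ∃ ε : ℝ, 0 < ε ∧ CostGE G ε) : TarskiLE G 6 := by
  obtain ⟨ε, hε, hc⟩ := hcost
  by_contra h6
  refine h6 (residual_quant hfg N hnorm hanti hbot ε (ε / 2) hε (by linarith) hc fun k => ?_).1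
  have := hnorm k
  refine Or.inr fun hk => h6 ?_
  exact RLim.tarski_quotient (N k) (hquot k ⟨ε / 2 / 2, by linarith, hk⟩)

end Pool.Agent.Lib.MP_354e85_al.Lim
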