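import Pool.Agent.Lib.MP_354e85_al.Lim.Limit
import Pool.Agent.Lib.MP_354e85_al.Lim.AmenTarski
import Pool.Agent.Lib.MP_354e85_al.Lim.AmenChain

/-! Residually amenable groups. -/

open MeasureTheory Set

namespace Pool.Agent.Lib.MP_354e85_al.Lim

open Pool.Agent.Lib.MP_354e85_al

theorem residually_amenable {G : Type} [Group G] [Countable G] (hfg : Group.FG G)
    (h : ∀ g : G, g ≠ 1 → ∃ N : Subgroup G, ∃ _ : N.Normal, g ∉ N ∧ ∀ n, ¬ TarskiLE (G ⧸ N) n)
    (ε : ℝ) (hε : 0 < ε) (hcost : CostGE G ε) :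
    TarskiLE G 6 ∧ ((∀ N : Subgroup G, N.Normal → Infinite N →
      ∃ a ∈ N, ∀ n : ℕ, 0 < n → a ^ n ≠ 1) → TarskiLE G 5) := by
  classical
  obtain ⟨Ns, hanti, hF, hsep⟩ := exists_chain (G := G) (fun g hg => by
    obtain ⟨N, hN, hgN, hT⟩ := h g hg
    exact ⟨N, hN, hgN, fun S δ hδ => foelner_of_not_tarski hT S δ hδ⟩)
  have hnorm : ∀ k, (Ns k).Normal := fun k => (hF k).choose
  have hFo : ∀ k, haveI := hnorm k; Foelner (G ⧸ Ns k) := fun k => (hF k).choose_spec
  have hbot : ⨅ k, Ns k = ⊥ := by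
    rw [eq_bot_iff]
    intro g hg
    rw [Subgroup.mem_bot]
    by_contra hne
    obtain ⟨k, hk⟩ := hsep g hne
    exact hk (Subgroup.mem_iInf.1 hg k)
  have hq := residual_quant hfg Ns hnorm hanti hbot ε (ε / 2) hε (by linarith) hcost (fun k => by
    have := hnorm k
    have hc : Countable (G ⧸ Ns k) :=
      Function.Surjective.countable (f := fun g : G => (g : G ⧸ Ns k)) Quot.mk_surjective
    have hfg' : Group.FG (G ⧸ Ns k) := Group.fg_of_surjective
      (f := QuotientGroup.mk' (Ns k)) (QuotientGroup.mk'_surjective (Ns k))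
    exact Or.inr ((hFo k).not_costGE hfg' _ (by linarith)))
  refine ⟨hq.1, fun htor => hq.2 fun k => ?_⟩
  have := hnorm k
  refine htor (Ns k) (hnorm k) ?_
  by_contra hfin
  rw [not_infinite_iff_finite] at hfin
  have hfin' : ((Ns k : Set G)).Finite := Set.toFinite (Ns k : Set G)
  obtain ⟨m, hkm, hm⟩ := exists_deep Ns hanti hbot k (hfin'.toFinset.erase 1)
    (fun x hx => (Finset.mem_erase.1 hx).1)
  have hbm : ∀ x ∈ Ns m, x = 1 := by
    intro x hx
    by_contra hne
    refine hm x (Finset.mem_erase.2 ⟨hne, ?_⟩) hx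
    rw [Set.Finite.mem_toFinset]
    exact hanti hkm hx
  have := hnorm m
  have hGF : Foelner G := Foelner.of_injective (QuotientGroup.mk' (Ns m)) (by
    rw [injective_iff_map_eq_one]
    intro x hx
    exact hbm x ((QuotientGroup.eq_one_iff x).1 hx)) (hFo m)
  exact hGF.not_costGE hfg ε hε hcost

end Pool.Agent.Lib.MP_354e85_al.Lim
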