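import Pool.Agent.Lib.MP_354e85_al.Lim.Inter
import Pool.Agent.Lib.MP_354e85_al.Lim.Limit
import Pool.Agent.Lib.MP_354e85_al.Lim.AmenSub

/-! The theorem on residual limits, for arbitrary families of normal subgroups. -/

open MeasureTheory Set

namespace Pool.Agent.Lib.MP_354e85_al.Lim

open Pool.Agent.Lib.MP_354e85_al

theorem exists_chain_fin {G : Type*} [Group G] [Countable G] {ι : Type*} (fam : ι → Subgroup G)
    (hbot : ⨅ i, fam i = ⊥) :
    ∃ F : ℕ → Finset ι, Monotone F ∧ ⨅ k, ⨅ i ∈ F k, fam i = ⊥ := by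
  classical
  obtain ⟨e, he⟩ := exists_surjective_nat G
  have hsep : ∀ g : G, ∃ F : Finset ι, g ≠ 1 → g ∉ ⨅ i ∈ F, fam i := by
    intro g
    by_cases hg : g = 1
    · exact ⟨∅, fun h => (h hg).elim⟩
    · have h1 : g ∉ ⨅ i, fam i := by
        rw [hbot, Subgroup.mem_bot]
        exact hg
      rw [Subgroup.mem_iInf, not_forall] at h1
      obtain ⟨i, hi⟩ := h1
      refine ⟨{i}, fun _ h => hi ?_⟩
      simpa using h
  choose Fs hFs using hsep
  refine ⟨fun k => (Finset.range (k + 1)).biUnion fun j => Fs (e j), ?_, ?_⟩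
  · intro a b hab
    exact Finset.biUnion_subset_biUnion_of_subset_left _ (Finset.range_mono (by omega))
  · rw [eq_bot_iff]
    intro g hg
    rw [Subgroup.mem_bot]
    by_contra hne
    obtain ⟨k, hk⟩ := he g
    have h1 := Subgroup.mem_iInf.1 hg k
    refine hFs (e k) (by rw [hk]; exact hne) ?_
    rw [hk]
    have h2 : (⨅ i ∈ (Finset.range (k + 1)).biUnion fun j => Fs (e j), fam i) ≤
        ⨅ i ∈ Fs (e k), fam i := by
      refine biInf_mono fun i hi => ?_
      exact Finset.mem_biUnion.2 ⟨k, Finset.mem_range.2 (by omega), hi⟩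
    rw [← hk] at h1 ⊢
    exact h2 h1

theorem exists_chain_fin' {G : Type*} [Group G] [Countable G] {ι : Type*}
    (fam : ι → Subgroup G) (hbot : ⨅ i, fam i = ⊥) (i₀ : ι) :
    ∃ F : ℕ → Finset ι, (∀ k, (F k).Nonempty) ∧ Monotone F ∧ ⨅ k, ⨅ i ∈ F k, fam i = ⊥ := by
  classical
  obtain ⟨F, hF, hFb⟩ := exists_chain_fin fam hbot
  refine ⟨fun k => insert i₀ (F k), fun k => Finset.insert_nonempty _ _,
    fun a b hab => Finset.insert_subset_insert _ (hF hab), ?_⟩
  rw [eq_bot_iff, ← hFb]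
  exact iInf_mono fun k => biInf_mono fun i hi => Finset.mem_insert_of_mem hi

theorem normal_finInf {G : Type*} [Group G] {ι : Type*} (fam : ι → Subgroup G)
    (hn : ∀ i, (fam i).Normal) (F : Finset ι) : (⨅ i ∈ F, fam i).Normal := by
  refine Subgroup.normal_iInf_normal fun i => Subgroup.normal_iInf_normal fun _ => hn i

theorem cheap_finInf {G : Type} [Group G] [Countable G] (hfg : Group.FG G) {ι : Type*}
    (fam : ι → Subgroup G) (hn : ∀ i, (fam i).Normal) (θ : ℝ) (hθ : 0 < θ)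
    (h : ∀ i, haveI := hn i; ¬ CostGE (G ⧸ fam i) θ) (F : Finset ι) :
    ∀ (K : Subgroup G) [K.Normal], K = ⨅ i ∈ F, fam i → ¬ CostGE (G ⧸ K) θ := by
  classical
  induction F using Finset.induction_on with
  | empty =>
    intro K _ hK
    have hK' : K = ⊤ := by simpa using hK
    subst hK'
    have : Subsingleton (G ⧸ (⊤ : Subgroup G)) := QuotientGroup.subsingleton_quotient_top
    have : Finite (G ⧸ (⊤ : Subgroup G)) := inferInstance
    exact (Foelner.of_finite (G ⧸ (⊤ : Subgroup G))).not_costGE (Group.fg_of_surjective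
      (f := QuotientGroup.mk' (⊤ : Subgroup G)) (QuotientGroup.mk'_surjective _)) θ hθ
  | insert a F _ ih =>
    intro K _ hK
    have h1 := hn a
    have h2 := normal_finInf fam hn F
    have hK' : K = fam a ⊓ ⨅ i ∈ F, fam i := by
      rw [hK, Finset.iInf_insert]
    subst hK'
    exact not_costGE_inf hfg (fam a) (⨅ i ∈ F, fam i) θ hθ (h a) (ih _ rfl)

/-- The theorem on residual limits. -/
theorem residual_family {G : Type} [Group G] [Countable G] (hfg : Group.FG G) {ι : Type*}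
    (fam : ι → Subgroup G) (hn : ∀ i, (fam i).Normal) (hbot : ⨅ i, fam i = ⊥) (ε ε' : ℝ)
    (hε : 0 < ε) (hε' : ε' < ε) (hcost : CostGE G ε)
    (h : ∀ i, haveI := hn i; ¬ CostGE (G ⧸ fam i) (ε' / 2)) :
    TarskiLE G 6 ∧ ((∀ F : Finset ι, F.Nonempty → Infinite (⨅ i ∈ F, fam i : Subgroup G) →
      ∃ a ∈ (⨅ i ∈ F, fam i : Subgroup G), ∀ n : ℕ, 0 < n → a ^ n ≠ 1) → TarskiLE G 5) := by
  classical
  rcases isEmpty_or_nonempty ι with hι | ⟨⟨i₀⟩⟩
  · exfalso
    have htop : (⊤ : Subgroup G) = ⊥ := by rw [← hbot, iInf_of_empty]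
    have : Subsingleton G := by
      refine ⟨fun x y => ?_⟩
      have hx : ∀ z : G, z = 1 := fun z => by
        have hz : z ∈ (⊤ : Subgroup G) := Subgroup.mem_top z
        rw [htop] at hz
        exact Subgroup.mem_bot.1 hz
      rw [hx x, hx y]
    have : Finite G := inferInstance
    exact (Foelner.of_finite G).not_costGE hfg ε hε hcost
  obtain ⟨F, hFn, hF, hFbot⟩ := exists_chain_fin' fam hbot i₀
  obtain ⟨e, he1, he2, he3⟩ : ∃ e : ℝ, ε' ≤ e ∧ 0 < e ∧ e < ε :=
    ⟨max ε' (ε / 2), le_max_left _ _, lt_max_of_lt_right (by linarith),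
      max_lt hε' (by linarith)⟩
  have h' : ∀ i, haveI := hn i; ¬ CostGE (G ⧸ fam i) (e / 2) := by
    intro i
    have := hn i
    exact fun hc => h i (costGE_anti (by linarith) hc)
  have hnorm : ∀ k, (⨅ i ∈ F k, fam i).Normal := fun k => normal_finInf fam hn (F k)
  have hanti : Antitone (fun k => ⨅ i ∈ F k, fam i) := fun a b hab =>
    biInf_mono fun i hi => hF hab hi
  have hch : ∀ k, haveI := hnorm k; ¬ CostGE (G ⧸ (⨅ i ∈ F k, fam i)) (e / 2) := by
    intro k
    have := hnorm k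
    exact cheap_finInf hfg fam hn (e / 2) (by linarith) h' (F k) _ rfl
  have hq := residual_quant hfg (fun k => ⨅ i ∈ F k, fam i) hnorm hanti hFbot ε e hε he3 hcost
    (fun k => Or.inr (hch k))
  refine ⟨hq.1, fun htor => hq.2 fun k => htor (F k) (hFn k) ?_⟩
  by_contra hfin
  rw [not_infinite_iff_finite] at hfin
  have hfin' : ((⨅ i ∈ F k, fam i : Subgroup G) : Set G).Finite := Set.toFinite _
  obtain ⟨m, hkm, hm⟩ := exists_deep (fun k => ⨅ i ∈ F k, fam i) hanti hFbot k
    (hfin'.toFinset.erase 1) (fun x hx => (Finset.mem_erase.1 hx).1)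
  have hbm : (⨅ i ∈ F m, fam i) = ⊥ := by
    rw [eq_bot_iff]
    intro x hx
    rw [Subgroup.mem_bot]
    by_contra hne
    refine hm x (Finset.mem_erase.2 ⟨hne, ?_⟩) hx
    rw [Set.Finite.mem_toFinset]
    exact hanti hkm hx
  have := hnorm m
  refine hch m (costGE_congr ?_ (costGE_anti (by linarith) hcost))
  refine (QuotientGroup.quotientBot (G := G)).symm.trans ?_
  exact QuotientGroup.quotientMulEquivOfEq hbm.symm

end Pool.Agent.Lib.MP_354e85_al.Lim
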