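import Pool.Agent.Lib.MP_354e85_al.Lim.StepB

open MeasureTheory Set Filter Topology

namespace Pool.Agent.Lib.MP_354e85_al.Lim

open Pool.Agent.Lib.MP_354e85_al

theorem Lev.mono {G : Type} [Group G] {N : Subgroup G} {x y : ENNReal} (h : Lev G N x)
    (hxy : x ≤ y) : Lev G N y := by
  obtain ⟨Z, i1, i2, μ, i3, act, hact, ι, i4, s, B, hB, hgen, hx⟩ := h
  exact ⟨Z, i1, i2, μ, i3, act, hact, ι, i4, s, B, hB, hgen, hx.trans hxy⟩

/-- One step: half of the excess disappears at a deeper level (quantitative form). -/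
theorem stepQ {G : Type} [Group G] [Countable G] (Ns : ℕ → Subgroup G)
    [∀ n, (Ns n).Normal] (k : ℕ) (hanti : ∀ m, k ≤ m → Ns m ≤ Ns k)
    (hsep : ∀ F : Finset G, (∀ x ∈ F, x ≠ 1) → ∃ m, k ≤ m ∧ ∀ x ∈ F, x ∉ Ns m)
    (p : ℕ) (a : Fin p → G) (ha : ∀ i, a i ∈ Ns k)
    (hhub : ∀ c ∈ Ns k, ∀ d ∈ Ns k, HubSet (Subgroup.closure (range a)) (Ns k) c d)
    (θ : ℝ) (hθ : 0 ≤ θ) (hcheap : CheapAct G (Ns k) (ENNReal.ofReal (1 + θ)))
    (hsec : ∀ w : ENNReal, w ≤ 1 → w ≠ 0 → SecAct G (Ns k) w)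
    (r η : ℝ) (hr : 0 ≤ r) (hη : 0 < η) (hlev : Lev G (Ns k) (ENNReal.ofReal (1 + r))) :
    ∃ m, k ≤ m ∧ Lev G (Ns m) (ENNReal.ofReal (1 + θ + η + r / 2)) := by
  -- the small constants
  let w₀ : ℝ := min 1 (η / (3 * (p + 1)))
  have hp : (0 : ℝ) < p + 1 := by positivity
  have hw0 : 0 < w₀ := lt_min one_pos (by positivity)
  have hw1 : w₀ ≤ 1 := min_le_left _ _
  have hw2 : (p + 1) * w₀ ≤ η / 3 := by
    have h : w₀ ≤ η / (3 * (p + 1)) := min_le_right _ _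
    calc (p + 1) * w₀ ≤ (p + 1) * (η / (3 * (p + 1))) := by gcongr
      _ = η / 3 := by field_simp
  obtain ⟨Z, i1, i2, μ, i3, act, ⟨a1, a2, a3, a4⟩, ι, i4, s, B, hB, hgen, hx⟩ := hlev
  obtain ⟨X, j1, j2, ν, j3, actX, ⟨b1, b2, b3, b4⟩, κ, j4, f, D, hD, hgenF, hy⟩ :=
    hcheap
  obtain ⟨W, l1, l2, π, l3, actW, ⟨c1, c2, c3, c4⟩, Y, hY, hYw, hYr⟩ :=
    hsec (ENNReal.ofReal w₀) (ENNReal.ofReal_le_one.2 hw1) (by simpa using hw0)
  let P : Measure (Z × X × W) := μ.prod (ν.prod π)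
  let act' : G → Z × X × W → Z × X × W := fun g q => (act g q.1, actX g q.2.1, actW g q.2.2)
  have m1 : MeasurePreserving (fun q : Z × X × W => q.1) P μ := measurePreserving_fst
  have m2 : MeasurePreserving (fun q : Z × X × W => q.2.1) P ν :=
    (measurePreserving_fst (μ := ν) (ν := π)).comp
      (measurePreserving_snd (μ := μ) (ν := ν.prod π))
  have m3 : MeasurePreserving (fun q : Z × X × W => q.2.2) P π :=
    (measurePreserving_snd (μ := ν) (ν := π)).comp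
      (measurePreserving_snd (μ := μ) (ν := ν.prod π))
  have hact' : TAct G (Ns k) (Z × X × W) P act' := by
    refine ⟨?_, ?_, ?_, ?_⟩
    · rintro ⟨z, x, w⟩
      simp only [act', a1, b1, c1]
    · rintro g h ⟨z, x, w⟩
      simp only [act', a2, b2, c2]
    · intro g
      exact (a3 g).prod ((b3 g).prod (c3 g))
    · rintro g hg ⟨z, x, w⟩
      simp only [act', a4 g hg, b4 g hg, c4 g hg]
  have e1 : ∀ i, P ((fun q : Z × X × W => q.1) ⁻¹' B i) = μ (B i) := fun i =>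
    m1.measure_preimage (hB i).nullMeasurableSet
  have e2 : ∀ j, P ((fun q : Z × X × W => q.2.1) ⁻¹' D j) = ν (D j) := fun j =>
    m2.measure_preimage (hD j).nullMeasurableSet
  have e3 : P ((fun q : Z × X × W => q.2.2) ⁻¹' Y) = ENNReal.ofReal w₀ := by
    rw [m3.measure_preimage hY.nullMeasurableSet, hYw]
  have hYm' : MeasurableSet ((fun q : Z × X × W => q.2.2) ⁻¹' Y) := m3.measurable hY
  have e4 : P ((fun q : Z × X × W => q.2.2) ⁻¹' Y)ᶜ = ENNReal.ofReal (1 - w₀) := by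
    rw [prob_compl_eq_one_sub hYm', e3, ENNReal.ofReal_sub 1 hw0.le, ENNReal.ofReal_one]
  obtain ⟨m, hkm, ℓ, hℓ, hLev⟩ := step_core Ns k hanti hsep p a ha hhub P act' hact' s
    (fun i => (fun q : Z × X × W => q.1) ⁻¹' B i) (fun i => m1.measurable (hB i))
    (m1.quasiMeasurePreserving.ae hgen) f (fun j => (fun q : Z × X × W => q.2.1) ⁻¹' D j)
    (fun j => m2.measurable (hD j)) (m2.quasiMeasurePreserving.ae hgenF)
    ((fun q : Z × X × W => q.2.2) ⁻¹' Y) hYm' (m3.quasiMeasurePreserving.ae hYr) (by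
      simp only [e1]
      exact ne_top_of_le_ne_top ENNReal.ofReal_ne_top hx) (ENNReal.ofReal (η / 3))
    (by simpa using hη)
  refine ⟨m, hkm, hLev.mono ?_⟩
  rw [e4] at hℓ
  simp only [e1] at hℓ
  simp only [e2, e3]
  have hℓ2 : ℓ ≤ ENNReal.ofReal (r + w₀) := by
    have h1 : ℓ + ENNReal.ofReal (1 - w₀) ≤ ENNReal.ofReal (1 + r) := hℓ.trans hx
    have h2 : ENNReal.ofReal (1 + r) = ENNReal.ofReal (r + w₀) + ENNReal.ofReal (1 - w₀) := by
      rw [← ENNReal.ofReal_add (by positivity) (by linarith)]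
      congr 1
      ring
    rw [h2] at h1
    exact (ENNReal.add_le_add_iff_right ENNReal.ofReal_ne_top).1 h1
  calc ∑' j, ν (D j) + (p : ENNReal) * ENNReal.ofReal w₀ + ENNReal.ofReal (η / 3) + ℓ / 2 +
        ENNReal.ofReal w₀ / 2
      ≤ ENNReal.ofReal (1 + θ) + ENNReal.ofReal p * ENNReal.ofReal w₀ +
        ENNReal.ofReal (η / 3) + ENNReal.ofReal (r + w₀) / ENNReal.ofReal 2 +
        ENNReal.ofReal w₀ / ENNReal.ofReal 2 := by
        rw [ENNReal.ofReal_natCast, ENNReal.ofReal_ofNat]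
        gcongr
    _ = ENNReal.ofReal (1 + θ + p * w₀ + η / 3 + (r + w₀) / 2 + w₀ / 2) := by
        rw [← ENNReal.ofReal_mul (by positivity), ← ENNReal.ofReal_div_of_pos two_pos,
          ← ENNReal.ofReal_div_of_pos two_pos, ← ENNReal.ofReal_add (by positivity) (by positivity),
          ← ENNReal.ofReal_add (by positivity) (by positivity),
          ← ENNReal.ofReal_add (by positivity) (by positivity),
          ← ENNReal.ofReal_add (by positivity) (by positivity)]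
    _ ≤ ENNReal.ofReal (1 + θ + η + r / 2) := by
        apply ENNReal.ofReal_le_ofReal
        nlinarith

/-- The same step in the form `x ↦ (x + 1) / 2 + θ + δ`. -/
theorem step {G : Type} [Group G] [Countable G] (Ns : ℕ → Subgroup G)
    [∀ n, (Ns n).Normal] (k : ℕ) (hanti : ∀ m, k ≤ m → Ns m ≤ Ns k)
    (hsep : ∀ F : Finset G, (∀ x ∈ F, x ≠ 1) → ∃ m, k ≤ m ∧ ∀ x ∈ F, x ∉ Ns m)
    (p : ℕ) (a : Fin p → G) (ha : ∀ i, a i ∈ Ns k)
    (hhub : ∀ c ∈ Ns k, ∀ d ∈ Ns k, HubSet (Subgroup.closure (range a)) (Ns k) c d)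
    (θ : ℝ) (hθ : 0 ≤ θ) (hcheap : CheapAct G (Ns k) (ENNReal.ofReal (1 + θ)))
    (hsec : ∀ w : ENNReal, w ≤ 1 → w ≠ 0 → SecAct G (Ns k) w)
    (x δ : ℝ) (hx : 1 ≤ x) (hδ : 0 < δ) (hlev : Lev G (Ns k) (ENNReal.ofReal x)) :
    ∃ m, k ≤ m ∧ Lev G (Ns m) (ENNReal.ofReal ((x + 1) / 2 + θ + δ)) := by
  obtain ⟨m, hm, h⟩ := stepQ Ns k hanti hsep p a ha hhub θ hθ hcheap hsec (x - 1) δ
    (by linarith) hδ (by rwa [add_sub_cancel])
  refine ⟨m, hm, ?_⟩
  have e : 1 + θ + δ + (x - 1) / 2 = (x + 1) / 2 + θ + δ := by ring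
  rwa [e] at h

end Pool.Agent.Lib.MP_354e85_al.Lim
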