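import Pool.Agent.Lib.MP_354e85_al.Lim.Defs

open MeasureTheory Set

namespace Pool.Agent.Lib.MP_354e85_al.Lim

open Pool.Agent.Lib.MP_354e85_al

section

variable {G : Type*} [Group G] {Z : Type*} (act : G → Z → Z)

/-- The nonselected edges moved along the forest. -/
def Mv {κ : Type*} (f : κ → G) (D sel : κ → Set Z) (σ : Z → G) (z : Z) (x y : G) : Prop :=
  GE act (fun j => D j \ sel j) (fun _ => σ) (fun j z => σ (act (f j) z) * f j) z x y

theorem mv_map (hmul : ∀ g h z, act (g * h) z = act g (act h z)) {κ : Type*} (f : κ → G)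
    (D sel : κ → Set Z) (σ : Z → G)
    (hsel : ∀ j, ∀ z ∈ sel j, σ z = σ (act (f j) z) * f j) (z : Z) {x y : G}
    (hxy : Relation.EqvGen (Edge act f D z) x y) :
    Relation.EqvGen (Mv act f D sel σ z) (σ (act x z) * x) (σ (act y z) * y) := by
  refine eqvGen_map (fun x => σ (act x z) * x) ?_ hxy
  rintro x y ⟨j, hj, rfl⟩
  by_cases hs : act x z ∈ sel j
  · have h := hsel j _ hs
    have : σ (act x z) * x = σ (act (f j * x) z) * (f j * x) := by
      rw [h, hmul, mul_assoc]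
    simp only [this]
    exact Relation.EqvGen.refl _
  · apply Relation.EqvGen.rel
    refine ⟨j, x, ⟨hj, hs⟩, rfl, ?_⟩
    simp only [hmul, mul_assoc]

theorem mv_act (hmul : ∀ g h z, act (g * h) z = act g (act h z)) {κ : Type*} (f : κ → G)
    (D sel : κ → Set Z) (σ : Z → G) (u : G) (z : Z) (x y : G) :
    Relation.EqvGen (Mv act f D sel σ (act u z)) x y ↔
      Relation.EqvGen (Mv act f D sel σ z) (x * u) (y * u) :=
  eqvGen_base u (fun _ _ => ge_act act hmul _ _ _ u z _ _) x y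

/-- The moved family generates modulo `N` between points of `Y`. -/
theorem mv_mod (hmul : ∀ g h z, act (g * h) z = act g (act h z)) (N : Subgroup G) [N.Normal]
    (htriv : ∀ g ∈ N, ∀ z, act g z = z) {κ : Type*} (f : κ → G)
    (D sel : κ → Set Z) (σ : Z → G)
    (hsel : ∀ j, ∀ z ∈ sel j, σ z = σ (act (f j) z) * f j) (Y : Set Z) (hσ : ∀ z ∈ Y, σ z = 1)
    (z : Z) (hgen : ∀ u g : G, ∃ g', g'⁻¹ * g ∈ N ∧
      Relation.EqvGen (Edge act f D (act u z)) 1 g') (x x' : G) (hx : act x z ∈ Y)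
    (hx' : act x' z ∈ Y) :
    ∃ n : N, Relation.EqvGen (Mv act f D sel σ z) x ((n : G)⁻¹ * x') := by
  obtain ⟨g', hg', hg⟩ := hgen x (x' * x⁻¹)
  rw [eqvGen_base x (fun _ _ => edge_act act hmul f D x z _ _), one_mul] at hg
  -- g' x = n⁻¹ x'
  have hn : x' * (g' * x)⁻¹ ∈ N := by
    have h2 := Subgroup.Normal.conj_mem (inferInstance : N.Normal) _ hg' g'
    have : g' * (g'⁻¹ * (x' * x⁻¹)) * g'⁻¹ = x' * (g' * x)⁻¹ := by group
    rwa [this] at h2
  have hgx : g' * x = (x' * (g' * x)⁻¹)⁻¹ * x' := by group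
  have h3 := mv_map act hmul f D sel σ hsel z hg
  refine ⟨⟨_, hn⟩, ?_⟩
  have h4 : act (g' * x) z ∈ Y := by
    rw [hgx, hmul, htriv _ (N.inv_mem hn)]
    exact hx'
  rw [hσ _ hx, hσ _ h4, one_mul, one_mul] at h3
  rw [← hgx]
  exact h3

end

theorem MG.comp_act {G : Type*} [Group G] {Z : Type*} [MeasurableSpace Z] {act : G → Z → Z}
    (hm : ∀ g, Measurable (act g)) {σ : Z → G} (hσ : MG σ) (g : G) :
    MG (fun z => σ (act g z)) := fun h => (hm g) (hσ h)

theorem MG.mul_const {G : Type*} [Group G] {Z : Type*} [MeasurableSpace Z] {σ : Z → G}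
    (hσ : MG σ) (g : G) : MG (fun z => σ z * g) := by
  intro h
  have : {z | σ z * g = h} = {z | σ z = h * g⁻¹} := by
    ext z
    simp only [mem_ofPred_eq]
    constructor
    · intro h'; rw [← h']; group
    · intro h'; rw [h']; group
  rw [this]
  exact hσ _

theorem MG.mul {G : Type*} [Group G] [Countable G] {Z : Type*} [MeasurableSpace Z] {σ τ : Z → G}
    (hσ : MG σ) (hτ : MG τ) : MG (fun z => σ z * τ z) := by
  intro h
  have : {z | σ z * τ z = h} = ⋃ g : G, ({z | τ z = g} ∩ {z | σ z = h * g⁻¹}) := by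
    ext z
    simp only [mem_ofPred_eq, mem_iUnion, mem_inter_iff]
    constructor
    · intro h'; exact ⟨τ z, rfl, by rw [← h']; group⟩
    · rintro ⟨g, h1, h2⟩; rw [h1, h2]; group
  rw [this]
  exact MeasurableSet.iUnion fun g => (hτ g).inter (hσ _)

theorem MG.const {G : Type*} {Z : Type*} [MeasurableSpace Z] (g : G) :
    MG (fun _ : Z => g) := fun _ => MeasurableSet.const _

theorem measurableSet_ge {G : Type*} [Group G] [Countable G] {Z : Type*} [MeasurableSpace Z]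
    {act : G → Z → Z} (hm : ∀ g, Measurable (act g)) {ι : Type*} [Countable ι] (D : ι → Set Z)
    (σ τ : ι → Z → G) (hD : ∀ i, MeasurableSet (D i)) (hσ : ∀ i, MG (σ i)) (hτ : ∀ i, MG (τ i))
    (x y : G) : MeasurableSet {z | GE act D σ τ z x y} := by
  have : {z | GE act D σ τ z x y} = ⋃ i, ⋃ u : G, (act u ⁻¹' D i ∩
      (act u ⁻¹' {z | σ i z = x * u⁻¹} ∩ act u ⁻¹' {z | τ i z = y * u⁻¹})) := by
    ext z
    simp only [GE, mem_ofPred_eq, mem_iUnion, mem_inter_iff, mem_preimage]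
    constructor
    · rintro ⟨i, u, h1, h2, h3⟩
      exact ⟨i, u, h1, by rw [← h2]; group, by rw [← h3]; group⟩
    · rintro ⟨i, u, h1, h2, h3⟩
      exact ⟨i, u, h1, by rw [h2]; group, by rw [h3]; group⟩
  rw [this]
  exact MeasurableSet.iUnion fun i => MeasurableSet.iUnion fun u =>
    (hm u (hD i)).inter ((hm u (hσ i _)).inter (hm u (hτ i _)))

/-- Measurable choice of the loop labels. -/
theorem loop_choice {G : Type*} [Group G] [Countable G] {Z : Type*} [MeasurableSpace Z]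
    (N : Subgroup G) (Q : Z → G → G → Prop)
    (hQ : ∀ x y, MeasurableSet {z | Q z x y}) (u₁ u₂ : Z → G) (h₁ : MG u₁) (h₂ : MG u₂) :
    ∃ n : Z → N, MG n ∧ ∀ z, (∃ m : N, Q z (u₁ z) ((m : G)⁻¹ * u₂ z)) →
      Q z (u₁ z) ((n z : G)⁻¹ * u₂ z) := by
  have : Nonempty N := ⟨1⟩
  obtain ⟨n, hn1, hn2⟩ := exists_choice (fun m : N => {z | Q z (u₁ z) ((m : G)⁻¹ * u₂ z)}) (by
    intro m
    have : {z | Q z (u₁ z) ((m : G)⁻¹ * u₂ z)} = ⋃ g : G, ⋃ h : G,
        ({z | u₁ z = g} ∩ ({z | u₂ z = h} ∩ {z | Q z g ((m : G)⁻¹ * h)})) := by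
      ext z
      simp only [mem_ofPred_eq, mem_iUnion, mem_inter_iff]
      constructor
      · intro h; exact ⟨_, _, rfl, rfl, h⟩
      · rintro ⟨g, h, rfl, rfl, h3⟩; exact h3
    rw [this]
    exact MeasurableSet.iUnion fun g => MeasurableSet.iUnion fun h =>
      (h₁ g).inter ((h₂ h).inter (hQ _ _)))
  exact ⟨n, hn1, fun z hz => hn2 z hz⟩

end Pool.Agent.Lib.MP_354e85_al.Lim
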