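import Pool.Agent.Lib.MP_354e85_al.Lim.Thin
import Pool.Agent.Lib.MP_354e85_al.Lim.CostGen

open MeasureTheory Set

namespace Pool.Agent.Lib.MP_354e85_al.Lim

open Pool.Agent.Lib.MP_354e85_al

theorem sum_le_of_pair {J : Type*} (S : Finset J) (p : J → ENNReal) (hp : ∀ j, p j ≤ 1)
    (hpair : ∀ j ∈ S, ∀ j' ∈ S, j ≠ j' → p j + p j' ≤ 1) :
    ∑ j ∈ S, p j ≤ (S.card : ENNReal) / 2 + 1 / 2 := by
  classical
  induction S using Finset.strongInduction with
  | H S ih =>
    rcases S.eq_empty_or_nonempty with h0 | ⟨j, hj⟩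
    · rw [h0]
      simp
    by_cases h1 : (S.erase j).Nonempty
    · obtain ⟨j', hj'⟩ := h1
      have hj'S : j' ∈ S := Finset.mem_of_mem_erase hj'
      have hne : j ≠ j' := (Finset.ne_of_mem_erase hj').symm
      have hsub : (S.erase j).erase j' ⊂ S := by
        refine Finset.ssubset_iff_subset_ne.2 ⟨fun x hx =>
          Finset.mem_of_mem_erase (Finset.mem_of_mem_erase hx), ?_⟩
        intro h
        rw [← h] at hj'S
        exact absurd hj'S (Finset.notMem_erase _ _)
      have ih' := ih _ hsub (fun a ha b hb => hpair a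
        (Finset.mem_of_mem_erase (Finset.mem_of_mem_erase ha)) b
        (Finset.mem_of_mem_erase (Finset.mem_of_mem_erase hb)))
      have hc : S.card = ((S.erase j).erase j').card + 2 := by
        rw [Finset.card_erase_of_mem hj', Finset.card_erase_of_mem hj]
        have h2 : 0 < (S.erase j).card := Finset.card_pos.2 ⟨j', hj'⟩
        rw [Finset.card_erase_of_mem hj] at h2
        omega
      have hs : ∑ i ∈ S, p i = (p j + p j') + ∑ i ∈ (S.erase j).erase j', p i := by
        rw [← Finset.add_sum_erase _ _ hj, ← Finset.add_sum_erase _ _ hj', add_assoc]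
      rw [hs, hc]
      calc (p j + p j') + ∑ i ∈ (S.erase j).erase j', p i
          ≤ 1 + ((((S.erase j).erase j').card : ENNReal) / 2 + 1 / 2) :=
            add_le_add (hpair j hj j' hj'S hne) ih'
        _ = ((((S.erase j).erase j').card + 2 : ℕ) : ENNReal) / 2 + 1 / 2 := by
            push_cast
            rw [ENNReal.add_div, ENNReal.div_self (by norm_num) (by norm_num)]
            ring
    · rw [Finset.not_nonempty_iff_eq_empty] at h1
      have hS : S = {j} := by
        rw [← Finset.insert_erase hj, h1]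
        rfl
      rw [hS, Finset.sum_singleton, Finset.card_singleton, Nat.cast_one,
        ENNReal.add_halves]
      exact hp j

variable {G : Type*} [Group G]

/-- The loops which are kept. -/
def thinSet {Z : Type*} (N : Subgroup G) {J : Type*} {M : ℕ} (H : Subgroup G) (c : J → G)
    (B : J → Set Z) (j : J) : Set (Z × ((G ⧸ N) × J → Fin M)) :=
  {p | p.1 ∈ B j ∧ Kept H c (kap N p.2) {i | p.1 ∈ B i} 1 j}

theorem measurableSet_thinSet {Z : Type*} [MeasurableSpace Z] [Countable G] (N : Subgroup G)
    [N.Normal] {J : Type*} [Finite J] {M : ℕ} (H : Subgroup G) (c : J → G)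
    (B : J → Set Z) (hB : ∀ j, MeasurableSet (B j)) (j : J) :
    MeasurableSet (thinSet (M := M) N H c B j) := by
  have : thinSet (M := M) N H c B j = ⋃ S : Set J, ((B j ∩ ⋂ i, {z | z ∈ B i ↔ i ∈ S}) ×ˢ
      {v | Kept H c (kap N v) S 1 j}) := by
    ext ⟨z, v⟩
    simp only [thinSet, mem_ofPred_eq, mem_iUnion, mem_prod, mem_inter_iff, mem_iInter]
    constructor
    · rintro ⟨h1, h2⟩
      exact ⟨{i | z ∈ B i}, ⟨h1, fun i => Iff.rfl⟩, h2⟩
    · rintro ⟨S, ⟨h1, h2⟩, h3⟩
      have : {i | z ∈ B i} = S := by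
        ext i
        exact h2 i
      rw [this]
      exact ⟨h1, h3⟩
  rw [this]
  refine MeasurableSet.iUnion fun S => MeasurableSet.prod ((hB j).inter
    (MeasurableSet.iInter fun i => ?_)) (measurableSet_kept N H c S 1 j)
  by_cases hi : i ∈ S
  · simp only [hi, iff_true]
    exact hB i
  · simp only [hi, iff_false]
    exact (hB i).compl

/-- The thinning theorem: half of the loops are deleted. -/
theorem thin [Countable G] {Z : Type*} [MeasurableSpace Z] (μ : Measure Z) [SFinite μ]
    {J : Type*} [Fintype J] (H K : Subgroup G) (c : J → G) (hc : ∀ j, c j ∈ K)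
    (hhub : ∀ c ∈ K, ∀ d ∈ K, HubSet H K c d) (Ns : ℕ → Subgroup G) [∀ n, (Ns n).Normal] (k : ℕ)
    (hsep : ∀ F : Finset G, (∀ x ∈ F, x ≠ 1) → ∃ m, k ≤ m ∧ ∀ x ∈ F, x ∉ Ns m)
    (Y : Set Z) (hY : MeasurableSet Y) (B : J → Set Z) (hB : ∀ j, MeasurableSet (B j))
    (hBY : ∀ j, B j ⊆ Y) :
    ∃ m, k ≤ m ∧ ∃ (M : ℕ) (_ : NeZero M),
      ∑ j, (μ.prod (clsM (Ns m) J M)) (thinSet (M := M) (Ns m) H c B j) ≤
        (∑ j, μ (B j)) / 2 + μ Y / 2 := by
  classical
  choose Bf hBne _hBK V hV0 hV1 hV2 hVB using fun r : J × J =>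
    hhub (c r.1) (hc r.1) (c r.2) (hc r.2)
  let F : Finset G := (Finset.univ.biUnion fun r : J × J =>
    ((Bf r) ×ˢ (Bf r)).image (fun q => q.1⁻¹ * q.2)).filter (fun x => x ≠ 1)
  obtain ⟨m, hkm, hm⟩ := hsep F (fun x hx => (Finset.mem_filter.1 hx).2)
  let M : ℕ := 8 * (∑ r : J × J, (Bf r).card ^ 3) + 1
  have hMne : NeZero M := ⟨by omega⟩
  refine ⟨m, hkm, M, hMne, ?_⟩
  have hpair : ∀ (S : Set J) (j₁ j₂ : J), j₁ ∈ S → j₂ ∈ S → j₁ ≠ j₂ →
      pk (M := M) (Ns m) H c S j₁ + pk (M := M) (Ns m) H c S j₂ ≤ 1 := by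
    intro S j₁ j₂ h1 h2 hne
    refine pair_prob (Ns m) H c S j₁ j₂ h1 h2 hne (Bf (j₁, j₂)) (hBne _) (V (j₁, j₂)) (hV0 _)
      (hV1 _) (hV2 _) (hVB _) ?_ ?_
    · intro b hb b' hb' hbb
      by_contra hne'
      have hmem : b⁻¹ * b' ∈ Ns m := QuotientGroup.eq.1 hbb
      refine hm (b⁻¹ * b') ?_ hmem
      rw [Finset.mem_filter]
      refine ⟨Finset.mem_biUnion.2 ⟨(j₁, j₂), Finset.mem_univ _,
        Finset.mem_image.2 ⟨(b, b'), Finset.mem_product.2 ⟨hb, hb'⟩, rfl⟩⟩, ?_⟩
      intro h
      apply hne'
      rw [inv_mul_eq_one] at h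
      exact h
    · have h3 : (Bf (j₁, j₂)).card ^ 3 ≤ ∑ r : J × J, (Bf r).card ^ 3 :=
        Finset.single_le_sum (f := fun r : J × J => (Bf r).card ^ 3) (fun _ _ => Nat.zero_le _)
          (Finset.mem_univ (j₁, j₂))
      change _ ≤ 8 * (∑ r : J × J, (Bf r).card ^ 3) + 1
      omega
  have hle1 : ∀ (S : Set J) (j : J), pk (M := M) (Ns m) H c S j ≤ 1 := fun S j => prob_le_one
  have hmeas : ∀ j, (μ.prod (clsM (Ns m) J M)) (thinSet (M := M) (Ns m) H c B j) =
      ∫⁻ z, clsM (Ns m) J M (Prod.mk z ⁻¹' thinSet (M := M) (Ns m) H c B j) ∂μ := fun j =>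
    Measure.prod_apply (measurableSet_thinSet (Ns m) H c B hB j)
  calc ∑ j, (μ.prod (clsM (Ns m) J M)) (thinSet (M := M) (Ns m) H c B j)
      = ∫⁻ z, ∑ j, clsM (Ns m) J M (Prod.mk z ⁻¹' thinSet (M := M) (Ns m) H c B j) ∂μ := by
        rw [lintegral_finsetSum _ (fun j _ => measurable_measure_prodMk_left
          (measurableSet_thinSet (Ns m) H c B hB j))]
        exact Finset.sum_congr rfl fun j _ => hmeas j
    _ ≤ ∫⁻ z, ((∑ j, (B j).indicator (fun _ => (1 : ENNReal)) z) / 2 +
          Y.indicator (fun _ => (1 : ENNReal)) z / 2) ∂μ := by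
        refine lintegral_mono fun z => ?_
        change ∑ j, clsM (Ns m) J M (Prod.mk z ⁻¹' thinSet (M := M) (Ns m) H c B j) ≤
          (∑ j, (B j).indicator (fun _ => (1 : ENNReal)) z) / 2 +
          Y.indicator (fun _ => (1 : ENNReal)) z / 2
        let S : Finset J := Finset.univ.filter (fun j => z ∈ B j)
        have hS : {i | z ∈ B i} = (S : Set J) := by
          ext i
          simp [S]
        have hval : ∀ j, clsM (Ns m) J M (Prod.mk z ⁻¹' thinSet (M := M) (Ns m) H c B j) =
            if j ∈ S then pk (M := M) (Ns m) H c (S : Set J) j else 0 := by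
          intro j
          by_cases hj : z ∈ B j
          · have hjS : j ∈ S := by simp [S, hj]
            rw [if_pos hjS]
            unfold pk
            congr 1
            ext v
            simp only [thinSet, mem_preimage, mem_ofPred_eq, hj, true_and, ← hS]
          · have hjS : j ∉ S := by simp [S, hj]
            rw [if_neg hjS]
            have : Prod.mk z ⁻¹' thinSet (M := M) (Ns m) H c B j = ∅ := by
              ext v
              simp [thinSet, hj]
            rw [this, measure_empty]
        have hind : ∑ j, (B j).indicator (fun _ => (1 : ENNReal)) z = (S.card : ENNReal) := by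
          rw [Finset.card_filter]
          push_cast
          refine Finset.sum_congr rfl fun j _ => ?_
          by_cases hj : z ∈ B j <;> simp [hj]
        rw [hind]
        simp only [hval]
        rw [← Finset.sum_filter, Finset.filter_mem_eq_inter, Finset.univ_inter]
        rcases S.eq_empty_or_nonempty with h0 | ⟨j, hj⟩
        · rw [h0]
          simp
        · have hzY : z ∈ Y := hBY j (Finset.mem_filter.1 hj).2
          rw [indicator_of_mem hzY]
          exact sum_le_of_pair S _ (hle1 _) (fun a ha b hb hab => hpair _ a b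
            (by simpa using ha) (by simpa using hb) hab)
    _ = (∑ j, μ (B j)) / 2 + μ Y / 2 := by
        have h1 : ∀ j, Measurable ((B j).indicator (fun _ => (1 : ENNReal))) := fun j =>
          measurable_const.indicator (hB j)
        have h2 : Measurable fun z => ∑ j, (B j).indicator (fun _ => (1 : ENNReal)) z :=
          Finset.measurable_sum _ fun j _ => h1 j
        simp only [div_eq_mul_inv]
        rw [lintegral_add_left (h2.mul_const _), lintegral_mul_const _ h2,
          lintegral_mul_const _ (measurable_const.indicator hY),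
          lintegral_finsetSum _ (fun j _ => h1 j)]
        congr 2
        · refine Finset.sum_congr rfl fun j _ => ?_
          rw [lintegral_indicator_const (hB j), one_mul]
        · rw [lintegral_indicator_const hY, one_mul]

/-- Deleted loops are joined by hub edges and kept loops. -/
theorem thin_conn {Z : Type*} (act : G → Z → Z) (N : Subgroup G) [N.Normal] {J : Type*} {M m : ℕ}
    (K : Subgroup G) (z : Z) (hK : ∀ g ∈ K, act g z = z) (c : J → G) (hc : ∀ j, c j ∈ K)
    (a : Fin m → G) (ha : ∀ i, a i ∈ K) (Y : Set Z) (B : J → Set Z)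
    (hBY : ∀ j, B j ⊆ Y) (v : (G ⧸ N) × J → Fin M) (j : J) (hj : z ∈ B j) :
    ∀ x ∈ K, Relation.EqvGen (Edge (fun (g : G) (p : Z × ((G ⧸ N) × J → Fin M)) =>
        (act g p.1, clsAct N g p.2)) (Sum.elim a c)
      (Sum.elim (fun _ : Fin m => Y ×ˢ univ)
        (thinSet N (Subgroup.closure (Set.range a)) c B)) (z, v)) x (c j * x) := by
  set H := Subgroup.closure (Set.range a) with hH
  set R := Edge (fun (g : G) (p : Z × ((G ⧸ N) × J → Fin M)) =>
        (act g p.1, clsAct N g p.2)) (Sum.elim a c)
      (Sum.elim (fun _ : Fin m => Y ×ˢ univ) (thinSet N H c B)) (z, v) with hR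
  have hzY : z ∈ Y := hBY j hj
  have hHK : H ≤ K := by
    rw [hH, Subgroup.closure_le]
    rintro x ⟨i, rfl⟩
    exact ha i
  have hhub1 : ∀ i, ∀ x ∈ K, Relation.EqvGen R x (a i * x) := by
    intro i x hx
    apply Relation.EqvGen.rel
    refine ⟨Sum.inl i, ?_, rfl⟩
    exact ⟨by change act x z ∈ Y; rw [hK x hx]; exact hzY, mem_univ _⟩
  have hhub : ∀ h ∈ H, ∀ x ∈ K, Relation.EqvGen R x (h * x) := by
    intro h hh
    induction hh using Subgroup.closure_induction with
    | mem y hy =>
      obtain ⟨i, rfl⟩ := hy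
      exact hhub1 i
    | one =>
      intro x _
      rw [one_mul]
      exact Relation.EqvGen.refl _
    | mul y w _ hw' hy hw =>
      intro x hx
      rw [mul_assoc]
      exact (hw x hx).trans _ _ _ (hy _ (K.mul_mem (hHK hw') hx))
    | inv y hy ih =>
      intro x hx
      have h1 := ih (y⁻¹ * x) (K.mul_mem (K.inv_mem (hHK hy)) hx)
      rw [mul_inv_cancel_left] at h1
      exact h1.symm _ _
  -- induction on the class
  have main : ∀ n : ℕ, ∀ i : J, z ∈ B i → ∀ x ∈ K, kap N v x i = n →
      Relation.EqvGen R x (c i * x) := by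
    intro n
    induction n using Nat.strong_induction_on with
    | _ n ih =>
      intro i hi x hx hn
      by_cases hk : Kept H c (kap N v) {i | z ∈ B i} x i
      · apply Relation.EqvGen.rel
        refine ⟨Sum.inr i, ?_, rfl⟩
        change (act x z, clsAct N x v) ∈ thinSet N H c B i
        rw [hK x hx]
        refine ⟨hi, ?_⟩
        rw [kept_act, one_mul]
        exact hk
      · unfold Kept at hk
        push Not at hk
        rw [hn] at hk
        have step : ∀ p q : G, Relation.EqvGen (Low H c (kap N v) {i | z ∈ B i} n) p q →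
            (p ∈ K ↔ q ∈ K) ∧ (p ∈ K → Relation.EqvGen R p q) := by
          intro p q hpq
          induction hpq with
          | rel p q h =>
            rcases h with ⟨h, hh, rfl⟩ | ⟨i', hi', hlt, rfl⟩
            · refine ⟨?_, fun hp => hhub h hh p hp⟩
              constructor
              · intro hp; exact K.mul_mem (hHK hh) hp
              · intro hp
                have := K.mul_mem (K.inv_mem (hHK hh)) hp
                rwa [inv_mul_cancel_left] at this
            · refine ⟨?_, fun hp => ih _ hlt i' hi' p hp rfl⟩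
              constructor
              · intro hp; exact K.mul_mem (hc i') hp
              · intro hp
                have := K.mul_mem (K.inv_mem (hc i')) hp
                rwa [inv_mul_cancel_left] at this
          | refl p => exact ⟨Iff.rfl, fun _ => Relation.EqvGen.refl _⟩
          | symm p q _ ih' => exact ⟨ih'.1.symm, fun hq => (ih'.2 (ih'.1.2 hq)).symm _ _⟩
          | trans p q r _ _ ih1 ih2 =>
            exact ⟨ih1.1.trans ih2.1, fun hp =>
              (ih1.2 hp).trans _ _ _ (ih2.2 (ih1.1.1 hp))⟩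
        exact (step _ _ hk).2 hx
  intro x hx
  exact main _ j hj x hx rfl

end Pool.Agent.Lib.MP_354e85_al.Lim
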