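import Pool.Agent.Lib.MP_354e85_al.Lim.StepA
import Pool.Agent.Lib.MP_354e85_al.Lim.Thin2

open MeasureTheory Set Filter Topology

namespace Pool.Agent.Lib.MP_354e85_al.Lim

open Pool.Agent.Lib.MP_354e85_al

theorem tsum_sumType {α β : Type*} (f : α ⊕ β → ENNReal) :
    ∑' i, f i = ∑' a, f (Sum.inl a) + ∑' b, f (Sum.inr b) :=
  ENNReal.summable.tsum_sum ENNReal.summable

/-- A level from a family of general edges. -/
theorem lev_of_ge {G : Type} [Group G] [Countable G] {N : Subgroup G} {Z : Type}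
    [MeasurableSpace Z] [StandardBorelSpace Z] {μ : Measure Z} [IsProbabilityMeasure μ]
    {act : G → Z → Z} (hact : TAct G N Z μ act) {ι : Type} [Countable ι] (D : ι → Set Z)
    (σ τ : ι → Z → G) (hD : ∀ i, MeasurableSet (D i)) (hσ : ∀ i, MG (σ i)) (hτ : ∀ i, MG (τ i))
    (hgen : ∀ᵐ z ∂μ, ∀ g, Relation.EqvGen (GE act D σ τ z) 1 g) (x : ENNReal)
    (hx : ∑' i, μ (D i) ≤ x) : Lev G N x := by
  refine ⟨Z, inferInstance, inferInstance, μ, inferInstance, act, hact, ι × G × G, inferInstance,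
    cLab, cDom act D σ τ, cDom_meas act μ hact.mp D σ τ hD hσ hτ, ?_, ?_⟩
  · filter_upwards [hgen] with z hz g
    rw [eqvGen_congr (edge_iff_ge act hact.mul D σ τ z)]
    exact hz g
  · rw [tsum_cDom act μ hact.mp D σ τ hD hσ hτ]
    exact hx

theorem split_sum {Z : Type*} [MeasurableSpace Z] (μ : Measure Z) {κ : Type*} (D sel : κ → Set Z)
    (hsel : ∀ j, MeasurableSet (sel j)) (hsub : ∀ j, sel j ⊆ D j) (y : ENNReal)
    (hy : y ≤ ∑' j, μ (sel j)) : ∑' j, μ (D j \ sel j) + y ≤ ∑' j, μ (D j) := by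
  have h : ∀ j, μ (D j \ sel j) + μ (sel j) = μ (D j) := by
    intro j
    have := measure_sdiff_add_inter (μ := μ) (D j) (hsel j)
    rwa [inter_eq_self_of_subset_right (hsub j)] at this
  calc ∑' j, μ (D j \ sel j) + y ≤ ∑' j, μ (D j \ sel j) + ∑' j, μ (sel j) := by gcongr
    _ = ∑' j, (μ (D j \ sel j) + μ (sel j)) := (ENNReal.tsum_add).symm
    _ = ∑' j, μ (D j) := tsum_congr h

/-- The domains of the loops. -/
def Lp {G : Type*} [Group G] {N : Subgroup G} {Z ι : Type*} (act : G → Z → Z) (Y : Set Z)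
    (E : ι → Set Z) (u₂ : ι → Z → G) (n : ι → Z → N) (l : ι × G × N) : Set Z :=
  Y ∩ act l.2.1⁻¹ ⁻¹' (E l.1 ∩ ({z | u₂ l.1 z = l.2.1} ∩ {z | n l.1 z = l.2.2}))

theorem tsum_Lp {G : Type*} [Group G] [Countable G] {N : Subgroup G} {Z ι : Type*}
    [MeasurableSpace Z] (μ : Measure Z) (act : G → Z → Z)
    (hmp : ∀ g, MeasurePreserving (act g) μ μ) (Y : Set Z)
    (E : ι → Set Z) (u₂ : ι → Z → G) (n : ι → Z → N) (hE : ∀ i, MeasurableSet (E i))
    (hu : ∀ i, MG (u₂ i)) (hn : ∀ i, MG (n i)) :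
    ∑' l, μ (Lp act Y E u₂ n l) ≤ ∑' i, μ (E i) := by
  rw [ENNReal.tsum_prod (f := fun i (gh : G × N) => μ (Lp act Y E u₂ n (i, gh)))]
  refine ENNReal.tsum_le_tsum fun i => ?_
  have h1 : ∀ gh : G × N, μ (Lp act Y E u₂ n (i, gh)) ≤
      μ (E i ∩ ({z | u₂ i z = gh.1} ∩ {z | n i z = gh.2})) := by
    intro gh
    refine (measure_mono inter_subset_right).trans (le_of_eq ?_)
    exact (hmp _).measure_preimage ((hE _).inter ((hu _ _).inter (hn _ _))).nullMeasurableSet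
  refine (ENNReal.tsum_le_tsum h1).trans ?_
  rw [← measure_iUnion]
  · refine measure_mono ?_
    intro z hz
    obtain ⟨gh, hz⟩ := mem_iUnion.1 hz
    exact hz.1
  · intro a b hab
    rw [Function.onFun, Set.disjoint_left]
    rintro z ⟨_, h2, h3⟩ ⟨_, h4, h5⟩
    exact hab (Prod.ext (h2.symm.trans h4) (h3.symm.trans h5))
  · intro gh
    exact (hE _).inter ((hu _ _).inter (hn _ _))

theorem step_core {G : Type} [Group G] [Countable G] (Ns : ℕ → Subgroup G)
    [∀ n, (Ns n).Normal] (k : ℕ) (hanti : ∀ m, k ≤ m → Ns m ≤ Ns k)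
    (hsep : ∀ F : Finset G, (∀ x ∈ F, x ≠ 1) → ∃ m, k ≤ m ∧ ∀ x ∈ F, x ∉ Ns m)
    (p : ℕ) (a : Fin p → G) (ha : ∀ i, a i ∈ Ns k)
    (hhub : ∀ c ∈ Ns k, ∀ d ∈ Ns k, HubSet (Subgroup.closure (range a)) (Ns k) c d)
    {Z : Type} [MeasurableSpace Z] [StandardBorelSpace Z] (μ : Measure Z) [IsProbabilityMeasure μ]
    (act : G → Z → Z) (hact : TAct G (Ns k) Z μ act)
    {ι : Type} [Countable ι] (s : ι → G) (B : ι → Set Z) (hB : ∀ i, MeasurableSet (B i))
    (hgen : ∀ᵐ z ∂μ, ∀ g, Relation.EqvGen (Edge act s B z) 1 g)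
    {κ : Type} [Countable κ] (f : κ → G) (D : κ → Set Z) (hD : ∀ j, MeasurableSet (D j))
    (hgenF : ∀ᵐ z ∂μ, ∀ g, ∃ g', g'⁻¹ * g ∈ Ns k ∧ Relation.EqvGen (Edge act f D z) 1 g')
    (Y : Set Z) (hY : MeasurableSet Y) (hYr : ∀ᵐ z ∂μ, ∃ g, act g z ∈ Y)
    (hfin : ∑' i, μ (B i) ≠ ⊤) (δ : ENNReal) (hδ : δ ≠ 0) :
    ∃ m, k ≤ m ∧ ∃ ℓ : ENNReal, ℓ + μ Yᶜ ≤ ∑' i, μ (B i) ∧
      Lev G (Ns m) (∑' j, μ (D j) + p * μ Y + δ + ℓ / 2 + μ Y / 2) := by
  classical
  obtain ⟨h1, hmul, hmp, htriv⟩ := hact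
  have hm : ∀ g, Measurable (act g) := fun g => (hmp g).measurable
  obtain ⟨ρ, selE, hρm, hsEm, hsEB, hρY, hρr, hρs, hρμ⟩ := gauge μ act s B Y h1 hmul hmp hB hY
  obtain ⟨σ, selF, hσm, hsFm, hsFD, hσY, -, hσs, hσμ⟩ := gauge μ act f D Y h1 hmul hmp hD hY
  -- the moved cheap family
  have hFYm : ∀ x y, MeasurableSet {z | Relation.EqvGen (Mv act f D selF σ z) x y} := fun x y =>
    measurableSet_eqvGen _ (fun x y => measurableSet_ge hm _ _ _ (fun j => (hD j).diff (hsFm j))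
      (fun _ => hσm) (fun j => MG.mul_const (MG.comp_act hm hσm (f j)) (f j)) x y) x y
  let u₂ : ι → Z → G := fun i z => ρ (act (s i) z) * s i
  have hu₂ : ∀ i, MG (u₂ i) := fun i => MG.mul_const (MG.comp_act hm hρm (s i)) (s i)
  choose n hnm hn using fun i => loop_choice (Ns k)
    (fun z => Relation.EqvGen (Mv act f D selF σ z)) hFYm ρ (u₂ i) hρm (hu₂ i)
  let E : ι → Set Z := fun i => B i \ selE i
  have hEm : ∀ i, MeasurableSet (E i) := fun i => (hB i).diff (hsEm i)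
  let L : ι × G × Ns k → Set Z := Lp act Y E u₂ n
  have hLm : ∀ l, MeasurableSet (L l) := fun l =>
    hY.inter (hm _ ((hEm _).inter ((hu₂ _ _).inter (hnm _ _))))
  have hLsum : ∑' l, μ (L l) ≤ ∑' i, μ (E i) := tsum_Lp μ act hmp Y E u₂ n hEm hu₂ hnm
  -- good points
  have hreachE : ∀ᵐ z ∂μ, ∃ g, Relation.EqvGen (Edge act s B z) 1 g ∧ act g z ∈ Y := by
    filter_upwards [hgen, hYr] with z hz1 hz2
    obtain ⟨g, hg⟩ := hz2
    exact ⟨g, hz1 g, hg⟩
  have hreachF : ∀ᵐ z ∂μ, ∃ g, Relation.EqvGen (Edge act f D z) 1 g ∧ act g z ∈ Y := by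
    filter_upwards [hgenF, hYr] with z hz1 hz2
    obtain ⟨g, hg⟩ := hz2
    obtain ⟨g', hg'1, hg'2⟩ := hz1 g
    refine ⟨g', hg'2, ?_⟩
    have : act g z = act g' z := by
      have e : g = g' * (g'⁻¹ * g) := by group
      rw [e, hmul, htriv _ hg'1]
    rw [← this]
    exact hg
  have hEcost : ∑' i, μ (E i) + μ Yᶜ ≤ ∑' i, μ (B i) :=
    split_sum μ B selE hsEm hsEB _ (hρμ hreachE)
  have hFcost : ∑' j, μ (D j \ selF j) + μ Yᶜ ≤ ∑' j, μ (D j) :=
    split_sum μ D selF hsFm hsFD _ (hσμ hreachF)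
  have hEfin : ∑' i, μ (E i) ≠ ⊤ := ne_top_of_le_ne_top hfin (le_self_add.trans hEcost)
  have hLfin : ∑' l, μ (L l) ≠ ⊤ := ne_top_of_le_ne_top hEfin hLsum
  -- the finite part
  obtain ⟨J, hJ⟩ : ∃ J : Finset (ι × G × Ns k), ∑' l : {x // x ∉ J}, μ (L l) ≤ δ := by
    have ht := ENNReal.tendsto_tsum_compl_atTop_zero hLfin
    have := (tendsto_order.1 ht).2 δ (pos_iff_ne_zero.2 hδ)
    obtain ⟨J, hJ⟩ := this.exists
    exact ⟨J, hJ.le⟩
  let c : {x // x ∈ J} → G := fun l => (l.1.2.2 : G)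
  have hc : ∀ l, c l ∈ Ns k := fun l => l.1.2.2.2
  obtain ⟨m, hkm, M, hM, hthin⟩ := thin μ (Subgroup.closure (range a)) (Ns k) c hc hhub Ns k hsep
    Y hY (fun l : {x // x ∈ J} => L l.1) (fun l => hLm _) (fun l => inter_subset_left)
  refine ⟨m, hkm, ∑' i, μ (E i), hEcost, ?_⟩
  -- the new space
  let V : Type := (G ⧸ Ns m) × {x // x ∈ J} → Fin M
  have hcQ : Countable (G ⧸ Ns m) := Quotient.countable
  have hVsb : StandardBorelSpace V :=
    inferInstanceAs (StandardBorelSpace ((G ⧸ Ns m) × {x // x ∈ J} → Fin M))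
  let act' : G → Z × V → Z × V := fun g q => (act g q.1, clsAct (Ns m) g q.2)
  have hact' : TAct G (Ns m) (Z × V) (μ.prod (clsM (Ns m) {x // x ∈ J} M)) act' := by
    refine ⟨?_, ?_, ?_, ?_⟩
    · rintro ⟨z, v⟩
      exact Prod.ext (h1 z) (clsAct_one _ v)
    · rintro g h ⟨z, v⟩
      exact Prod.ext (hmul g h z) (clsAct_mul _ g h v)
    · intro g
      exact (hmp g).prod (clsAct_mp _ g)
    · rintro g hg ⟨z, v⟩
      exact Prod.ext (htriv g (hanti m hkm hg) z) (clsAct_mem _ g hg v)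
  let thn : {x // x ∈ J} → Set (Z × V) := thinSet (M := M) (Ns m) (Subgroup.closure (range a)) c
    (fun l : {x // x ∈ J} => L l.1)
  have hthnm : ∀ l, MeasurableSet (thn l) := fun l =>
    measurableSet_thinSet (Ns m) _ c _ (fun l => hLm _) l
  let D' : (Unit ⊕ κ) ⊕ ((Fin p ⊕ {x // x ∈ J}) ⊕ {x // x ∉ J}) → Set (Z × V) :=
    Sum.elim (Sum.elim (fun _ => Yᶜ ×ˢ univ) (fun j => (D j \ selF j) ×ˢ univ))
      (Sum.elim (Sum.elim (fun _ => Y ×ˢ univ) thn) (fun l => L l.1 ×ˢ univ))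
  let σ' : (Unit ⊕ κ) ⊕ ((Fin p ⊕ {x // x ∈ J}) ⊕ {x // x ∉ J}) → Z × V → G :=
    Sum.elim (Sum.elim (fun _ _ => 1) (fun _ q => σ q.1)) (fun _ _ => 1)
  let τ' : (Unit ⊕ κ) ⊕ ((Fin p ⊕ {x // x ∈ J}) ⊕ {x // x ∉ J}) → Z × V → G :=
    Sum.elim (Sum.elim (fun _ q => ρ q.1) (fun j q => σ (act (f j) q.1) * f j))
      (Sum.elim (Sum.elim (fun i _ => a i) (fun l _ => c l)) (fun l _ => (l.1.2.2 : G)))
  have hfst : ∀ {τ : Z → G}, MG τ → MG (fun q : Z × V => τ q.1) := fun hτ g =>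
    measurable_fst (hτ g)
  refine lev_of_ge hact' D' σ' τ' ?_ ?_ ?_ ?_ _ ?_
  · rintro ((_ | j) | ((i | l) | l))
    · exact hY.compl.prod MeasurableSet.univ
    · exact ((hD j).diff (hsFm j)).prod MeasurableSet.univ
    · exact hY.prod MeasurableSet.univ
    · exact hthnm l
    · exact (hLm _).prod MeasurableSet.univ
  · rintro ((_ | j) | ((i | l) | l))
    · exact MG.const _
    · exact hfst hσm
    · exact MG.const _
    · exact MG.const _
    · exact MG.const _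
  · rintro ((_ | j) | ((i | l) | l))
    · exact hfst hρm
    · exact hfst (MG.mul_const (MG.comp_act hm hσm (f j)) (f j))
    · exact MG.const _
    · exact MG.const _
    · exact MG.const _
  · -- generation
    have hgood : ∀ᵐ z ∂μ, ∀ u, (∀ g, Relation.EqvGen (Edge act s B (act u z)) 1 g) ∧
        (∀ g, ∃ g', g'⁻¹ * g ∈ Ns k ∧ Relation.EqvGen (Edge act f D (act u z)) 1 g') ∧
        ∃ g, act g (act u z) ∈ Y := by
      rw [ae_all_iff]
      intro u
      have h2 := (hmp u).quasiMeasurePreserving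
      filter_upwards [h2.ae hgen, h2.ae hgenF, h2.ae hYr] with z a1 a2 a3
      exact ⟨a1, a2, a3⟩
    have hgood' : ∀ᵐ q ∂(μ.prod (clsM (Ns m) {x // x ∈ J} M)), ∀ u,
        (∀ g, Relation.EqvGen (Edge act s B (act u q.1)) 1 g) ∧
        (∀ g, ∃ g', g'⁻¹ * g ∈ Ns k ∧ Relation.EqvGen (Edge act f D (act u q.1)) 1 g') ∧
        ∃ g, act g (act u q.1) ∈ Y := Measure.quasiMeasurePreserving_fst.ae hgood
    filter_upwards [hgood'] with q hq g
    obtain ⟨z, v⟩ := q
    set Q := Relation.EqvGen (GE act' D' σ' τ' (z, v)) with hQ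
    have hQt : ∀ {x y w : G}, Q x y → Q y w → Q x w := fun h h' => h.trans _ _ _ h'
    -- root edges
    have q1 : ∀ u, Q u (ρ (act u z) * u) := by
      intro u
      by_cases hu : act u z ∈ Y
      · rw [hρY _ hu, one_mul]
        exact Relation.EqvGen.refl _
      · apply Relation.EqvGen.rel
        exact ⟨Sum.inl (Sum.inl ()), u, ⟨hu, mem_univ _⟩, one_mul _, rfl⟩
    have q2 : ∀ {x y}, Relation.EqvGen (Mv act f D selF σ z) x y → Q x y := by
      intro x y hxy
      refine eqvGen_mono' ?_ hxy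
      rintro x y ⟨j, u, hu1, hu2, hu3⟩
      apply Relation.EqvGen.rel
      exact ⟨Sum.inl (Sum.inr j), u, ⟨hu1, mem_univ _⟩, hu2, hu3⟩
    have q3 : ∀ (l : ι × G × Ns k) (x : G), act x z ∈ L l → Q x ((l.2.2 : G) * x) := by
      intro l x hx
      by_cases hl : l ∈ J
      · have h2 := thin_conn act (Ns m) (M := M) (Ns k) (act x z) (fun g hg => htriv g hg _) c hc a
          ha Y (fun l : {x // x ∈ J} => L l.1) (fun l => inter_subset_left)
          (clsAct (Ns m) x v) ⟨l, hl⟩ hx 1 (Ns k).one_mem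
        have h3 : Relation.EqvGen (Edge act' (Sum.elim a c)
            (Sum.elim (fun _ : Fin p => Y ×ˢ univ) thn) (act' x (z, v))) 1 (c ⟨l, hl⟩ * 1) := h2
        rw [eqvGen_base x (fun _ _ => edge_act act' hact'.mul _ _ x (z, v) _ _), one_mul,
          mul_one] at h3
        refine eqvGen_mono' ?_ h3
        rintro x y ⟨i, hi, rfl⟩
        apply Relation.EqvGen.rel
        rcases i with i | l
        · exact ⟨Sum.inr (Sum.inl (Sum.inl i)), x, hi, one_mul _, rfl⟩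
        · exact ⟨Sum.inr (Sum.inl (Sum.inr l)), x, hi, one_mul _, rfl⟩
      · apply Relation.EqvGen.rel
        exact ⟨Sum.inr (Sum.inr ⟨l, hl⟩), x, ⟨hx, mem_univ _⟩, one_mul _, rfl⟩
    have q4 : ∀ i u, act u z ∈ B i →
        Q (ρ (act u z) * u) (ρ (act (s i * u) z) * (s i * u)) := by
      intro i u hu
      by_cases hs : act u z ∈ selE i
      · have : ρ (act u z) * u = ρ (act (s i * u) z) * (s i * u) := by
          rw [hρs i _ hs, hmul, mul_assoc]
        rw [this]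
        exact Relation.EqvGen.refl _
      · set z' := act u z with hz'
        have hr1 : act (ρ z') z' ∈ Y := by
          apply hρr
          obtain ⟨g, hg⟩ := (hq u).2.2
          exact ⟨g, (hq u).1 g, hg⟩
        have hr2 : act (u₂ i z') z' ∈ Y := by
          change act (ρ (act (s i) z') * s i) z' ∈ Y
          rw [hmul]
          apply hρr
          have e : act (s i) z' = act (s i * u) z := by rw [hmul]
          rw [e]
          obtain ⟨g, hg⟩ := (hq (s i * u)).2.2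
          exact ⟨g, (hq _).1 g, hg⟩
        have hex := mv_mod act hmul (Ns k) htriv f D selF σ hσs Y hσY z' (by
          intro w g
          have e : act w z' = act (w * u) z := by rw [hmul]
          rw [e]
          exact (hq (w * u)).2.1 g) (ρ z') (u₂ i z') hr1 hr2
        have h4 := hn i z' hex
        beta_reduce at h4
        rw [hz', mv_act act hmul f D selF σ u z] at h4
        rw [← hz'] at h4
        refine hQt (q2 h4) ?_
        -- the loop
        have hx : act ((n i z' : G)⁻¹ * u₂ i z' * u) z = act (u₂ i z') z' := by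
          rw [mul_assoc, hmul, htriv _ ((Ns k).inv_mem (n i z').2), hmul]
        have h5 := q3 (i, u₂ i z', n i z') ((n i z' : G)⁻¹ * u₂ i z' * u) (by
          rw [hx]
          refine ⟨hr2, ?_⟩
          have e : act (u₂ i z')⁻¹ (act (u₂ i z') z') = z' := by
            rw [← hmul, inv_mul_cancel, h1]
          change act (u₂ i z')⁻¹ (act (u₂ i z') z') ∈
            E i ∩ ({w | u₂ i w = u₂ i z'} ∩ {w | n i w = n i z'})
          rw [e]
          exact ⟨⟨hu, hs⟩, rfl, rfl⟩)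
        have e2 : (n i z' : G) * ((n i z' : G)⁻¹ * u₂ i z' * u) =
            ρ (act (s i * u) z) * (s i * u) := by
          rw [← mul_assoc, ← mul_assoc, mul_inv_cancel, one_mul]
          change ρ (act (s i) z') * s i * u = _
          rw [hz', ← hmul, mul_assoc]
        rw [e2] at h5
        exact h5
    have q5 : Q (ρ (act 1 z) * 1) (ρ (act g z) * g) := by
      have h6 := (hq 1).1 g
      rw [h1] at h6
      refine eqvGen_map (R := Edge act s B z) (fun x => ρ (act x z) * x) ?_ h6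
      rintro x y ⟨i, hi, rfl⟩
      exact q4 i x hi
    exact hQt (q1 1) (hQt q5 ((q1 g).symm _ _))
  · -- cost
    set P := μ.prod (clsM (Ns m) {x // x ∈ J} M) with hP
    have hprod : ∀ A : Set Z, P (A ×ˢ univ) = μ A := by
      intro A
      rw [hP, Measure.prod_prod, measure_univ, mul_one]
    rw [tsum_sumType, tsum_sumType, tsum_sumType, tsum_sumType]
    simp only [D', Sum.elim_inl, Sum.elim_inr, hprod]
    have e1 : ∑' _ : Unit, μ Yᶜ = μ Yᶜ := by
      rw [tsum_fintype]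
      simp
    have e2 : ∑' _ : Fin p, μ Y = (p : ENNReal) * μ Y := by
      rw [tsum_fintype]
      simp
    have e3 : ∑' l : {x // x ∈ J}, P (thn l) = ∑ l, P (thn l) := tsum_fintype _
    rw [e1, e2, e3]
    have hJle : ∑ l : {x // x ∈ J}, μ (L l.1) ≤ ∑' i, μ (E i) := by
      refine le_trans ?_ hLsum
      rw [Finset.sum_coe_sort J (fun l => μ (L l))]
      exact ENNReal.sum_le_tsum J
    calc μ Yᶜ + ∑' j, μ (D j \ selF j) + ((p : ENNReal) * μ Y + ∑ l, P (thn l) +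
          ∑' l : {x // x ∉ J}, μ (L l.1))
        ≤ ∑' j, μ (D j) + ((p : ENNReal) * μ Y +
          ((∑' i, μ (E i)) / 2 + μ Y / 2) + δ) := by
          gcongr
          · rw [add_comm]; exact hFcost
          · refine hthin.trans ?_
            gcongr
      _ = ∑' j, μ (D j) + (p : ENNReal) * μ Y + δ + (∑' i, μ (E i)) / 2 + μ Y / 2 := by ring

end Pool.Agent.Lib.MP_354e85_al.Lim
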