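import Pool.Agent.Lib.MP_354e85_al.Lim.Hub
import Pool.Agent.Lib.MP_354e85_al.Lim.Forest
import Pool.Agent.Lib.MP_354e85_al.Lim.Meas

open MeasureTheory Set

namespace Pool.Agent.Lib.MP_354e85_al.Lim

open Pool.Agent.Lib.MP_354e85_al

/-- The uniform measure on `Fin M`. -/
noncomputable def unif (M : ℕ) : Measure (Fin M) := (M : ENNReal)⁻¹ • Measure.count

theorem unif_singleton (M : ℕ) (i : Fin M) : unif M {i} = (M : ENNReal)⁻¹ := by
  simp [unif]

instance unif_prob (M : ℕ) [NeZero M] : IsProbabilityMeasure (unif M) := by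
  constructor
  simp only [unif, Measure.smul_apply, smul_eq_mul]
  rw [Measure.count_apply MeasurableSet.univ]
  simp only [Set.encard_univ, ENat.card_eq_coe_fintype_card, Fintype.card_fin]
  exact ENNReal.inv_mul_cancel (by simpa using NeZero.ne M) (by simp)

/-- The measure of the random classes. -/
noncomputable def clsM {G : Type*} [Group G] (N : Subgroup G) (J : Type*) (M : ℕ) [NeZero M] :
    Measure ((G ⧸ N) × J → Fin M) :=
  Measure.infinitePi (fun _ => unif M)

instance {G : Type*} [Group G] (N : Subgroup G) (J : Type*) (M : ℕ) [NeZero M] :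
    IsProbabilityMeasure (clsM N J M) := by
  unfold clsM
  infer_instance

section

variable {G : Type*} [Group G] (N : Subgroup G) [N.Normal] {J : Type*} {M : ℕ}

/-- The action on the random classes. -/
def clsAct (g : G) (v : (G ⧸ N) × J → Fin M) : (G ⧸ N) × J → Fin M :=
  fun p => v (p.1 * (g : G ⧸ N), p.2)

theorem clsAct_one (v : (G ⧸ N) × J → Fin M) : clsAct N 1 v = v := by
  funext p
  simp [clsAct]

theorem clsAct_mul (g h : G) (v : (G ⧸ N) × J → Fin M) :
    clsAct N (g * h) v = clsAct N g (clsAct N h v) := by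
  funext p
  simp [clsAct, mul_assoc]

theorem clsAct_mem (g : G) (hg : g ∈ N) (v : (G ⧸ N) × J → Fin M) : clsAct N g v = v := by
  funext p
  have : (g : G ⧸ N) = 1 := (QuotientGroup.eq_one_iff g).2 hg
  simp [clsAct, this]

theorem clsAct_mp (g : G) [NeZero M] :
    MeasurePreserving (clsAct (J := J) (M := M) N g) (clsM N J M) (clsM N J M) := by
  refine ⟨?_, ?_⟩
  · refine measurable_pi_lambda _ fun p => ?_
    exact measurable_pi_apply (X := fun _ : (G ⧸ N) × J => Fin M) (p.1 * (g : G ⧸ N), p.2)
  · unfold clsM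
    refine Measure.map_infinitePi_infinitePi_of_inj (P := fun _ : (G ⧸ N) × J => unif M)
      (f := fun p : (G ⧸ N) × J => (p.1 * (g : G ⧸ N), p.2)) ?_
    rintro ⟨a, i⟩ ⟨b, j⟩ h
    simp only [Prod.mk.injEq, mul_left_inj] at h
    exact Prod.ext h.1 h.2

omit [N.Normal] in
/-- The class of the edge `x → c j * x`. -/
def kap (v : (G ⧸ N) × J → Fin M) (x : G) (j : J) : ℕ := (v ((x : G ⧸ N), j)).val

theorem kap_act (g : G) (v : (G ⧸ N) × J → Fin M) (x : G) (j : J) :
    kap N (clsAct N g v) x j = kap N v (x * g) j := by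
  simp [kap, clsAct]

theorem eqvGen_act (H : Subgroup G) (c : J → G) (S : Set J) (g : G) (v : (G ⧸ N) × J → Fin M)
    (k : ℕ) (x y : G) :
    Relation.EqvGen (Low H c (kap N (clsAct N g v)) S k) x y ↔
      Relation.EqvGen (Low H c (kap N v) S k) (x * g) (y * g) := by
  have hlow : ∀ x y : G, Low H c (kap N (clsAct N g v)) S k x y ↔
      Low H c (kap N v) S k (x * g) (y * g) := by
    intro x y
    unfold Low
    simp only [kap_act, ← mul_assoc, mul_left_inj]
  constructor
  · intro h
    induction h with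
    | rel x y h => exact Relation.EqvGen.rel _ _ ((hlow x y).1 h)
    | refl x => exact Relation.EqvGen.refl _
    | symm x y _ ih => exact ih.symm _ _
    | trans x y z _ _ ih1 ih2 => exact ih1.trans _ _ _ ih2
  · intro h
    have key : ∀ x' y' : G, Relation.EqvGen (Low H c (kap N v) S k) x' y' →
        Relation.EqvGen (Low H c (kap N (clsAct N g v)) S k) (x' * g⁻¹) (y' * g⁻¹) := by
      intro x' y' h
      induction h with
      | rel x y h =>
        apply Relation.EqvGen.rel
        rw [hlow]
        simpa using h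
      | refl x => exact Relation.EqvGen.refl _
      | symm x y _ ih => exact ih.symm _ _
      | trans x y z _ _ ih1 ih2 => exact ih1.trans _ _ _ ih2
    simpa using key _ _ h

theorem kept_act (H : Subgroup G) (c : J → G) (S : Set J) (g : G) (v : (G ⧸ N) × J → Fin M)
    (x : G) (j : J) :
    Kept H c (kap N (clsAct N g v)) S x j ↔ Kept H c (kap N v) S (x * g) j := by
  unfold Kept
  rw [eqvGen_act, kap_act, mul_assoc]

omit [N.Normal] in
theorem measurable_kap (x : G) (j : J) :
    Measurable (fun v : (G ⧸ N) × J → Fin M => kap N v x j) := by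
  have h1 : Measurable (fun i : Fin M => i.val) := measurable_of_finite _
  exact h1.comp (measurable_pi_apply (X := fun _ : (G ⧸ N) × J => Fin M) ((x : G ⧸ N), j))

omit [N.Normal] in
theorem measurableSet_kept [Countable G] [Countable J] (H : Subgroup G) (c : J → G) (S : Set J)
    (x : G) (j : J) :
    MeasurableSet {v : (G ⧸ N) × J → Fin M | Kept H c (kap N v) S x j} := by
  have : {v : (G ⧸ N) × J → Fin M | Kept H c (kap N v) S x j} =
      {v | Relation.EqvGen (Low H c (kap N v) S (kap N v x j)) x (c j * x)}ᶜ := rfl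
  rw [this]
  refine (measurableSet_eqvGen _ (fun a b => ?_) _ _).compl
  have h2 : {v : (G ⧸ N) × J → Fin M | Low H c (kap N v) S (kap N v x j) a b} =
      {_v | ∃ h ∈ H, h * a = b} ∪ ⋃ i : J, ({v | kap N v a i < kap N v x j} ∩
        {_v | i ∈ S ∧ c i * a = b}) := by
    ext v
    simp only [Low, mem_ofPred_eq, mem_union, mem_iUnion, mem_inter_iff]
    constructor
    · rintro (h | ⟨i, h1, h2, h3⟩)
      · exact Or.inl h
      · exact Or.inr ⟨i, h2, h1, h3⟩
    · rintro (h | ⟨i, h1, h2, h3⟩)
      · exact Or.inl h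
      · exact Or.inr ⟨i, h2, h1, h3⟩
  rw [h2]
  refine (MeasurableSet.const _).union (MeasurableSet.iUnion fun i => ?_)
  exact (measurableSet_lt (measurable_kap N a i) (measurable_kap N x j)).inter
    (MeasurableSet.const _)

/-- The probability that the edge `j` at a point with loops `S` is kept. -/
noncomputable def pk [NeZero M] (H : Subgroup G) (c : J → G) (S : Set J) (j : J) : ENNReal :=
  clsM N J M {v | Kept H c (kap N v) S 1 j}

theorem pk_eq [Countable G] [Countable J] [NeZero M] (H : Subgroup G) (c : J → G) (S : Set J)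
    (j : J) (x : G) :
    clsM N J M {v | Kept H c (kap N v) S x j} = pk (M := M) N H c S j := by
  have h := (clsAct_mp (J := J) (M := M) N x).measure_preimage
    (measurableSet_kept N H c S 1 j).nullMeasurableSet
  unfold pk
  rw [← h]
  congr 1
  ext v
  simp only [mem_ofPred_eq, mem_preimage]
  rw [kept_act, one_mul]

omit [N.Normal] in
theorem tie_prob [NeZero M] (p q : (G ⧸ N) × J) (hpq : p ≠ q) :
    clsM N J M {v | v p = v q} ≤ (M : ENNReal)⁻¹ := by
  have h := Measure.infinitePi_map_eval_prod (P := fun _ : (G ⧸ N) × J => unif M) hpq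
  have hm : MeasurableSet {r : Fin M × Fin M | r.1 = r.2} := (Set.toFinite _).measurableSet
  have h2 : (clsM N J M).map (fun v => (v p, v q)) {r : Fin M × Fin M | r.1 = r.2} =
      (M : ENNReal)⁻¹ := by
    unfold clsM
    rw [h, Measure.prod_apply hm]
    have : ∀ x : Fin M, unif M (Prod.mk x ⁻¹' {r : Fin M × Fin M | r.1 = r.2}) =
        (M : ENNReal)⁻¹ := by
      intro x
      have : Prod.mk x ⁻¹' {r : Fin M × Fin M | r.1 = r.2} = {x} := by
        ext z
        simp [eq_comm]
      rw [this, unif_singleton]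
    simp only [this]
    rw [lintegral_const, measure_univ, mul_one]
  rw [Measure.map_apply (by fun_prop) hm] at h2
  exact le_of_eq h2

/-- The pair inequality. -/
theorem pair_prob [Countable G] [Countable J] [NeZero M] (H : Subgroup G) (c : J → G) (S : Set J)
    (j₁ j₂ : J) (hj₁ : j₁ ∈ S) (hj₂ : j₂ ∈ S) (hne : j₁ ≠ j₂) (B : Finset G) (hB : B.Nonempty)
    (V : Finset (Quotient (QuotientGroup.rightRel H)))
    (hV0 : ∀ b ∈ B, Quotient.mk (QuotientGroup.rightRel H) b ∈ V)
    (hV1 : ∀ b ∈ B, Quotient.mk (QuotientGroup.rightRel H) (c j₁ * b) ∈ V)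
    (hV2 : ∀ b ∈ B, Quotient.mk (QuotientGroup.rightRel H) (c j₂ * b) ∈ V)
    (hVB : V.card ≤ B.card)
    (hsep : ∀ b ∈ B, ∀ b' ∈ B, (b : G ⧸ N) = (b' : G ⧸ N) → b = b')
    (hM : 8 * B.card ^ 3 ≤ M) :
    pk (M := M) N H c S j₁ + pk (M := M) N H c S j₂ ≤ 1 := by
  classical
  set n := B.card with hn
  have hnpos : 0 < n := Finset.card_pos.2 hB
  let P : Finset (G × J) := B ×ˢ {j₁, j₂}
  have hPc : P.card = n * 2 := by
    rw [Finset.card_product, Finset.card_pair hne]
  let D : Set ((G ⧸ N) × J → Fin M) :=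
    ⋃ r ∈ (P ×ˢ P).filter (fun r => r.1 ≠ r.2),
      {v | v ((r.1.1 : G ⧸ N), r.1.2) = v ((r.2.1 : G ⧸ N), r.2.2)}
  have hDm : MeasurableSet D := by
    refine Finset.measurableSet_biUnion _ fun r _ => ?_
    exact measurableSet_eq_fun (measurable_pi_apply (X := fun _ : (G ⧸ N) × J => Fin M) _)
      (measurable_pi_apply (X := fun _ : (G ⧸ N) × J => Fin M) _)
  have hDμ : clsM N J M D ≤ (n * 2 * (n * 2) : ℕ) * (M : ENNReal)⁻¹ := by
    refine (measure_biUnion_finset_le _ _).trans ?_
    refine (Finset.sum_le_card_nsmul _ _ ((M : ENNReal)⁻¹) ?_).trans ?_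
    · intro r hr
      rw [Finset.mem_filter, Finset.mem_product] at hr
      obtain ⟨⟨h1, h2⟩, h3⟩ := hr
      rw [Finset.mem_product] at h1 h2
      refine tie_prob N _ _ ?_
      intro h
      rw [Prod.mk.injEq] at h
      exact h3 (Prod.ext (hsep _ h1.1 _ h2.1 h.1) h.2)
    · rw [nsmul_eq_mul]
      gcongr
      refine (Finset.card_filter_le _ _).trans ?_
      rw [Finset.card_product, hPc]
  -- pointwise count
  let f : ((G ⧸ N) × J → Fin M) → ENNReal := fun v =>
    ∑ b ∈ B, (({v | Kept H c (kap N v) S b j₁} : Set ((G ⧸ N) × J → Fin M)).indicator 1 v +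
      ({v | Kept H c (kap N v) S b j₂} : Set ((G ⧸ N) × J → Fin M)).indicator 1 v)
  have hf : ∫⁻ v, f v ∂(clsM N J M) =
      n * (pk (M := M) N H c S j₁ + pk (M := M) N H c S j₂) := by
    simp only [f]
    rw [lintegral_finsetSum' _ (fun b _ => ?_)]
    · have : ∀ b ∈ B, ∫⁻ v, (({v | Kept H c (kap N v) S b j₁} :
          Set ((G ⧸ N) × J → Fin M)).indicator 1 v +
          ({v | Kept H c (kap N v) S b j₂} : Set ((G ⧸ N) × J → Fin M)).indicator 1 v)
            ∂(clsM N J M) = pk (M := M) N H c S j₁ + pk (M := M) N H c S j₂ := by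
        intro b _
        rw [lintegral_add_left (measurable_one.indicator (measurableSet_kept N H c S b j₁)),
          lintegral_indicator_one (measurableSet_kept N H c S b j₁),
          lintegral_indicator_one (measurableSet_kept N H c S b j₂), pk_eq, pk_eq]
      rw [Finset.sum_congr rfl this, Finset.sum_const, nsmul_eq_mul]
    · exact ((measurable_one.indicator (measurableSet_kept N H c S b j₁)).add
        (measurable_one.indicator (measurableSet_kept N H c S b j₂))).aemeasurable
  have hcount : ∀ v, f v = (({b | b ∈ B ∧ Kept H c (kap N v) S b j₁}.ncard +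
      {b | b ∈ B ∧ Kept H c (kap N v) S b j₂}.ncard : ℕ) : ENNReal) := by
    intro v
    have e : ∀ j, {b | b ∈ B ∧ Kept H c (kap N v) S b j}.ncard =
        (B.filter (fun b => Kept H c (kap N v) S b j)).card := by
      intro j
      rw [← Set.ncard_coe_finset]
      congr 1
      ext b
      simp
    rw [e, e]
    simp only [f]
    rw [Finset.sum_add_distrib]
    push_cast
    have e2 : ∀ j, ∑ b ∈ B, ({v | Kept H c (kap N v) S b j} :
        Set ((G ⧸ N) × J → Fin M)).indicator (1 : ((G ⧸ N) × J → Fin M) → ENNReal) v =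
        ((B.filter (fun b => Kept H c (kap N v) S b j)).card : ENNReal) := by
      intro j
      rw [Finset.card_filter]
      push_cast
      refine Finset.sum_congr rfl fun b _ => ?_
      by_cases h : Kept H c (kap N v) S b j
      · simp [indicator, h]
      · simp [indicator, h]
    rw [e2, e2]
  have hbound : ∀ v, f v ≤ ((n - 1 : ℕ) : ENNReal) +
      ((n * 2 : ℕ) : ENNReal) * D.indicator (1 : ((G ⧸ N) × J → Fin M) → ENNReal) v := by
    intro v
    by_cases hv : v ∈ D
    · rw [hcount, indicator_of_mem hv]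
      simp only [Pi.one_apply, mul_one]
      rw [← Nat.cast_add]
      refine Nat.cast_le.2 ?_
      have e : ∀ j, {b | b ∈ B ∧ Kept H c (kap N v) S b j}.ncard ≤ n := by
        intro j
        have : {b | b ∈ B ∧ Kept H c (kap N v) S b j}.ncard =
            (B.filter (fun b => Kept H c (kap N v) S b j)).card := by
          rw [← Set.ncard_coe_finset]
          congr 1
          ext b
          simp
        rw [this]
        exact Finset.card_filter_le _ _
      have := e j₁
      have := e j₂
      omega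
    · rw [hcount, indicator_of_notMem hv, mul_zero, add_zero]
      have hk : {b | b ∈ B ∧ Kept H c (kap N v) S b j₁}.ncard +
          {b | b ∈ B ∧ Kept H c (kap N v) S b j₂}.ncard + 1 ≤ V.card := by
        refine pair_kept H c (kap N v) S j₁ j₂ hj₁ hj₂ B hB V hV0 hV1 hV2 ?_ hne
        intro b hb b' hb' j j' hj hj' hκ
        by_contra hcon
        apply hv
        simp only [D, mem_iUnion]
        have hjm : ∀ i : J, (i = j₁ ∨ i = j₂) → i ∈ ({j₁, j₂} : Finset J) := by
          intro i hi
          simpa using hi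
        refine ⟨((b, j), (b', j')), ?_, ?_⟩
        · rw [Finset.mem_filter, Finset.mem_product, Finset.mem_product, Finset.mem_product]
          refine ⟨⟨⟨hb, hjm j hj⟩, ⟨hb', hjm j' hj'⟩⟩, ?_⟩
          intro h
          apply hcon
          simpa using h
        · exact Fin.val_injective hκ
      have hk2 : {b | b ∈ B ∧ Kept H c (kap N v) S b j₁}.ncard +
          {b | b ∈ B ∧ Kept H c (kap N v) S b j₂}.ncard ≤ n - 1 := by omega
      exact Nat.cast_le.2 hk2
  have hint : (n : ENNReal) * (pk (M := M) N H c S j₁ + pk (M := M) N H c S j₂) ≤ n := by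
    rw [← hf]
    calc ∫⁻ v, f v ∂(clsM N J M) ≤ ∫⁻ v, (((n - 1 : ℕ) : ENNReal) +
          ((n * 2 : ℕ) : ENNReal) * D.indicator (1 : ((G ⧸ N) × J → Fin M) → ENNReal) v) ∂(clsM N J M) :=
          lintegral_mono hbound
      _ = ((n - 1 : ℕ) : ENNReal) + ((n * 2 : ℕ) : ENNReal) * clsM N J M D := by
          rw [lintegral_add_left measurable_const, lintegral_const, measure_univ, mul_one,
            lintegral_const_mul _ (measurable_one.indicator hDm), lintegral_indicator_one hDm]
      _ ≤ ((n - 1 : ℕ) : ENNReal) + 1 := by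
          gcongr
          calc ((n * 2 : ℕ) : ENNReal) * clsM N J M D
              ≤ ((n * 2 : ℕ) : ENNReal) * ((n * 2 * (n * 2) : ℕ) * (M : ENNReal)⁻¹) := by gcongr
            _ = ((8 * n ^ 3 : ℕ) : ENNReal) * (M : ENNReal)⁻¹ := by
                rw [← mul_assoc, ← Nat.cast_mul]
                congr 2
                ring
            _ ≤ (M : ENNReal) * (M : ENNReal)⁻¹ := by gcongr
            _ = 1 := ENNReal.mul_inv_cancel (by simpa using NeZero.ne M) (by simp)
      _ = n := by
          have h2 : n - 1 + 1 = n := by omega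
          calc ((n - 1 : ℕ) : ENNReal) + 1 = ((n - 1 + 1 : ℕ) : ENNReal) := by push_cast; rfl
            _ = n := by rw [h2]
  have h1 : (n : ENNReal) * (pk (M := M) N H c S j₁ + pk (M := M) N H c S j₂) ≤ n * 1 := by
    rwa [mul_one]
  exact (ENNReal.mul_le_mul_iff_right (by simpa using hnpos.ne') (by simp)).1 h1

end

end Pool.Agent.Lib.MP_354e85_al.Lim
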